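import Pool.Agent.BP2.M5.Defs

set_option autoImplicit false

/-!
# M5 (5b): the number of the admissible maps, few of them have many circles
-/

namespace BP2

open Finset Function

variable {L : Type*}

/-- the class of a label as an element of a finite type -/
def clsF (Q : ℕ) (a b : L → ℕ) (f : L → Bool) (x : L) : Fin (Q + 2) × Fin (Q + 2) × Bool :=
  (Fin.ofNat (Q + 2) (a x), Fin.ofNat (Q + 2) (b x), f x)

lemma clsF_eq {Q : ℕ} {a b : L → ℕ} {f : L → Bool} (hab : ∀ x, a x ≤ b x)
    (hb : ∀ x, b x ≤ Q + 1) {x : L} {i j : ℕ} {c : Bool} (hi : i < Q + 2) (hj : j < Q + 2) :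
    clsF Q a b f x = (⟨i, hi⟩, ⟨j, hj⟩, c) ↔ a x = i ∧ b x = j ∧ f x = c := by
  have h1 : a x < Q + 2 := by have := hab x; have := hb x; omega
  have h2 : b x < Q + 2 := by have := hb x; omega
  unfold clsF
  simp only [Prod.mk.injEq, Fin.ext_iff, Fin.ofNat, Nat.mod_eq_of_lt h1, Nat.mod_eq_of_lt h2]

lemma clsF_eq' {Q : ℕ} {a b : L → ℕ} {f : L → Bool} (hab : ∀ x, a x ≤ b x)
    (hb : ∀ x, b x ≤ Q + 1) {x y : L} :
    clsF Q a b f x = clsF Q a b f y ↔ a x = a y ∧ b x = b y ∧ f x = f y := by
  have h1 : a x < Q + 2 := by have := hab x; have := hb x; omega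
  have h2 : b x < Q + 2 := by have := hb x; omega
  have h3 : a y < Q + 2 := by have := hab y; have := hb y; omega
  have h4 : b y < Q + 2 := by have := hb y; omega
  unfold clsF
  simp only [Prod.mk.injEq, Fin.ext_iff, Fin.ofNat, Nat.mod_eq_of_lt h1, Nat.mod_eq_of_lt h2,
    Nat.mod_eq_of_lt h3, Nat.mod_eq_of_lt h4]

/-- extension by the identity -/
noncomputable def extW (A B : Finset L) (v : {x // x ∈ A} → {x // x ∈ B}) (x : L) : L := by
  classical
  exact if h : x ∈ A then (v ⟨x, h⟩ : L) else x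

lemma extW_mem {A B : Finset L} (v : {x // x ∈ A} → {x // x ∈ B}) (x : {x // x ∈ A}) :
    extW A B v x = v x := by
  unfold extW
  rw [dif_pos x.2]

lemma extW_not {A B : Finset L} (v : {x // x ∈ A} → {x // x ∈ B}) {x : L} (h : x ∉ A) :
    extW A B v x = x := by
  unfold extW
  rw [dif_neg h]

lemma extW_inj {A B : Finset L} : Function.Injective (extW A B) := by
  intro v v' h
  funext x
  have := congrFun h x
  rw [extW_mem, extW_mem] at this
  exact Subtype.ext this

/-- the restriction of an admissible map -/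
lemma exists_extW {A B : Finset L} {a b : L → ℕ} {f : L → Bool} {w : L → L}
    (h : Adm A B a b f w) : ∃ v : {x // x ∈ A} → {x // x ∈ B}, extW A B v = w := by
  refine ⟨fun x => ⟨w x, by exact_mod_cast h.bij.mapsTo (by exact_mod_cast x.2)⟩, ?_⟩
  funext x
  by_cases hx : x ∈ A
  · exact extW_mem _ ⟨x, hx⟩
  · rw [extW_not _ hx, h.id x hx]

/-- the admissible maps and the class preserving bijections -/
lemma adm_extW {Q : ℕ} {A B : Finset L} {a b : L → ℕ} {f : L → Bool} (hab : ∀ x, a x ≤ b x)
    (hb : ∀ x, b x ≤ Q + 1) {v : {x // x ∈ A} → {x // x ∈ B}}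
    (hv : Bijective v) (hv' : ∀ x, clsF Q a b f (v x) = clsF Q a b f x) :
    Adm A B a b f (extW A B v) where
  id x hx := extW_not v hx
  bij := by
    refine ⟨?_, ?_, ?_⟩
    · intro x hx
      have := extW_mem v ⟨x, by exact_mod_cast hx⟩
      rw [this]
      exact_mod_cast (v ⟨x, by exact_mod_cast hx⟩).2
    · intro x hx y hy hxy
      have h1 := extW_mem v ⟨x, by exact_mod_cast hx⟩
      have h2 := extW_mem v ⟨y, by exact_mod_cast hy⟩
      rw [h1, h2] at hxy
      have := hv.1 (Subtype.ext hxy)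
      exact congrArg Subtype.val this
    · intro y hy
      obtain ⟨x, hx⟩ := hv.2 ⟨y, by exact_mod_cast hy⟩
      refine ⟨x, by exact_mod_cast x.2, ?_⟩
      rw [extW_mem, hx]
  a x hx := by
    have h1 := extW_mem v ⟨x, hx⟩
    rw [h1]
    exact ((clsF_eq' hab hb).1 (hv' ⟨x, hx⟩)).1
  b x hx := by
    have h1 := extW_mem v ⟨x, hx⟩
    rw [h1]
    exact ((clsF_eq' hab hb).1 (hv' ⟨x, hx⟩)).2.1
  f x hx := by
    have h1 := extW_mem v ⟨x, hx⟩
    rw [h1]
    exact ((clsF_eq' hab hb).1 (hv' ⟨x, hx⟩)).2.2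

variable [Fintype L]

/-- the number of the admissible maps is at least `(#A / (6 (Q + 2) ^ 2)) ^ #A` -/
theorem card_Ws_ge {S : L → L} {a b : L → ℕ} {loc : Set ℕ} {P : L → Prop} {Q d : ℕ}
    {A B : Finset L} {f : L → Bool} {e : ℕ → ℕ} (hs : Split S a b loc P Q d A B f e)
    (hab : ∀ x, a x ≤ b x) (hb : ∀ x, b x ≤ Q + 1) :
    A.card ^ A.card ≤ (6 * (Q + 2) ^ 2) ^ A.card * (Ws A B a b f).card := by
  classical
  have hcl : ∀ c : Fin (Q + 2) × Fin (Q + 2) × Bool,
      Nat.card {x : {x // x ∈ A} // clsF Q a b f x = c} =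
        Nat.card {x : {x // x ∈ B} // clsF Q a b f x = c} := by
    rintro ⟨⟨i, hi⟩, ⟨j, hj⟩, c⟩
    have key : ∀ D : Finset L, Nat.card {x : {x // x ∈ D} // clsF Q a b f x =
        (⟨i, hi⟩, ⟨j, hj⟩, c)} = (D.filter fun x => a x = i ∧ b x = j ∧ f x = c).card := by
      intro D
      rw [Nat.card_eq_fintype_card, ← Fintype.card_coe]
      refine Fintype.card_congr ⟨fun x => ⟨x.1.1, ?_⟩, fun x => ⟨⟨x.1, ?_⟩, ?_⟩, ?_, ?_⟩
      · rw [mem_filter]
        exact ⟨x.1.2, (clsF_eq hab hb hi hj).1 x.2⟩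
      · exact (mem_filter.1 x.2).1
      · exact (clsF_eq hab hb hi hj).2 (mem_filter.1 x.2).2
      · intro x
        rfl
      · intro x
        rfl
    rw [key A, key B]
    exact hs.cls i j c
  have h1 := pow_self_le_card_Om (fun x : {x // x ∈ A} => clsF Q a b f x)
    (fun x : {x // x ∈ B} => clsF Q a b f x) hcl
  rw [Fintype.card_coe] at h1
  have h2 : Fintype.card (Fin (Q + 2) × Fin (Q + 2) × Bool) = 2 * (Q + 2) ^ 2 := by
    simp only [Fintype.card_prod, Fintype.card_fin, Fintype.card_bool]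
    ring
  rw [h2] at h1
  have h3 : (Om (fun x : {x // x ∈ A} => clsF Q a b f x)
      (fun x : {x // x ∈ B} => clsF Q a b f x)).card ≤ (Ws A B a b f).card := by
    apply Finset.card_le_card_of_injOn (extW A B)
    · intro v hv
      rw [mem_coe, mem_Om] at hv
      rw [mem_coe, mem_Ws]
      exact adm_extW hab hb hv.1 hv.2
    · exact extW_inj.injOn
  calc A.card ^ A.card ≤ (3 * (2 * (Q + 2) ^ 2)) ^ A.card * _ := h1
    _ ≤ (3 * (2 * (Q + 2) ^ 2)) ^ A.card * (Ws A B a b f).card := Nat.mul_le_mul_left _ h3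
    _ = _ := by ring_nf

/-- the data of the matching at time `t` -/
lemma mat_At {S I : L → L} {a b : L → ℕ} {loc : Set ℕ} {P : L → Prop} {Q d : ℕ}
    {A B : Finset L} {f : L → Bool} {e : ℕ → ℕ} (hs : Split S a b loc P Q d A B f e)
    (hS : Involutive S) (hI : Involutive I) (aS : ∀ x, a (S x) = a x) (bI : ∀ x, b (I x) = b x)
    (hab : ∀ x, a x ≤ b x) {w : L → L} (hw : Adm A B a b f w) (t : ℕ) :
    Mat (Kt S I a b t) (At A a b t) w where
  inv := Kt_invol hS hI aS bI hab t
  loose x hx := by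
    obtain ⟨hxA, h1, h2⟩ := hx
    unfold Kt
    rw [if_neg (by omega), if_pos h2]
  loose' x hx := by
    obtain ⟨hxA, h1, h2⟩ := hx
    unfold Kt
    rw [hw.a x hxA, hw.b x hxA, if_neg (by omega), if_pos h2]
  inj x hx y hy h := hw.bij.injOn (by exact_mod_cast hx.1) (by exact_mod_cast hy.1) h
  disj x hx h := by
    have h1 : w x ∈ B := by exact_mod_cast hw.bij.mapsTo (by exact_mod_cast hx.1)
    exact hs.disj _ h.1 h1

open Classical in
/-- few admissible maps have many circles -/
theorem card_circles {E S I : L → L} {a b : L → ℕ} {loc : Set ℕ} {P : L → Prop} {Q d : ℕ}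
    {A B : Finset L} {f : L → Bool} {e : ℕ → ℕ} (hs : Split S a b loc P Q d A B f e)
    (hE : Involutive E) (hS : Involutive S) (hI : Involutive I) (aS : ∀ x, a (S x) = a x)
    (bI : ∀ x, b (I x) = b x) (hab : ∀ x, a x ≤ b x) (hb : ∀ x, b x ≤ Q + 1) (t k : ℕ) :
    ((Ws A B a b f).filter (Circles E S I a b A t k)).card * A.card ^ k ≤
      (12 * (Q + 2) ^ 2) ^ A.card * (Ws A B a b f).card := by
  set S' := (Ws A B a b f).filter (Circles E S I a b A t k) with hS'
  have hQ : 1 ≤ 12 * (Q + 2) ^ 2 := Nat.mul_pos (by norm_num) (by positivity)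
  rcases Nat.eq_zero_or_pos k with hk | hk
  · rw [hk, pow_zero, mul_one]
    calc S'.card ≤ (Ws A B a b f).card := Finset.card_filter_le _ _
      _ = 1 * (Ws A B a b f).card := (one_mul _).symm
      _ ≤ _ := Nat.mul_le_mul_right _ (Nat.one_le_pow _ _ hQ)
  rcases S'.eq_empty_or_nonempty with he | ⟨w₀, hw₀⟩
  · rw [he, card_empty, Nat.zero_mul]
    exact Nat.zero_le _
  -- the representatives
  let Zf : (L → L) → Finset L := fun w => if h : Circles E S I a b A t k w then h.choose else ∅
  have hZf : ∀ w ∈ S', (Zf w).card = k ∧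
      (∀ z ∈ Zf w, z ∈ At A a b t ∧ Circ E (Yt S I a b A t w) z) ∧
      ∀ z ∈ Zf w, ∀ z' ∈ Zf w, EqC E (Yt S I a b A t w) z z' → z = z' := by
    intro w hw
    have h : Circles E S I a b A t k w := (mem_filter.1 hw).2
    simp only [Zf]
    rw [dif_pos h]
    exact h.choose_spec
  have hkA : k ≤ A.card := by
    rw [← (hZf w₀ hw₀).1]
    exact Finset.card_le_card fun z hz => ((hZf w₀ hw₀).2.1 z hz).1.1
  have hw₀' : Adm A B a b f w₀ := mem_Ws.1 (mem_filter.1 hw₀).1
  have hAB : B.card = A.card := by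
    have h1 := hw₀'.bij.image_eq
    have h2 : A.image w₀ = B := by
      rw [← Finset.coe_inj, Finset.coe_image]
      exact h1
    rw [← h2]
    exact Finset.card_image_of_injOn hw₀'.bij.injOn
  have hBpos : 0 < Fintype.card {x // x ∈ B} := by
    rw [Fintype.card_coe, hAB]
    omega
  -- the set of the restrictions
  let T : Finset ({x // x ∈ A} → {x // x ∈ B}) := univ.filter fun v => extW A B v ∈ S'
  have hST : S'.card ≤ T.card := by
    refine (Finset.card_le_card (t := T.image (extW A B)) ?_).trans Finset.card_image_le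
    intro w hw
    obtain ⟨v, hv⟩ := exists_extW (mem_Ws.1 (mem_filter.1 hw).1)
    rw [mem_image]
    exact ⟨v, by simp only [T, mem_filter, mem_univ, true_and]; rw [hv]; exact hw, hv⟩
  have hcode := card_le_of_code (X := Unit) hBpos T (fun _ => ())
    (fun v => (Zf (extW A B v)).subtype (· ∈ A)) k
    (by
      intro v hv
      simp only [T, mem_filter, mem_univ, true_and] at hv
      rw [Finset.card_subtype]
      rw [Finset.filter_true_of_mem]
      · exact (hZf _ hv).1.ge
      · intro z hz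
        exact ((hZf _ hv).2.1 z hz).1.1)
    (by
      intro v hv v' hv' _ hD hag
      simp only [T, mem_filter, mem_univ, true_and] at hv hv'
      have hZZ : Zf (extW A B v) = Zf (extW A B v') := by
        ext z
        constructor
        · intro hz
          have hzA := ((hZf _ hv).2.1 z hz).1.1
          have : (⟨z, hzA⟩ : {x // x ∈ A}) ∈ (Zf (extW A B v)).subtype (· ∈ A) := by
            rw [mem_subtype]
            exact hz
          rw [hD, mem_subtype] at this
          exact this
        · intro hz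
          have hzA := ((hZf _ hv').2.1 z hz).1.1
          have : (⟨z, hzA⟩ : {x // x ∈ A}) ∈ (Zf (extW A B v')).subtype (· ∈ A) := by
            rw [mem_subtype]
            exact hz
          rw [← hD, mem_subtype] at this
          exact this
      have hA1 : Adm A B a b f (extW A B v) := mem_Ws.1 (mem_filter.1 hv).1
      have hA2 : Adm A B a b f (extW A B v') := mem_Ws.1 (mem_filter.1 hv').1
      have hinj := circ_inj (E := E) (K := Kt S I a b t) (A := At A a b t)
        (Z := (Zf (extW A B v) : Set L)) hE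
        (mat_At hs hS hI aS bI hab hA1 t) (mat_At hs hS hI aS bI hab hA2 t)
        (fun z hz => ((hZf _ hv).2.1 z (by exact_mod_cast hz)).1)
        (fun z hz => ((hZf _ hv).2.1 z (by exact_mod_cast hz)).2)
        (fun z hz => by
          rw [hZZ] at hz
          exact ((hZf _ hv').2.1 z (by exact_mod_cast hz)).2)
        (fun z hz z' hz' h => (hZf _ hv).2.2 z (by exact_mod_cast hz) z' (by exact_mod_cast hz') h)
        (fun z hz z' hz' h => by
          rw [hZZ] at hz hz'
          exact (hZf _ hv').2.2 z (by exact_mod_cast hz) z' (by exact_mod_cast hz') h)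
        (fun z hz hz' => by
          have hz2 : (⟨z, hz.1⟩ : {x // x ∈ A}) ∉ (Zf (extW A B v)).subtype (· ∈ A) := by
            rw [mem_subtype]
            exact fun h => hz' (by exact_mod_cast h)
          have h3 := hag _ hz2
          rw [extW_mem v ⟨z, hz.1⟩, extW_mem v' ⟨z, hz.1⟩, h3])
      funext z
      apply Subtype.ext
      rw [← extW_mem v z, ← extW_mem v' z]
      by_cases hz : z ∈ (Zf (extW A B v)).subtype (· ∈ A)
      · rw [mem_subtype] at hz
        exact hinj z ((hZf _ hv).2.1 z hz).1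
      · rw [extW_mem, extW_mem, hag z hz])
  rw [Fintype.card_unit, one_mul, Fintype.card_coe, Fintype.card_coe, hAB] at hcode
  calc S'.card * A.card ^ k ≤ (2 ^ A.card * A.card ^ (A.card - k)) * A.card ^ k :=
        Nat.mul_le_mul_right _ (hST.trans hcode)
    _ = 2 ^ A.card * A.card ^ A.card := by
        rw [mul_assoc, ← pow_add, Nat.sub_add_cancel hkA]
    _ ≤ 2 ^ A.card * ((6 * (Q + 2) ^ 2) ^ A.card * (Ws A B a b f).card) :=
        Nat.mul_le_mul_left _ (card_Ws_ge hs hab hb)
    _ = (12 * (Q + 2) ^ 2) ^ A.card * (Ws A B a b f).card := by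
        rw [← mul_assoc, ← mul_pow]
        ring_nf

end BP2
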