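import Pool.Agent.BP2.M5.CircN

set_option autoImplicit false

/-!
# M5 (5b): the threshold `k₀ n ~ c n / log n` for the number of the circles
-/

namespace BP2

open Finset Function

lemma sq_le_two_pow (l : ℕ) : l ^ 2 ≤ 2 ^ (l + 1) := by
  induction l with
  | zero => simp
  | succ l ih =>
    rcases Nat.lt_or_ge l 2 with h | h
    · interval_cases l <;> simp
    · rcases Nat.lt_or_ge l 3 with h3 | h3
      · interval_cases l
        simp
      · rw [pow_succ 2 (l + 1)]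
        nlinarith

/-- the threshold -/
def k0f (c n : ℕ) : ℕ := c * n / (Nat.log 2 n + 1) + c

lemma k0f_mul_ge (c n : ℕ) (hc : 1 ≤ c) : c * n ≤ k0f c n * (Nat.log 2 n + 1) := by
  unfold k0f
  have h := Nat.lt_mul_div_succ (c * n) (b := Nat.log 2 n + 1) (by omega)
  calc c * n ≤ (Nat.log 2 n + 1) * (c * n / (Nat.log 2 n + 1) + 1) := h.le
    _ ≤ (Nat.log 2 n + 1) * (c * n / (Nat.log 2 n + 1) + c) := Nat.mul_le_mul_left _ (by omega)
    _ = _ := mul_comm _ _

lemma k0f_mul_le (c n : ℕ) : k0f c n * (Nat.log 2 n + 1) ≤ 2 * c * n + c := by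
  unfold k0f
  have h := Nat.div_mul_le_self (c * n) (Nat.log 2 n + 1)
  have h2 : Nat.log 2 n ≤ n := Nat.log_le_self 2 n
  calc (c * n / (Nat.log 2 n + 1) + c) * (Nat.log 2 n + 1)
      = c * n / (Nat.log 2 n + 1) * (Nat.log 2 n + 1) + c * (Nat.log 2 n + 1) := by ring
    _ ≤ c * n + c * (n + 1) := Nat.add_le_add h (Nat.mul_le_mul_left _ (by omega))
    _ = 2 * c * n + c := by ring

lemma k0f_pow (c n : ℕ) : (2 * n + 1) ^ (k0f c n) ≤ 4 ^ c * (16 ^ c) ^ n := by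
  have h1 : 2 * n + 1 ≤ 2 ^ (2 * (Nat.log 2 n + 1)) := by
    have h2 : n < 2 ^ (Nat.log 2 n + 1) := Nat.lt_pow_succ_log_self (by norm_num) n
    have h3 : 2 ≤ 2 ^ (Nat.log 2 n + 1) := by
      calc 2 = 2 ^ 1 := by norm_num
        _ ≤ 2 ^ (Nat.log 2 n + 1) := Nat.pow_le_pow_right (by norm_num) (by omega)
    rw [mul_comm 2 (Nat.log 2 n + 1), pow_mul]
    nlinarith
  calc (2 * n + 1) ^ (k0f c n) ≤ (2 ^ (2 * (Nat.log 2 n + 1))) ^ (k0f c n) :=
        Nat.pow_le_pow_left h1 _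
    _ = 2 ^ (2 * (k0f c n * (Nat.log 2 n + 1))) := by
        rw [← pow_mul]
        congr 1
        ring
    _ ≤ 2 ^ (2 * (2 * c * n + c)) :=
        Nat.pow_le_pow_right (by norm_num) (Nat.mul_le_mul_left _ (k0f_mul_le c n))
    _ = 4 ^ c * (16 ^ c) ^ n := by
        rw [show (4 : ℕ) = 2 ^ 2 by norm_num, show (16 : ℕ) = 2 ^ 4 by norm_num, ← pow_mul,
          ← pow_mul, ← pow_mul, ← pow_add]
        congr 1
        ring

lemma k0f_small (c m : ℕ) : ∃ C', ∀ n, m * k0f c n ≤ n + C' := by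
  obtain ⟨N, hN⟩ : ∃ N, N = 2 ^ (m * c) := ⟨_, rfl⟩
  refine ⟨m * c * (N + 2), fun n => ?_⟩
  rcases lt_or_ge n N with h | h
  · have h1 : k0f c n ≤ c * n + c := by
      unfold k0f
      exact Nat.add_le_add_right (Nat.div_le_self _ _) _
    calc m * k0f c n ≤ m * (c * n + c) := Nat.mul_le_mul_left _ h1
      _ = m * c * (n + 1) := by ring
      _ ≤ m * c * (N + 2) := Nat.mul_le_mul_left _ (by omega)
      _ ≤ _ := Nat.le_add_left _ _
  · have h1 : m * c ≤ Nat.log 2 n := by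
      apply Nat.le_log_of_pow_le (by norm_num)
      rw [← hN]
      exact h
    have h2 : m * (c * n / (Nat.log 2 n + 1)) ≤ n := by
      calc m * (c * n / (Nat.log 2 n + 1)) ≤ m * (c * n) / (Nat.log 2 n + 1) :=
            Nat.mul_div_le_mul_div_assoc _ _ _
        _ ≤ n := by
            apply Nat.div_le_of_le_mul
            calc m * (c * n) = m * c * n := by ring
              _ ≤ (Nat.log 2 n + 1) * n := Nat.mul_le_mul_right _ (by omega)
    unfold k0f
    rw [Nat.mul_add]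
    have h3 : m * c ≤ m * c * (N + 2) := Nat.le_mul_of_pos_right _ (by omega)
    omega

/-- the numerical core -/
lemma k0f_core {R Λ D a n : ℕ} (hD : 1 ≤ D) (ha : a ≤ 2 * n + 1)
    (hk : k0f (4 * (R * Λ * D ^ 3) + 4) n ≤ a) :
    R * Λ ^ n * D ^ a ≤ a ^ (k0f (4 * (R * Λ * D ^ 3) + 4) n) := by
  obtain ⟨s, hs⟩ : ∃ s, s = R * Λ * D ^ 3 := ⟨_, rfl⟩
  rw [← hs] at hk ⊢
  obtain ⟨c, hc⟩ : ∃ c, c = 4 * s + 4 := ⟨_, rfl⟩
  rw [← hc] at hk ⊢
  have hca : c ≤ a := le_trans (by unfold k0f; exact Nat.le_add_left _ _) hk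
  have hn2 : 2 ≤ n := by omega
  obtain ⟨l, hl⟩ : ∃ l, l = Nat.log 2 n := ⟨_, rfl⟩
  have hl1 : 1 ≤ l := by
    rw [hl]
    apply Nat.le_log_of_pow_le (by norm_num)
    omega
  have hln : 2 ^ l ≤ n := by
    rw [hl]
    exact Nat.pow_log_le_self 2 (by omega)
  have hge := k0f_mul_ge c n (by omega)
  rw [← hl] at hge
  -- `n ≤ a ^ 2`
  have hal : c * n ≤ a * (l + 1) := hge.trans (Nat.mul_le_mul_right _ hk)
  have hna : n ≤ a ^ 2 := by
    have h1 : (l + 1) ^ 2 ≤ 4 * n := by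
      calc (l + 1) ^ 2 ≤ 2 ^ (l + 1 + 1) := sq_le_two_pow (l + 1)
        _ = 4 * 2 ^ l := by ring
        _ ≤ 4 * n := Nat.mul_le_mul_left _ hln
    have h2 : (c * n) ^ 2 ≤ (a * (l + 1)) ^ 2 := Nat.pow_le_pow_left hal 2
    have h3 : 4 * n * n ≤ a ^ 2 * (4 * n) := by
      calc 4 * n * n ≤ (c * n) ^ 2 := by
            have : 2 ≤ c := by omega
            nlinarith [Nat.mul_le_mul this this]
        _ ≤ (a * (l + 1)) ^ 2 := h2
        _ = a ^ 2 * (l + 1) ^ 2 := by ring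
        _ ≤ a ^ 2 * (4 * n) := Nat.mul_le_mul_left _ h1
    have h4 : 4 * n * n ≤ 4 * n * a ^ 2 := by rw [mul_comm (4 * n) (a ^ 2)]; exact h3
    exact Nat.le_of_mul_le_mul_left h4 (by omega)
  -- squares
  have hsq : (R * Λ ^ n * D ^ a) ^ 2 ≤ (a ^ (k0f c n)) ^ 2 := by
    calc (R * Λ ^ n * D ^ a) ^ 2 ≤ (R ^ n * Λ ^ n * D ^ (3 * n)) ^ 2 := by
          apply Nat.pow_le_pow_left
          apply Nat.mul_le_mul
          · exact Nat.mul_le_mul_right _ (Nat.le_self_pow (by omega) R)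
          · exact Nat.pow_le_pow_right hD (by omega)
      _ = s ^ (2 * n) := by
          rw [hs, pow_mul D 3 n, ← mul_pow, ← mul_pow, ← pow_mul]
          congr 1
          ring
      _ ≤ (2 ^ s) ^ (2 * n) := Nat.pow_le_pow_left (Nat.lt_two_pow_self).le _
      _ = 2 ^ (2 * s * n) := by
          rw [← pow_mul]
          congr 1
          ring
      _ ≤ 2 ^ (l * k0f c n) := by
          apply Nat.pow_le_pow_right (by norm_num)
          have h1 : k0f c n * (l + 1) ≤ 2 * (l * k0f c n) := by nlinarith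
          have h2 : 4 * s * n ≤ c * n := Nat.mul_le_mul_right _ (by omega)
          have h3 : 4 * s * n = 2 * (2 * s * n) := by ring
          omega
      _ = (2 ^ l) ^ (k0f c n) := by rw [pow_mul]
      _ ≤ (a ^ 2) ^ (k0f c n) := Nat.pow_le_pow_left (hln.trans hna) _
      _ = (a ^ (k0f c n)) ^ 2 := by
          rw [← pow_mul, ← pow_mul]
          congr 1
          ring
  exact (Nat.pow_le_pow_iff_left (by norm_num)).1 hsq

open Classical in
/-- **few admissible maps have `k₀ n` circles**, `k₀ n ~ c n / log n` -/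
theorem circles_k0 (Q R Λ : ℕ) : ∃ (K C : ℕ) (k₀ : ℕ → ℕ),
    (∀ n, (2 * n + 1) ^ (k₀ n) ≤ C * K ^ n) ∧ (∀ m, ∃ C', ∀ n, m * k₀ n ≤ n + C') ∧
    ∀ (L : Type) [Fintype L] (E S I : L → L) (a b : L → ℕ) (loc : Set ℕ) (P : L → Prop)
      (d n : ℕ) (A B : Finset L) (f : L → Bool) (e : ℕ → ℕ), Fintype.card L = 2 * n + 1 →
      Split S a b loc P Q d A B f e → Involutive E → Involutive S → Involutive I →
      (∀ x, a (S x) = a x) → (∀ x, b (I x) = b x) → (∀ x, a x ≤ b x) → (∀ x, b x ≤ Q + 1) →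
      ∀ t : ℕ, R * ((Ws A B a b f).filter (Circles E S I a b A t (k₀ n))).card * Λ ^ n ≤
        (Ws A B a b f).card := by
  obtain ⟨D, hD⟩ : ∃ D, D = 12 * (Q + 2) ^ 2 := ⟨_, rfl⟩
  have hD1 : 1 ≤ D := by
    rw [hD]
    exact Nat.mul_pos (by norm_num) (by positivity)
  refine ⟨16 ^ (4 * (R * Λ * D ^ 3) + 4), 4 ^ (4 * (R * Λ * D ^ 3) + 4),
    k0f (4 * (R * Λ * D ^ 3) + 4),
    fun n => k0f_pow _ n, fun m => k0f_small _ m, ?_⟩
  intro L _ E S I a b loc P d n A B f e hL hs hE hS hI aS bI hab hb t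
  set k := k0f (4 * (R * Λ * D ^ 3) + 4) n with hk
  set S' := (Ws A B a b f).filter (Circles E S I a b A t k) with hS'
  rcases S'.eq_empty_or_nonempty with he | ⟨w₀, hw₀⟩
  · rw [he, card_empty, Nat.mul_zero, Nat.zero_mul]
    exact Nat.zero_le _
  have hkA : k ≤ A.card := by
    obtain ⟨Z, hZ, h2, -⟩ := (mem_filter.1 hw₀).2
    rw [← hZ]
    exact Finset.card_le_card fun z hz => (h2 z hz).1.1
  have hAn : A.card ≤ 2 * n + 1 := hL ▸ Finset.card_le_univ A
  have hcore := k0f_core hD1 hAn hkA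
  have h1 := card_circles (t := t) (k := k) hs hE hS hI aS bI hab hb
  rw [← hD] at h1
  have h2 : (R * S'.card * Λ ^ n) * D ^ A.card ≤ (Ws A B a b f).card * D ^ A.card := by
    calc (R * S'.card * Λ ^ n) * D ^ A.card = S'.card * (R * Λ ^ n * D ^ A.card) := by ring
      _ ≤ S'.card * A.card ^ k := Nat.mul_le_mul_left _ hcore
      _ ≤ D ^ A.card * (Ws A B a b f).card := h1
      _ = _ := mul_comm _ _
  exact Nat.le_of_mul_le_mul_right h2 (by positivity)

end BP2
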