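import Pool.Agent.BP2.M5.CircB

set_option autoImplicit false

/-!
# M5 (5b): few admissible maps have many circles, numerical form
-/

namespace BP2

open Finset Function

lemma Circles.mono {L : Type*} {E S I : L → L} {a b : L → ℕ} {A : Finset L} {t k k' : ℕ}
    {w : L → L} (h : Circles E S I a b A t k w) (hk : k' ≤ k) : Circles E S I a b A t k' w := by
  obtain ⟨Z, hZ, h1, h2⟩ := h
  obtain ⟨Z', hZ', hc⟩ := Finset.exists_subset_card_eq (s := Z) (n := k') (by rw [hZ]; exact hk)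
  exact ⟨Z', hc, fun z hz => h1 z (hZ' hz), fun z hz z' hz' => h2 z (hZ' hz) z' (hZ' hz')⟩

open Classical in
/-- few admissible maps have at least `n / m` circles at time `t` -/
theorem circles_num (m Λ Q : ℕ) (hm : 0 < m) : ∃ C : ℕ, ∀ (L : Type) [Fintype L]
    (E S I : L → L) (a b : L → ℕ) (loc : Set ℕ) (P : L → Prop) (d n : ℕ) (A B : Finset L)
    (f : L → Bool) (e : ℕ → ℕ), Fintype.card L = 2 * n + 1 → Split S a b loc P Q d A B f e →
    Involutive E → Involutive S → Involutive I → (∀ x, a (S x) = a x) → (∀ x, b (I x) = b x) →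
    (∀ x, a x ≤ b x) → (∀ x, b x ≤ Q + 1) → ∀ t : ℕ,
    ((Ws A B a b f).filter fun w => ∃ k, n ≤ m * k ∧ Circles E S I a b A t k w).card * Λ ^ n ≤
      C * (Ws A B a b f).card := by
  obtain ⟨D, hD⟩ : ∃ D, D = 12 * (Q + 2) ^ 2 := ⟨_, rfl⟩
  have hD1 : 1 ≤ D := by
    rw [hD]
    exact Nat.mul_pos (by norm_num) (by positivity)
  obtain ⟨n₀, hn₀⟩ : ∃ n₀, n₀ = m * (Λ * D ^ 3) ^ m + 1 := ⟨_, rfl⟩
  refine ⟨(Λ + 1) ^ n₀, ?_⟩
  intro L _ E S I a b loc P d n A B f e hL hs hE hS hI aS bI hab hb t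
  set S' := (Ws A B a b f).filter fun w => ∃ k, n ≤ m * k ∧ Circles E S I a b A t k w with hS'
  have hsub : S'.card ≤ (Ws A B a b f).card := Finset.card_filter_le _ _
  have hΛ1 : 1 ≤ (Λ + 1) ^ n₀ := Nat.one_le_pow _ _ (by omega)
  rcases lt_or_ge n n₀ with hn | hn
  · calc S'.card * Λ ^ n ≤ (Ws A B a b f).card * (Λ + 1) ^ n₀ := by
          refine Nat.mul_le_mul hsub ?_
          calc Λ ^ n ≤ (Λ + 1) ^ n := Nat.pow_le_pow_left (by omega) n
            _ ≤ (Λ + 1) ^ n₀ := Nat.pow_le_pow_right (by omega) hn.le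
      _ = _ := mul_comm _ _
  · rcases S'.eq_empty_or_nonempty with he | ⟨w₀, hw₀⟩
    · rw [he, card_empty, Nat.zero_mul]
      exact Nat.zero_le _
    obtain ⟨k, hk⟩ : ∃ k, k = (n + m - 1) / m := ⟨_, rfl⟩
    have hkn : n ≤ m * k := by
      have h1 := Nat.lt_mul_div_succ (n + m - 1) hm
      rw [← hk] at h1
      have : m * (k + 1) = m * k + m := by ring
      omega
    have hkle : ∀ k', n ≤ m * k' → k ≤ k' := by
      intro k' hk'
      rw [hk]
      rw [← Nat.lt_succ_iff, Nat.div_lt_iff_lt_mul hm]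
      have : (k' + 1) * m = m * k' + m := by ring
      rw [Nat.succ_eq_add_one, this]
      omega
    have hS'2 : S' ⊆ (Ws A B a b f).filter (Circles E S I a b A t k) := by
      intro w hw
      rw [hS', mem_filter] at hw
      obtain ⟨hw1, k', hk', hc⟩ := hw
      rw [mem_filter]
      exact ⟨hw1, hc.mono (hkle k' hk')⟩
    have h1 := card_circles (t := t) (k := k) hs hE hS hI aS bI hab hb
    rw [← hD] at h1
    have hkA : k ≤ A.card := by
      obtain ⟨Z, hZ, h2, -⟩ := (mem_filter.1 (hS'2 hw₀)).2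
      rw [← hZ]
      exact Finset.card_le_card fun z hz => (h2 z hz).1.1
    have hAn : A.card ≤ 3 * n := by
      have h2 : A.card ≤ Fintype.card L := Finset.card_le_univ A
      have h3 : 1 ≤ n := by
        have : 0 < n₀ := by omega
        omega
      omega
    have hΛA : (Λ * D ^ 3) ^ m ≤ A.card := by
      have h2 : m * (Λ * D ^ 3) ^ m ≤ m * k := by omega
      exact (Nat.le_of_mul_le_mul_left h2 hm).trans hkA
    have hpow : (Λ * D ^ 3) ^ n ≤ A.card ^ k := by
      rcases Nat.eq_zero_or_pos (Λ * D ^ 3) with h0 | h0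
      · rw [h0]
        have h3 : n ≠ 0 := by
          have : 0 < n₀ := by omega
          omega
        rw [Nat.zero_pow (by omega)]
        exact Nat.zero_le _
      · calc (Λ * D ^ 3) ^ n ≤ (Λ * D ^ 3) ^ (m * k) := Nat.pow_le_pow_right h0 hkn
          _ = ((Λ * D ^ 3) ^ m) ^ k := by rw [pow_mul]
          _ ≤ A.card ^ k := Nat.pow_le_pow_left hΛA k
    have h4 : S'.card * Λ ^ n * D ^ (3 * n) ≤ (Ws A B a b f).card * D ^ (3 * n) := by
      calc S'.card * Λ ^ n * D ^ (3 * n) = S'.card * (Λ * D ^ 3) ^ n := by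
            rw [mul_pow, ← pow_mul]
            ring
        _ ≤ S'.card * A.card ^ k := Nat.mul_le_mul_left _ hpow
        _ ≤ ((Ws A B a b f).filter (Circles E S I a b A t k)).card * A.card ^ k :=
            Nat.mul_le_mul_right _ (Finset.card_le_card hS'2)
        _ ≤ D ^ A.card * (Ws A B a b f).card := h1
        _ ≤ D ^ (3 * n) * (Ws A B a b f).card :=
            Nat.mul_le_mul_right _ (Nat.pow_le_pow_right hD1 hAn)
        _ = _ := mul_comm _ _
    have h5 : S'.card * Λ ^ n ≤ (Ws A B a b f).card :=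
      Nat.le_of_mul_le_mul_right h4 (by positivity)
    calc S'.card * Λ ^ n ≤ 1 * (Ws A B a b f).card := by rw [one_mul]; exact h5
      _ ≤ _ := Nat.mul_le_mul_right _ hΛ1

end BP2
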