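import Pool.Agent.BP2.M5.Defs
import Pool.Agent.BP2.M.Complete

set_option autoImplicit false

/-!
# M5: the arrangement `Xt t w` is nearly `Yt t w`
-/

namespace BP2

open Finset Function

variable {L : Type*}

/-- the matching at time `t` -/
lemma Adm.mat [Fintype L] {E S I : L → L} {Q d : ℕ} {a b : L → ℕ} {loc : Set ℕ} {P : L → Prop}
    {A B : Finset L} {f : L → Bool} {e : ℕ → ℕ} (hS : Involutive S) (hI : Involutive I)
    (h : Sched E S I Q a b loc P) (hsp : Split S a b loc P Q d A B f e) {w : L → L}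
    (hw : Adm A B a b f w) (t : ℕ) : Mat (Kt S I a b t) (At A a b t) w where
  inv := Kt_invol hS hI h.aS h.bI h.ab t
  loose z hz := by
    obtain ⟨_, h1, h2⟩ := hz
    unfold Kt
    rw [if_neg (by omega), if_pos h2]
  loose' z hz := by
    obtain ⟨hA, h1, h2⟩ := hz
    have ha := hw.a z hA
    have hb := hw.b z hA
    unfold Kt
    rw [if_neg (by omega), if_pos (by omega)]
  inj z hz z' hz' heq := hw.bij.injOn (by exact hz.1) (by exact hz'.1) heq
  disj z hz hz' := hsp.disj _ hz'.1 (hw.bij.mapsTo (by exact hz.1))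

lemma Mat.gw_rigid {K : L → L} {A : Set L} {w : L → L} (h : Mat K A w) {z : L} (hz : K z ≠ z) :
    gw K A w z = K z := by
  apply gw_K
  · intro hA
    exact hz (h.loose z hA)
  · rintro c hc rfl
    exact hz (h.loose' c hc)

/-- the completion exists -/
theorem cpl_Xt [Fintype L] {E S I : L → L} {Q d : ℕ} {a b : L → ℕ} {loc : Set ℕ} {P : L → Prop}
    {A B : Finset L} {f : L → Bool} {e : ℕ → ℕ} (hE : IsEl E) (hS : Involutive S)
    (hI : Involutive I) (h : Sched E S I Q a b loc P) (hsp : Split S a b loc P Q d A B f e)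
    {w : L → L} (hw : Adm A B a b f w) {t : ℕ} (ht : t ≤ Q) :
    Cpl E (Kt S I a b t) (Yt S I a b A t w) (Xt E S I a b A t w) := by
  have hm := Adm.mat hS hI h hsp hw t
  have hex : ∃ X, Cpl E (Kt S I a b t) (Yt S I a b A t w) X := by
    obtain ⟨X, Z, h1, h2, h3, h4, h5⟩ := exists_completion hE hm.inv (h.acyc t ht)
      (gw_inv hm) (fun z hz => hm.gw_rigid hz)
    exact ⟨X, h1, h2, Z, h3, h4, h5⟩
  unfold Xt cpl
  rw [dif_pos hex]
  exact hex.choose_spec

/-- few labels are not matched -/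
theorem card_fix_Yt [Fintype L] {E S I : L → L} {Q d : ℕ} {a b : L → ℕ} {loc : Set ℕ}
    {P : L → Prop} {A B : Finset L} {f : L → Bool} {e : ℕ → ℕ} (hS : Involutive S)
    (hI : Involutive I) (hItop : ∃! x, I x = x) (h : Sched E S I Q a b loc P)
    (hsp : Split S a b loc P Q d A B f e) {w : L → L} (hw : Adm A B a b f w) (t : ℕ) :
    Nat.card {z // Yt S I a b A t w z = z} ≤ (Q + 2) ^ 2 + 1 := by
  classical
  have hm := Adm.mat hS hI h hsp hw t
  obtain ⟨i0, hi0, hi0'⟩ := hItop
  have hsub : (univ.filter fun z => Yt S I a b A t w z = z) ⊆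
      (univ.filter fun x => a x < b x ∧ x ∉ A ∧ x ∉ B) ∪ {i0} := by
    intro z hz
    have hz' := (mem_filter.1 hz).2
    have hzA : z ∉ At A a b t := by
      intro hzA
      unfold Yt at hz'
      rw [gw_A hzA] at hz'
      exact hm.disj z hzA (by rw [hz']; exact hzA)
    have hzB : ∀ c ∈ At A a b t, w c ≠ z := by
      rintro c hc rfl
      unfold Yt at hz'
      rw [gw_B hm hc] at hz'
      exact hm.disj c hc (by rw [← hz']; exact hc)
    have hK : Kt S I a b t z = z := by
      unfold Yt at hz'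
      rwa [gw_K hzA hzB] at hz'
    unfold Kt at hK
    rw [mem_union, mem_filter, mem_singleton]
    by_cases h1 : t < a z
    · rw [if_pos h1] at hK
      have := h.topS z hK
      omega
    rw [if_neg h1] at hK
    by_cases h2 : t < b z
    · left
      refine ⟨mem_univ _, by omega, fun h3 => hzA ⟨h3, by omega, h2⟩, fun h3 => ?_⟩
      obtain ⟨c, hc, hcz⟩ := hw.bij.surjOn h3
      have hc' : c ∈ A := by exact_mod_cast hc
      have ha := hw.a c hc'
      have hb := hw.b c hc'
      rw [hcz] at ha hb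
      exact hzB c ⟨hc', by omega, by omega⟩ hcz
    · rw [if_neg h2] at hK
      right
      exact hi0' z hK
  have h1 := card_le_card hsub
  have h2 := card_union_le (univ.filter fun x => a x < b x ∧ x ∉ A ∧ x ∉ B) {i0}
  have h3 := hsp.left
  rw [card_singleton] at h2
  have h4 : Nat.card {z // Yt S I a b A t w z = z} =
      (univ.filter fun z => Yt S I a b A t w z = z).card := by
    rw [Nat.card_eq_fintype_card, Fintype.card_subtype]
  rw [h4]
  have h5 : (univ.filter fun x => a x < b x ∧ x ∉ A ∧ x ∉ B).card ≤ (Q + 2) ^ 2 := by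
    convert h3
  omega

/-- few circles: `Xt` is nearly `Yt` -/
theorem chg_Xt_le [Fintype L] {E S I : L → L} {Q d : ℕ} {a b : L → ℕ} {loc : Set ℕ}
    {P : L → Prop} {A B : Finset L} {f : L → Bool} {e : ℕ → ℕ} (hE : IsEl E) (hS : Involutive S)
    (hI : Involutive I) (hItop : ∃! x, I x = x) (h : Sched E S I Q a b loc P)
    (hsp : Split S a b loc P Q d A B f e) {w : L → L} (hw : Adm A B a b f w) {t : ℕ} (ht : t ≤ Q)
    {k : ℕ} (hk : ¬ Circles E S I a b A t (k + 1) w) :
    chg (Xt E S I a b A t w) (Yt S I a b A t w) ≤ 3 * k + (Q + 2) ^ 2 + 1 := by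
  classical
  have hm := Adm.mat hS hI h hsp hw t
  obtain ⟨-, -, Z, hZ1, hZ2, hZ3⟩ := cpl_Xt hE hS hI h hsp hw ht
  have hfix := card_fix_Yt hS hI hItop h hsp hw t
  have hZk : Z.card ≤ k := by
    by_contra hcon
    push Not at hcon
    obtain ⟨Z0, hZ0, hZ0c⟩ := Finset.exists_subset_card_eq (show k + 1 ≤ Z.card by omega)
    -- move the labels to `At`
    have hmv : ∀ z ∈ Z, ∃ z' ∈ At A a b t, EqC E (Yt S I a b A t w) z z' := by
      intro z hz
      obtain ⟨h1, h2⟩ := hZ1 z hz
      have h3 := (h2 z (EqC.refl z)).2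
      by_cases hzA : z ∈ At A a b t
      · exact ⟨z, hzA, EqC.refl z⟩
      by_cases hzB : ∃ c ∈ At A a b t, w c = z
      · obtain ⟨c, hc, hcz⟩ := hzB
        refine ⟨c, hc, ?_⟩
        have h4 := eqC_Y E (Yt S I a b A t w) z
        have h5 : Yt S I a b A t w z = c := by
          unfold Yt
          rw [← hcz]
          exact gw_B hm hc
        rwa [h5] at h4
      · exfalso
        apply h3
        unfold Yt
        rw [gw_K hzA (fun c hc hcz => hzB ⟨c, hc, hcz⟩), h1]
    choose! g hg1 hg2 using hmv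
    have hinj : Set.InjOn g (Z0 : Set L) := by
      intro z hz z' hz' heq
      have hz1 := hZ0 hz
      have hz1' := hZ0 hz'
      refine hZ2 z hz1 z' hz1' ?_
      have h1 := hg2 z hz1
      rw [heq] at h1
      exact h1.trans (hg2 z' hz1').symm
    apply hk
    refine ⟨Z0.image g, ?_, ?_, ?_⟩
    · rw [Finset.card_image_of_injOn hinj, hZ0c]
    · intro y hy
      obtain ⟨z, hz, rfl⟩ := mem_image.1 hy
      have hz1 := hZ0 hz
      refine ⟨hg1 z hz1, fun y hy => ?_⟩
      exact (hZ1 z hz1).2 y ((hg2 z hz1).trans hy)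
    · intro y hy y' hy' heq
      obtain ⟨z, hz, rfl⟩ := mem_image.1 hy
      obtain ⟨z', hz', rfl⟩ := mem_image.1 hy'
      have hz1 := hZ0 hz
      have hz1' := hZ0 hz'
      have := hZ2 z hz1 z' hz1' (((hg2 z hz1).trans heq).trans (hg2 z' hz1').symm)
      rw [this]
  omega

end BP2
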