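import Pool.Agent.BP2.M5.CircB
import Pool.Agent.BP2.MCode
import Pool.Agent.BP2.MOmega

set_option autoImplicit false

/-!
# M5: coding lemma for maps `L → L` which are the identity outside `A`; number of the admissible maps
-/

namespace BP2

open Finset Function

variable {L : Type*}

open Classical in
/-- The coding lemma for maps which are the identity outside `A`. -/
theorem card_le_of_codeL [Fintype L] {X : Type*} (A : Finset L) (T : Finset (L → L))
    (hid : ∀ w ∈ T, ∀ x, x ∉ A → w x = x) (Cs : Finset X) (c : (L → L) → X)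
    (hc : ∀ w ∈ T, c w ∈ Cs) (D : (L → L) → Finset L) (d : ℕ) (hD : ∀ w ∈ T, D w ⊆ A)
    (hd : ∀ w ∈ T, d ≤ (D w).card)
    (h : ∀ w ∈ T, ∀ w' ∈ T, c w = c w' → D w = D w' → (∀ x ∈ A, x ∉ D w → w x = w' x) →
      ∀ x ∈ A, w x = w' x) :
    T.card ≤ Cs.card * 2 ^ A.card * Fintype.card L ^ (A.card - d) := by
  classical
  have key : ∀ (x : X) (Z : Finset L), Z ∈ A.powerset →
      (T.filter (fun w => c w = x ∧ D w = Z)).card ≤ Fintype.card L ^ (A.card - d) := by
    intro x Z hZA
    rw [mem_powerset] at hZA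
    by_cases hne : (T.filter (fun w => c w = x ∧ D w = Z)).Nonempty
    · obtain ⟨w₀, hw₀⟩ := hne
      rw [mem_filter] at hw₀
      have hZ : d ≤ Z.card := by rw [← hw₀.2.2]; exact hd w₀ hw₀.1
      have h1 : (T.filter (fun w => c w = x ∧ D w = Z)).card ≤
          (univ : Finset ({a // a ∈ A \ Z} → L)).card := by
        refine Finset.card_le_card_of_injOn (fun w a => w a.1) (fun _ _ => mem_univ _) ?_
        intro w hw w' hw' heq
        rw [mem_coe, mem_filter] at hw hw'
        have h3 := h w hw.1 w' hw'.1 (by rw [hw.2.1, hw'.2.1]) (by rw [hw.2.2, hw'.2.2]) (by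
          intro y hyA hyD
          rw [hw.2.2] at hyD
          exact congrFun heq ⟨y, mem_sdiff.2 ⟨hyA, hyD⟩⟩)
        funext y
        by_cases hy : y ∈ A
        · exact h3 y hy
        · rw [hid w hw.1 y hy, hid w' hw'.1 y hy]
      rw [card_univ, Fintype.card_fun, Fintype.card_coe, card_sdiff_of_subset hZA] at h1
      refine h1.trans ?_
      have hL : 0 < Fintype.card L ∨ A.card = 0 := by
        rcases Nat.eq_zero_or_pos (Fintype.card L) with h4 | h4
        · right
          have h5 := card_le_univ A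
          omega
        · exact Or.inl h4
      rcases hL with hL | hL
      · exact Nat.pow_le_pow_right hL (by omega)
      · rw [hL]
        simp
    · rw [not_nonempty_iff_eq_empty] at hne
      rw [hne, card_empty]
      exact Nat.zero_le _
  have h1 : T.card = ∑ p ∈ Cs ×ˢ A.powerset,
      (T.filter (fun w => c w = p.1 ∧ D w = p.2)).card := by
    have h2 := Finset.card_eq_sum_card_fiberwise (f := fun w => (c w, D w)) (s := T)
      (t := Cs ×ˢ A.powerset) (fun w hw => by
        rw [mem_coe, mem_product]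
        exact ⟨hc w hw, mem_powerset.2 (hD w hw)⟩)
    rw [h2]
    refine Finset.sum_congr rfl fun p _ => ?_
    congr 1
    ext w
    simp only [mem_filter, Prod.ext_iff]
  rw [h1]
  calc ∑ p ∈ Cs ×ˢ A.powerset, (T.filter (fun w => c w = p.1 ∧ D w = p.2)).card
      ≤ ∑ _p ∈ Cs ×ˢ A.powerset, Fintype.card L ^ (A.card - d) :=
        Finset.sum_le_sum fun p hp => key p.1 p.2 (mem_product.1 hp).2
    _ = _ := by
        rw [Finset.sum_const, card_product, card_powerset, smul_eq_mul]

/-- `N ^ j ≤ 3 ^ N j!` -/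
lemma pow_le_three_factorial (N j : ℕ) : N ^ j ≤ 3 ^ N * j.factorial := by
  have h1 : (N : ℝ) ^ j / j.factorial ≤ Real.exp N := Real.pow_div_factorial_le_exp _
    (Nat.cast_nonneg N) j
  have h2 : Real.exp N ≤ 3 ^ N := by
    have h3 : Real.exp (N : ℝ) = Real.exp 1 ^ N := by
      rw [← Real.exp_nat_mul, mul_one]
    rw [h3]
    exact pow_le_pow_left₀ (Real.exp_pos 1).le (by linarith [Real.exp_one_lt_d9]) N
  have h4 : (0 : ℝ) < j.factorial := by exact_mod_cast j.factorial_pos
  have h5 : (N : ℝ) ^ j ≤ 3 ^ N * j.factorial := by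
    rw [div_le_iff₀ h4] at h1
    exact h1.trans (mul_le_mul_of_nonneg_right h2 h4.le)
  exact_mod_cast h5

/-- the number of the admissible maps is at least `#A ! / (2 (Q + 2) ^ 2) ^ #A` -/
theorem factorial_le_card_Ws [Fintype L] {S : L → L} {Q d : ℕ} {a b : L → ℕ} {loc : Set ℕ}
    {P : L → Prop} {A B : Finset L} {f : L → Bool} {e : ℕ → ℕ}
    (hsp : Split S a b loc P Q d A B f e) (hb : ∀ x, b x ≤ Q + 1) :
    A.card.factorial ≤ (2 * (Q + 2) ^ 2) ^ A.card * (Ws A B a b f).card := by
  classical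
  -- `a'` is `a` on `A` and `B`, and `≤ b` everywhere
  set a' : L → ℕ := fun x => min (a x) (b x) with ha'
  have hA : ∀ x ∈ A, a' x = a x := fun x hx => min_eq_left (hsp.looseA x hx).le
  have hB : ∀ x ∈ B, a' x = a x := fun x hx => min_eq_left (hsp.looseB x hx).le
  have hab : ∀ x, a' x ≤ b x := fun x => min_le_right _ _
  have hcl : ∀ c : Fin (Q + 2) × Fin (Q + 2) × Bool,
      Nat.card {x : {x // x ∈ A} // clsF Q a' b f x = c} =
        Nat.card {x : {x // x ∈ B} // clsF Q a' b f x = c} := by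
    rintro ⟨⟨i, hi⟩, ⟨j, hj⟩, c⟩
    have key : ∀ D : Finset L, Nat.card {x : {x // x ∈ D} // clsF Q a' b f x =
        (⟨i, hi⟩, ⟨j, hj⟩, c)} = (D.filter fun x => a' x = i ∧ b x = j ∧ f x = c).card := by
      intro D
      rw [Nat.card_eq_fintype_card, ← Fintype.card_coe]
      refine Fintype.card_congr ⟨fun x => ⟨x.1.1, ?_⟩, fun x => ⟨⟨x.1, ?_⟩, ?_⟩, ?_, ?_⟩
      · rw [mem_filter]
        exact ⟨x.1.2, (clsF_eq hab hb hi hj).1 x.2⟩
      · exact (mem_filter.1 x.2).1
      · exact (clsF_eq hab hb hi hj).2 (mem_filter.1 x.2).2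
      · intro x
        rfl
      · intro x
        rfl
    rw [key A, key B]
    have h1 : (A.filter fun x => a' x = i ∧ b x = j ∧ f x = c) =
        A.filter fun x => a x = i ∧ b x = j ∧ f x = c :=
      filter_congr fun x hx => by rw [hA x hx]
    have h2 : (B.filter fun x => a' x = i ∧ b x = j ∧ f x = c) =
        B.filter fun x => a x = i ∧ b x = j ∧ f x = c :=
      filter_congr fun x hx => by rw [hB x hx]
    rw [h1, h2]
    exact hsp.cls i j c
  have h1 := factorial_le_card_Om (fun x : {x // x ∈ A} => clsF Q a' b f x)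
    (fun x : {x // x ∈ B} => clsF Q a' b f x) hcl
  rw [Fintype.card_coe] at h1
  have h2 : Fintype.card (Fin (Q + 2) × Fin (Q + 2) × Bool) = 2 * (Q + 2) ^ 2 := by
    simp only [Fintype.card_prod, Fintype.card_fin, Fintype.card_bool]
    ring
  rw [h2] at h1
  refine h1.trans (Nat.mul_le_mul_left _ ?_)
  apply Finset.card_le_card_of_injOn (extW A B)
  · intro v hv
    rw [mem_coe, mem_Om] at hv
    rw [mem_coe, mem_Ws]
    have h3 := adm_extW hab hb hv.1 hv.2
    refine ⟨h3.id, h3.bij, fun x hx => ?_, h3.b, h3.f⟩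
    rw [← hA x hx, ← h3.a x hx]
    have h4 : extW A B v x ∈ B := by exact_mod_cast h3.bij.mapsTo (by exact_mod_cast hx)
    exact (hB _ h4).symm
  · exact extW_inj.injOn

/-- the number of the admissible maps, in terms of `N = #L` -/
theorem card_Ws [Fintype L] {S : L → L} {Q d : ℕ} {a b : L → ℕ} {loc : Set ℕ}
    {P : L → Prop} {A B : Finset L} {f : L → Bool} {e : ℕ → ℕ}
    (hsp : Split S a b loc P Q d A B f e) (hb : ∀ x, b x ≤ Q + 1) :
    Fintype.card L ^ A.card ≤
      3 ^ Fintype.card L * (2 * (Q + 2) ^ 2) ^ A.card * (Ws A B a b f).card := by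
  calc Fintype.card L ^ A.card ≤ 3 ^ Fintype.card L * A.card.factorial :=
        pow_le_three_factorial _ _
    _ ≤ 3 ^ Fintype.card L * ((2 * (Q + 2) ^ 2) ^ A.card * (Ws A B a b f).card) :=
        Nat.mul_le_mul_left _ (factorial_le_card_Ws hsp hb)
    _ = _ := by ring

/-- there is an admissible map -/
theorem card_Ws_pos [Fintype L] {S : L → L} {Q d : ℕ} {a b : L → ℕ} {loc : Set ℕ}
    {P : L → Prop} {A B : Finset L} {f : L → Bool} {e : ℕ → ℕ}
    (hsp : Split S a b loc P Q d A B f e) (hb : ∀ x, b x ≤ Q + 1) :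
    0 < (Ws A B a b f).card := by
  by_contra h
  have h1 := factorial_le_card_Ws hsp hb
  have h2 : (Ws A B a b f).card = 0 := by omega
  rw [h2, mul_zero] at h1
  exact absurd A.card.factorial_pos (by omega)

end BP2
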