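import Pool.Agent.BP2.MHyp

set_option autoImplicit false

/-!
# M5: the random matching, definitions

* `A`, `B` : two disjoint sets of loose labels with the same classes (`Split`), the class of `x` is
  `(a x, b x, f x)`; few loose labels are in neither;
* `Adm A B a b f w` : `w` maps `A` to `B`, bijectively, class preserving, and is the identity
  outside `A`; `Ws` = the set of these `w`;
* `Yt ... t w` = the rigid adjacencies at time `t` together with the pairs `x, w x` which are alive
  (`a x ≤ t < b x`); `Xt ... t w` = an arrangement which contains the rigid adjacencies and is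
  nearly `Yt ... t w` (few changes if there are few circles).
-/

namespace BP2

open Finset Function

variable {L : Type*}

/-- weak form of `TrivHyp` -/
def TrivHyp2 : Prop :=
  ∀ (L : Type) [Fintype L] (E X Y : L → L), IsEl E → IsArr E X → IsArr E Y →
    ∃ k ≤ 2 * chg X Y, Reach E k X Y

/-- the admissible maps -/
structure Adm (A B : Finset L) (a b : L → ℕ) (f : L → Bool) (w : L → L) : Prop where
  id : ∀ x, x ∉ A → w x = x
  bij : Set.BijOn w (A : Set L) (B : Set L)
  a : ∀ x ∈ A, a (w x) = a x
  b : ∀ x ∈ A, b (w x) = b x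
  f : ∀ x ∈ A, f (w x) = f x

open Classical in
/-- the set of the admissible maps -/
noncomputable def Ws [Fintype L] (A B : Finset L) (a b : L → ℕ) (f : L → Bool) :
    Finset (L → L) := univ.filter fun w => Adm A B a b f w

lemma mem_Ws [Fintype L] {A B : Finset L} {a b : L → ℕ} {f : L → Bool} {w : L → L} :
    w ∈ Ws A B a b f ↔ Adm A B a b f w := by
  classical
  unfold Ws
  simp

/-- the out-labels of the local transition `t` -/
def OutS (S : L → L) (b : L → ℕ) (P : L → Prop) (t : ℕ) : Set L :=
  {z | b (S z) = t + 1 ∧ P (S z)}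

/-- the in-labels of the local transition `t` -/
def InS (S : L → L) (b : L → ℕ) (P : L → Prop) (t : ℕ) : Set L :=
  {z | b (S z) = t + 1 ∧ ¬ P (S z)}

open Classical in
/-- the two sets `A`, `B` of loose labels. `f x = true` : at a local transition, `x` in `A` is an
out-label and `x` in `B` an in-label; `e t` = number of the out-labels of the transition `t` which
are not in `A` with `f x = true`. -/
structure Split [Fintype L] (S : L → L) (a b : L → ℕ) (loc : Set ℕ) (P : L → Prop) (Q d : ℕ)
    (A B : Finset L) (f : L → Bool) (e : ℕ → ℕ) : Prop where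
  disj : ∀ x ∈ A, x ∉ B
  looseA : ∀ x ∈ A, a x < b x
  looseB : ∀ x ∈ B, a x < b x
  cls : ∀ i j c, (A.filter fun x => a x = i ∧ b x = j ∧ f x = c).card =
    (B.filter fun x => a x = i ∧ b x = j ∧ f x = c).card
  left : (univ.filter fun x => a x < b x ∧ x ∉ A ∧ x ∉ B).card ≤ (Q + 2) ^ 2
  out : ∀ t < Q, t ∈ loc → ∀ x ∈ A, a x = t + 1 → f x = true → x ∈ OutS S b P t
  inn : ∀ t < Q, t ∈ loc → ∀ x ∈ B, a x = t + 1 → f x = true → x ∈ InS S b P t
  few : ∀ t < Q, t ∈ loc →
    (OutS S b P t).ncard = (A.filter fun x => a x = t + 1 ∧ f x = true).card + e t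
  sum : ∑ t ∈ (range Q).filter (fun t => t ∈ loc), 2 * e t ≤ d

/-- the labels of `A` which are alive at time `t` -/
def At (A : Finset L) (a b : L → ℕ) (t : ℕ) : Set L := {x | x ∈ A ∧ a x ≤ t ∧ t < b x}

/-- rigid adjacencies and matched pairs at time `t` -/
noncomputable def Yt (S I : L → L) (a b : L → ℕ) (A : Finset L) (t : ℕ) (w : L → L) : L → L :=
  gw (Kt S I a b t) (At A a b t) w

/-- `X` is an arrangement which contains `K` and is nearly `Y` -/
def Cpl [Fintype L] (E K Y X : L → L) : Prop :=
  IsArr E X ∧ (∀ z, K z ≠ z → X z = K z) ∧ ∃ Z : Finset L,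
    (∀ z ∈ Z, K z = z ∧ Circ E Y z) ∧ (∀ z ∈ Z, ∀ z' ∈ Z, EqC E Y z z' → z = z') ∧
      chg X Y ≤ 3 * Z.card + Nat.card {z // Y z = z}

open Classical in
/-- the completion -/
noncomputable def cpl [Fintype L] (E K Y : L → L) : L → L :=
  if h : ∃ X, Cpl E K Y X then h.choose else Y

/-- the arrangement at time `t` -/
noncomputable def Xt [Fintype L] (E S I : L → L) (a b : L → ℕ) (A : Finset L) (t : ℕ)
    (w : L → L) : L → L :=
  cpl E (Kt S I a b t) (Yt S I a b A t w)

/-- there are (at least) `k` circles at time `t` -/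
def Circles (E S I : L → L) (a b : L → ℕ) (A : Finset L) (t k : ℕ) (w : L → L) : Prop :=
  ∃ Z : Finset L, Z.card = k ∧ (∀ z ∈ Z, z ∈ At A a b t ∧ Circ E (Yt S I a b A t w) z) ∧
    ∀ z ∈ Z, ∀ z' ∈ Z, EqC E (Yt S I a b A t w) z z' → z = z'

end BP2
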