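import Pool.Agent.BP2.M5.Sum
import Pool.Agent.BP2.M5.Comp
import Pool.Agent.BP2.M.List

set_option autoImplicit false

/-!
# M5: the sum of the costs

`sum_costs` : if all transitions `Xt t w -> Xt (t+1) w` are cheap and there are few circles, then
`2 m k ≤ 3 m n + (27 + 80 Q) n + 26 m d + C` flips lead from `S` to `I`.
-/

namespace BP2

open Finset Function

variable {L : Type*}

/-- composition of the transitions -/
theorem reach_sum {E : L → L} {X : ℕ → L → L} {M : ℕ} {c : ℕ → ℕ} (Q : ℕ)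
    (h : ∀ t < Q, ∃ k, Reach E k (X t) (X (t + 1)) ∧ M * k ≤ c t) :
    ∃ k, Reach E k (X 0) (X Q) ∧ M * k ≤ ∑ t ∈ range Q, c t := by
  induction Q with
  | zero => exact ⟨0, Reach.refl _, by simp⟩
  | succ Q ih =>
    obtain ⟨k, hk, hk'⟩ := ih fun t ht => h t (by omega)
    obtain ⟨l, hl, hl'⟩ := h Q (by omega)
    refine ⟨k + l, hk.trans hl, ?_⟩
    rw [sum_range_succ, mul_add]
    omega

/-- the abstract sum -/
theorem sum_core (hT : TrivHyp2) {L : Type} [Fintype L] {E S I : L → L} {m n Q d C C1 : ℕ}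
    (hm : 0 < m) (hE : IsEl E) (hS : IsArr E S) (hI : IsArr E I) {X Y : ℕ → L → L}
    {N e : ℕ → ℕ} (hX : ∀ t ≤ Q, IsArr E (X t)) (h0 : chg S (Y 0) ≤ d) (hQ : chg (Y Q) I ≤ d)
    (hY : ∀ t < Q, chg (Y t) (Y (t + 1)) ≤ N t)
    (hN : ∑ t ∈ range Q, N t ≤ 3 * n + d + 1) (he : ∑ t ∈ range Q, 2 * e t ≤ d)
    (hXY : ∀ t ≤ Q, m * chg (X t) (Y t) ≤ 3 * n + C1)
    (hstep : ∀ t < Q,
      (∃ k, Reach E k (X t) (X (t + 1)) ∧
        2 * m * k ≤ (m + 1) * chg (X t) (X (t + 1)) + 40 * n + C) ∨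
      (∃ k, Reach E k (X t) (X (t + 1)) ∧
        2 * m * k ≤ (m + 1) * N t + 32 * m * e t + 80 * n + 2 * C)) :
    ∃ k, Reach E k S I ∧ 2 * m * k ≤ 3 * m * n + (27 + 80 * Q) * n + 26 * m * d +
      (m + 1 + Q * (4 * C1 + 2 * C) + 8 * C1) := by
  have hs : ∀ t < Q, ∃ k, Reach E k (X t) (X (t + 1)) ∧
      2 * m * k ≤ (m + 1) * N t + 16 * m * (2 * e t) + (80 * n + (4 * C1 + 2 * C)) := by
    intro t ht
    rcases hstep t ht with ⟨k, h1, h2⟩ | ⟨k, h1, h2⟩
    · refine ⟨k, h1, ?_⟩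
      have h3 : chg (X t) (X (t + 1)) ≤ chg (X t) (Y t) + N t + chg (X (t + 1)) (Y (t + 1)) := by
        have a1 := chg_tri (X t) (Y t) (X (t + 1))
        have a2 := chg_tri (Y t) (Y (t + 1)) (X (t + 1))
        have a3 := hY t ht
        rw [chg_comm (Y (t + 1))] at a2
        omega
      have h4 := hXY t (by omega)
      have h5 := hXY (t + 1) (by omega)
      have h6 : (m + 1) * chg (X t) (X (t + 1)) ≤
          (m + 1) * N t + 2 * (m * chg (X t) (Y t)) + 2 * (m * chg (X (t + 1)) (Y (t + 1))) := by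
        refine (Nat.mul_le_mul_left (m + 1) h3).trans ?_
        nlinarith [Nat.zero_le (chg (X t) (Y t)), Nat.zero_le (chg (X (t + 1)) (Y (t + 1))),
          Nat.mul_le_mul_right (chg (X t) (Y t)) hm,
          Nat.mul_le_mul_right (chg (X (t + 1)) (Y (t + 1))) hm]
      omega
    · refine ⟨k, h1, ?_⟩
      have : 32 * m * e t = 16 * m * (2 * e t) := by ring
      omega
  obtain ⟨k, hk, hk'⟩ := reach_sum Q hs
  obtain ⟨k0, h0k, h0r⟩ := hT L E S (X 0) hE hS (hX 0 (by omega))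
  obtain ⟨k1, h1k, h1r⟩ := hT L E (X Q) I hE (hX Q le_rfl) hI
  refine ⟨k0 + k + k1, (h0r.trans hk).trans h1r, ?_⟩
  have b0 := chg_tri S (Y 0) (X 0)
  rw [chg_comm (Y 0)] at b0
  have b1 := chg_tri (X Q) (Y Q) I
  have b2 := hXY 0 (by omega)
  have b3 := hXY Q le_rfl
  have b4 : m * k0 ≤ 2 * m * d + 2 * (3 * n + C1) := by
    have : k0 ≤ 2 * d + 2 * chg (X 0) (Y 0) := by omega
    have := Nat.mul_le_mul_left m this
    nlinarith
  have b5 : m * k1 ≤ 2 * m * d + 2 * (3 * n + C1) := by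
    have : k1 ≤ 2 * d + 2 * chg (X Q) (Y Q) := by omega
    have := Nat.mul_le_mul_left m this
    nlinarith
  rw [sum_add_distrib, sum_add_distrib, ← mul_sum, ← mul_sum, sum_const, card_range,
    smul_eq_mul] at hk'
  have b6 := Nat.mul_le_mul_left (m + 1) hN
  have b7 := Nat.mul_le_mul_left (16 * m) he
  have b8 : d ≤ m * d := Nat.le_mul_of_pos_left d hm
  have e1 : 2 * m * (k0 + k + k1) = 2 * (m * k0) + 2 * m * k + 2 * (m * k1) := by ring
  have e2 : (m + 1) * (3 * n + d + 1) = 3 * m * n + 3 * n + m * d + d + m + 1 := by ring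
  have e3 : Q * (80 * n + (4 * C1 + 2 * C)) = 80 * Q * n + Q * (4 * C1 + 2 * C) := by ring
  have e4 : (27 + 80 * Q) * n = 27 * n + 80 * Q * n := by ring
  have e5 : 26 * m * d = 26 * (m * d) := by ring
  have e6 : 16 * m * d = 16 * (m * d) := by ring
  have e7 : 2 * m * d = 2 * (m * d) := by ring
  rw [e1, e4, e5]
  rw [e2] at b6
  rw [e3] at hk'
  rw [e6] at b7
  rw [e7] at b4 b5
  omega

/-- **The sum of the costs.** -/
theorem sum_costs (hT : TrivHyp2) {L : Type} [Fintype L] {E S I : L → L} {m n Q d C C0 k0 : ℕ}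
    (hm : 0 < m) (hE : IsEl E) (hS : IsArr E S)
    (hI : IsArr E I) {a b : L → ℕ} {loc : Set ℕ} {P : L → Prop} (h : Sched E S I Q a b loc P)
    (hg : Good S I n Q a b loc P d) {A B : Finset L} {f : L → Bool} {e : ℕ → ℕ}
    (hsp : Split S a b loc P Q d A B f e) {w : L → L} (hw : Adm A B a b f w)
    (hcard : Fintype.card L = 2 * n + 1) (hk0 : m * k0 ≤ n + C0)
    (hcirc : ∀ t ≤ Q, ¬ Circles E S I a b A t k0 w)
    (hfar : ∀ t < Q, t ∉ loc → ∃ k, Reach E k (Xt E S I a b A t w) (Xt E S I a b A (t + 1) w) ∧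
      2 * m * k ≤ (m + 1) * chg (Xt E S I a b A t w) (Xt E S I a b A (t + 1) w) + 40 * n + C)
    (hloc : ∀ t < Q, t ∈ loc → ∃ k, Reach E k (Xt E S I a b A t w) (Xt E S I a b A (t + 1) w) ∧
      m * k ≤ 2 * (m + 1) * (OutS S b P t).ncard + 16 * m * e t + 40 * n + C) :
    ∃ k, Reach E k S I ∧ 2 * m * k ≤ 3 * m * n + (27 + 80 * Q) * n + 26 * m * d +
      (m + 1 + Q * (4 * (3 * C0 + m * ((Q + 2) ^ 2 + 1)) + 2 * C) +
        8 * (3 * C0 + m * ((Q + 2) ^ 2 + 1))) := by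
  classical
  have hk0' : k0 ≠ 0 := by
    rintro rfl
    exact hcirc 0 (Nat.zero_le _) ⟨∅, rfl, by simp, by simp⟩
  obtain ⟨k1, rfl⟩ := Nat.exists_eq_succ_of_ne_zero hk0'
  refine sum_core hT (X := fun t => Xt E S I a b A t w) (Y := fun t => Yt S I a b A t w)
    (N := fun t => Nt a b t) (e := fun t => if t ∈ loc then e t else 0) hm hE hS hI ?_ ?_ ?_ ?_
    ?_ ?_ ?_ ?_
  · intro t ht
    exact (cpl_Xt hE hS.invol hI.invol h hsp hw ht).1
  · exact (chg_Yt_zero hw h.triv).trans hg.start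
  · exact (chg_Yt_last hw h.ab Q).trans hg.fin
  · intro t _
    exact chg_Yt_succ hw t
  · have h1 := sum_Nt_le a b Q h.ab
    have h2 := hg.loose
    omega
  · have h1 := hsp.sum
    rw [Finset.sum_filter] at h1
    refine le_trans (le_of_eq (sum_congr rfl fun t _ => ?_)) h1
    by_cases hl : t ∈ loc
    · rw [if_pos hl, if_pos hl]
    · rw [if_neg hl, if_neg hl, mul_zero]
  · intro t ht
    have h1 := chg_Xt_le hE hS.invol hI.invol hI.top h hsp hw ht (hcirc t ht)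
    have h2 := Nat.mul_le_mul_left m h1
    have h3 : m * (k1.succ) = m * k1 + m := Nat.mul_succ m k1
    rw [h3] at hk0
    have h4 : m * (3 * k1 + (Q + 2) ^ 2 + 1) = 3 * (m * k1) + m * ((Q + 2) ^ 2 + 1) := by ring
    rw [h4] at h2
    omega
  · intro t ht
    by_cases hl : t ∈ loc
    · right
      obtain ⟨k, hk, hk'⟩ := hloc t ht hl
      refine ⟨k, hk, ?_⟩
      have h1 := Nt_local h hS.invol hI.invol ht hl
      rw [if_pos hl, h1]
      have e1 : (m + 1) * (4 * (OutS S b P t).ncard) =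
          2 * (2 * (m + 1) * (OutS S b P t).ncard) := by ring
      have e2 : 32 * m * e t = 2 * (16 * m * e t) := by ring
      have e3 : 2 * m * k = 2 * (m * k) := by ring
      rw [e1, e2, e3]
      omega
    · left
      exact hfar t ht hl

/-- `w` is a good admissible map: few circles, all transitions are cheap -/
structure GoodW [Fintype L] (E S I : L → L) (a b : L → ℕ) (loc : Set ℕ) (P : L → Prop)
    (A B : Finset L) (f : L → Bool) (e : ℕ → ℕ) (m n Q C : ℕ) (w : L → L) : Prop where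
  adm : Adm A B a b f w
  circ : ∃ k0, m * k0 ≤ n + C ∧ ∀ t ≤ Q, ¬ Circles E S I a b A t k0 w
  far : ∀ t < Q, t ∉ loc → ∃ k, Reach E k (Xt E S I a b A t w) (Xt E S I a b A (t + 1) w) ∧
    2 * m * k ≤ (m + 1) * chg (Xt E S I a b A t w) (Xt E S I a b A (t + 1) w) + 40 * n + C
  loc : ∀ t < Q, t ∈ loc → ∃ k, Reach E k (Xt E S I a b A t w) (Xt E S I a b A (t + 1) w) ∧
    m * k ≤ 2 * (m + 1) * (OutS S b P t).ncard + 16 * m * e t + 40 * n + C

/-- the result of the union bound: for large `n` there is a good map -/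
def UnionHyp : Prop :=
  ∀ m Q : ℕ, 0 < m → ∃ C n0 : ℕ, ∀ (L : Type) [Fintype L] (E S I : L → L) (n : ℕ),
    Fintype.card L = 2 * n + 1 → n0 ≤ n → IsEl E → IsArr E S → IsArr E I →
    ∀ (a b : L → ℕ) (loc : Set ℕ) (P : L → Prop) (d : ℕ),
      Sched E S I Q a b loc P → Good S I n Q a b loc P d →
      ∀ (A B : Finset L) (f : L → Bool) (e : ℕ → ℕ), Split S a b loc P Q d A B f e →
      ∃ w, GoodW E S I a b loc P A B f e m n Q C w

/-- the result of the splitting -/
def SplitHyp : Prop :=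
  ∀ (L : Type) [Fintype L] (E S I : L → L) (n Q : ℕ),
    Fintype.card L = 2 * n + 1 → IsEl E → IsArr E S → IsArr E I →
    ∀ (a b : L → ℕ) (loc : Set ℕ) (P : L → Prop) (d : ℕ),
      Sched E S I Q a b loc P → Good S I n Q a b loc P d →
      ∃ (A B : Finset L) (f : L → Bool) (e : ℕ → ℕ), Split S a b loc P Q d A B f e

/-- **(M) from the union bound.** -/
theorem machine_of_union (hT : TrivHyp2) (hSp : SplitHyp) (hU : UnionHyp) : MachineTheorem := by
  refine ⟨26, fun m Q hm => ?_⟩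
  obtain ⟨C, n0, hC⟩ := hU (m * (27 + 80 * Q)) Q (by positivity)
  set M := m * (27 + 80 * Q) with hM
  have hM0 : 0 < M := by positivity
  set D := M + 1 + Q * (4 * (3 * C + M * ((Q + 2) ^ 2 + 1)) + 2 * C) +
        8 * (3 * C + M * ((Q + 2) ^ 2 + 1)) with hD
  refine ⟨D + 4 * m * (2 * n0 + 1), ?_⟩
  intro L _ E S I n hcard hE hS hI a b loc P d h hg
  by_cases hn : n0 ≤ n
  · obtain ⟨A, B, f, e, hsp⟩ := hSp L E S I n Q hcard hE hS hI a b loc P d h hg
    obtain ⟨w, hw⟩ := hC L E S I n hcard hn hE hS hI a b loc P d h hg A B f e hsp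
    obtain ⟨k0, hk0, hcirc⟩ := hw.circ
    obtain ⟨k, hk, hk'⟩ := sum_costs hT hM0 hE hS hI h hg hsp hw.adm hcard hk0 hcirc hw.far hw.loc
    refine ⟨k, hk, ?_⟩
    rw [← hD] at hk'
    have e1 : 2 * M * k = (27 + 80 * Q) * (2 * m * k) := by rw [hM]; ring
    have e2 : 3 * M * n + (27 + 80 * Q) * n + 26 * M * d =
        (27 + 80 * Q) * (3 * m * n + n + 26 * m * d) := by rw [hM]; ring
    rw [e1, e2] at hk'
    have e3 : 2 * m * k ≤ 3 * m * n + n + 26 * m * d + D := by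
      by_contra hcon
      push Not at hcon
      have h1 : (27 + 80 * Q) * (3 * m * n + n + 26 * m * d) + D <
          (27 + 80 * Q) * (2 * m * k) := by
        have h2 := Nat.mul_lt_mul_of_pos_left hcon (show 0 < 27 + 80 * Q by omega)
        have h3 : D ≤ (27 + 80 * Q) * D := Nat.le_mul_of_pos_left D (by omega)
        rw [Nat.mul_add (27 + 80 * Q) (3 * m * n + n + 26 * m * d) D] at h2
        omega
      omega
    omega
  · obtain ⟨k, hk, hk'⟩ := hT L E S I hE hS hI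
    refine ⟨k, hk', ?_⟩
    have h1 := chg_le S I
    rw [hcard] at h1
    have h2 : k ≤ 2 * (2 * n0 + 1) := by omega
    have h3 := Nat.mul_le_mul_left (2 * m) h2
    have h4 : 2 * m * (2 * (2 * n0 + 1)) = 4 * m * (2 * n0 + 1) := by ring
    rw [h4] at h3
    exact h3.trans ((Nat.le_add_left _ _).trans (Nat.le_add_left _ _))

end BP2
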