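import Pool.Agent.BP2.MHyp

set_option autoImplicit false

/-!
# M5: transport of arrangements and flips along a bijection of the labels
-/

namespace BP2

open Finset Function

variable {L M : Type*} {E X X' : L → L} {e y th : M → M}

lemma conj_involutive (p : L ≃ M) (hX : ∀ x, p (X x) = y (p x)) :
    Involutive X ↔ Involutive y := by
  constructor
  · intro h z
    obtain ⟨x, rfl⟩ := p.surjective z
    rw [← hX, ← hX, h]
  · intro h x
    apply p.injective
    rw [hX, hX, h]

lemma conj_cl (p : L ≃ M) (hE : ∀ x, p (E x) = e (p x)) (hX : ∀ x, p (X x) = y (p x))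
    {C : Set M} (hC : Cl e y C) : Cl E X (p ⁻¹' C) := by
  intro z hz
  rw [Set.mem_preimage] at hz
  rw [Set.mem_preimage, Set.mem_preimage, hE, hX]
  exact hC _ hz

lemma conj_conn (p : L ≃ M) (hE : ∀ x, p (E x) = e (p x)) (hX : ∀ x, p (X x) = y (p x))
    {x z : L} : Conn E X x z ↔ Conn e y (p x) (p z) := by
  constructor
  · intro h C hC hx
    exact h _ (conj_cl p hE hX hC) hx
  · intro h C hC hx
    have hE' : ∀ x, p.symm (e x) = E (p.symm x) := fun x => by
      apply p.injective
      rw [p.apply_symm_apply, hE, p.apply_symm_apply]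
    have hX' : ∀ x, p.symm (y x) = X (p.symm x) := fun x => by
      apply p.injective
      rw [p.apply_symm_apply, hX, p.apply_symm_apply]
    have h1 := h _ (conj_cl p.symm hE' hX' hC) (by rw [Set.mem_preimage, p.symm_apply_apply]; exact hx)
    rwa [Set.mem_preimage, p.symm_apply_apply] at h1

lemma conj_fix (p : L ≃ M) (hX : ∀ x, p (X x) = y (p x)) :
    (∃! x, X x = x) ↔ ∃! z, y z = z := by
  constructor
  · rintro ⟨x, hx, hu⟩
    refine ⟨p x, ?_, ?_⟩
    · simp only
      rw [← hX, hx]
    · intro z hz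
      obtain ⟨x', rfl⟩ := p.surjective z
      rw [← hX] at hz
      rw [hu x' (p.injective hz)]
  · rintro ⟨z, hz, hu⟩
    obtain ⟨x, rfl⟩ := p.surjective z
    refine ⟨x, ?_, ?_⟩
    · simp only at hz ⊢
      rw [← hX] at hz
      exact p.injective hz
    · intro x' hx'
      apply p.injective
      apply hu
      rw [← hX, hx']

/-- arrangements -/
theorem conj_isArr (p : L ≃ M) (hE : ∀ x, p (E x) = e (p x)) (hX : ∀ x, p (X x) = y (p x)) :
    IsArr E X ↔ IsArr e y := by
  constructor
  · intro h
    refine ⟨(conj_involutive p hX).1 h.invol, (conj_fix p hX).1 h.top, ?_⟩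
    intro z z'
    obtain ⟨x, rfl⟩ := p.surjective z
    obtain ⟨x', rfl⟩ := p.surjective z'
    exact (conj_conn p hE hX).1 (h.conn x x')
  · intro h
    refine ⟨(conj_involutive p hX).2 h.invol, (conj_fix p hX).2 h.top, ?_⟩
    intro x x'
    exact (conj_conn p hE hX).2 (h.conn _ _)

/-- one flip -/
theorem conj_fl (p : L ≃ M) (hE : ∀ x, p (E x) = e (p x)) (hX : ∀ x, p (X x) = y (p x))
    (hX' : ∀ x, p (X' x) = th (p x)) (h : Fl e y th) : Fl E X X' := by
  obtain ⟨h1, h2, t, u, l, h3, h4, h5, h6, h7, h8, h9⟩ := h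
  obtain ⟨t, rfl⟩ := p.surjective t
  obtain ⟨u, rfl⟩ := p.surjective u
  obtain ⟨l, rfl⟩ := p.surjective l
  refine ⟨(conj_isArr p hE hX).2 h1, (conj_isArr p hE hX').2 h2, t, u, l, ?_, ?_, ?_, ?_, ?_, ?_,
    ?_⟩
  · exact p.injective (by rw [hX, h3])
  · exact p.injective (by rw [hX, h4])
  · exact fun h => h5 (by rw [h])
  · exact p.injective (by rw [hX', h6])
  · exact p.injective (by rw [hX', h7])
  · exact p.injective (by rw [hX', h8])
  · intro x hxt hxu hxl
    apply p.injective
    rw [hX', hX]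
    exact h9 _ (fun h => hxt (p.injective h)) (fun h => hxu (p.injective h))
      (fun h => hxl (p.injective h))

/-- flips -/
theorem conj_reach (p : L ≃ M) (hE : ∀ x, p (E x) = e (p x)) (hX : ∀ x, p (X x) = y (p x))
    {k : ℕ} (h : Reach e k y th) : ∀ {X' : L → L}, (∀ x, p (X' x) = th (p x)) →
      Reach E k X X' := by
  induction h with
  | refl y =>
    intro X' hX'
    have : X' = X := by
      funext x
      apply p.injective
      rw [hX', hX]
    rw [this]
    exact Reach.refl X
  | @step k y z w _ hf ih =>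
    intro X' hX'
    set Z : L → L := fun x => p.symm (z (p x)) with hZ
    have hZ' : ∀ x, p (Z x) = z (p x) := fun x => by rw [hZ]; simp
    exact (ih hX hZ').step (conj_fl p hE hZ' hX' hf)

/-- the number of the changes -/
theorem conj_chg [Fintype L] [Fintype M] (p : L ≃ M) (hX : ∀ x, p (X x) = y (p x))
    (hX' : ∀ x, p (X' x) = th (p x)) : chg X X' = chg y th := by
  classical
  unfold chg
  refine Finset.card_bij (fun x _ => p x) ?_ ?_ ?_
  · intro x hx
    rw [mem_filter] at hx ⊢
    refine ⟨mem_univ _, fun h => hx.2 (p.injective ?_)⟩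
    rw [hX, hX', h]
  · intro x _ x' _ h
    exact p.injective h
  · intro z hz
    rw [mem_filter] at hz
    obtain ⟨x, rfl⟩ := p.surjective z
    refine ⟨x, ?_, rfl⟩
    rw [mem_filter]
    refine ⟨mem_univ _, fun h => hz.2 ?_⟩
    rw [← hX, ← hX', h]

end BP2
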