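import Pool.Agent.BP2.M5.Levels
import Pool.Agent.BP2.M5.Transp
import Pool.Agent.BP2.M5.SumB

set_option autoImplicit false

/-!
# M5 (5c): the number of the admissible maps with an expensive far transition
-/

namespace BP2

open Finset Function

open Classical in
/-- the maps with a given transition `θ` -/
theorem card_far_fiber {L : Type*} [Fintype L] {E S I : L → L} {N Q d : ℕ}
    {a b : L → ℕ} {loc : Set ℕ} {P : L → Prop} {A B : Finset L} {f : L → Bool} {e : ℕ → ℕ}
    (hE : IsEl E)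
    (hS : IsArr E S) (hI : IsArr E I) (hs : Sched E S I Q a b loc P)
    (hsp : Split S a b loc P Q d A B f e) {t : ℕ} (ht : t < Q) {r : ℕ}
    (hN : Fintype.card L = N) (e₀ y₀ θ : Fin N → Fin N)
    (T : Finset (L → L)) (p : (L → L) → L ≃ Fin N)
    (hT : ∀ w ∈ T, Adm A B a b f w)
    (h1 : ∀ w ∈ T, chg (Xt E S I a b A t w) (Yt S I a b A t w) ≤ r)
    (h2 : ∀ w ∈ T, chg (Xt E S I a b A (t + 1) w) (Yt S I a b A (t + 1) w) ≤ r)
    (hp1 : ∀ w ∈ T, ∀ x, p w (E x) = e₀ (p w x))
    (hp2 : ∀ w ∈ T, ∀ x, p w (Xt E S I a b A t w x) = y₀ (p w x))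
    (hp3 : ∀ w ∈ T, ∀ x, p w (Xt E S I a b A (t + 1) w x) = θ (p w x)) :
    T.card ≤ N ^ ncomp (gr3 E (Kt S I a b t) (Kt S I a b (t + 1))) * 2 ^ A.card *
      N ^ (A.card - ((A.filter fun x => (a x ≤ t ∧ t < b x) ∨
        (a x ≤ t + 1 ∧ t + 1 < b x)).card - 2 * r)) := by
  -- the code
  set c : (L → L) → (L → Fin N) × (L → L) := fun w => (p w, Xt E S I a b A (t + 1) w) with hc
  set D : (L → L) → Finset L := fun w => A.filter fun x =>
    (a x ≤ t ∧ t < b x ∧ Xt E S I a b A t w x = w x) ∨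
      (¬ (a x ≤ t ∧ t < b x) ∧ a x ≤ t + 1 ∧ t + 1 < b x ∧ Xt E S I a b A (t + 1) w x = w x)
    with hD
  have hcode := card_le_of_codeL A T (fun w hw => (hT w hw).id) (T.image c) c
    (fun w hw => mem_image_of_mem _ hw) D
    ((A.filter fun x => (a x ≤ t ∧ t < b x) ∨ (a x ≤ t + 1 ∧ t + 1 < b x)).card - 2 * r)
    (fun w _ => filter_subset _ _)
    (by
      intro w hw
      have hsub : (A.filter fun x => (a x ≤ t ∧ t < b x) ∨ (a x ≤ t + 1 ∧ t + 1 < b x)) ⊆
          D w ∪ ((univ.filter fun x => Xt E S I a b A t w x ≠ Yt S I a b A t w x) ∪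
            (univ.filter fun x => Xt E S I a b A (t + 1) w x ≠ Yt S I a b A (t + 1) w x)) := by
        intro x hx
        rw [mem_filter] at hx
        rw [mem_union, mem_union]
        by_cases c1 : a x ≤ t ∧ t < b x
        · have hY : Yt S I a b A t w x = w x := gw_A ⟨hx.1, c1.1, c1.2⟩
          by_cases c2 : Xt E S I a b A t w x = w x
          · left
            exact mem_filter.2 ⟨hx.1, Or.inl ⟨c1.1, c1.2, c2⟩⟩
          · right
            left
            exact mem_filter.2 ⟨mem_univ _, by rw [hY]; exact c2⟩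
        · have c3 : a x ≤ t + 1 ∧ t + 1 < b x := by
            rcases hx.2 with h | h
            · exact absurd h c1
            · exact h
          have hY : Yt S I a b A (t + 1) w x = w x := gw_A ⟨hx.1, c3.1, c3.2⟩
          by_cases c2 : Xt E S I a b A (t + 1) w x = w x
          · left
            exact mem_filter.2 ⟨hx.1, Or.inr ⟨c1, c3.1, c3.2, c2⟩⟩
          · right
            right
            exact mem_filter.2 ⟨mem_univ _, by rw [hY]; exact c2⟩
      have h3 := card_le_card hsub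
      have h4 := card_union_le (D w)
        ((univ.filter fun x => Xt E S I a b A t w x ≠ Yt S I a b A t w x) ∪
          (univ.filter fun x => Xt E S I a b A (t + 1) w x ≠ Yt S I a b A (t + 1) w x))
      have h5 := card_union_le (univ.filter fun x => Xt E S I a b A t w x ≠ Yt S I a b A t w x)
        (univ.filter fun x => Xt E S I a b A (t + 1) w x ≠ Yt S I a b A (t + 1) w x)
      have h6 := h1 w hw
      have h7 := h2 w hw
      unfold chg at h6 h7
      omega)
    (by
      intro w hw w' hw' hcc hDD hag x hx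
      by_cases hxD : x ∈ D w
      · have hxD' : x ∈ D w' := by rw [← hDD]; exact hxD
        have e1 : (p w : L → Fin N) = p w' := congrArg Prod.fst hcc
        have e2 : Xt E S I a b A (t + 1) w = Xt E S I a b A (t + 1) w' := congrArg Prod.snd hcc
        have e3 : Xt E S I a b A t w x = Xt E S I a b A t w' x := by
          apply (p w).injective
          rw [hp2 w hw, congrFun e1 x, congrFun e1 (Xt E S I a b A t w' x), hp2 w' hw']
        rw [hD] at hxD hxD'
        simp only [mem_filter] at hxD hxD'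
        by_cases c1 : a x ≤ t ∧ t < b x
        · rcases hxD.2 with h | h
          · rcases hxD'.2 with h' | h'
            · rw [← h.2.2, ← h'.2.2, e3]
            · exact absurd c1 h'.1
          · exact absurd c1 h.1
        · rcases hxD.2 with h | h
          · exact absurd ⟨h.1, h.2.1⟩ c1
          · rcases hxD'.2 with h' | h'
            · exact absurd ⟨h'.1, h'.2.1⟩ c1
            · rw [← h.2.2.2, ← h'.2.2.2, e2]
      · exact hag x hx hxD)
  have hlev := card_level_le (m := N) (E := E) (K := Kt S I a b t) (K' := Kt S I a b (t + 1))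
    hE.invol (Kt_invol hS.invol hI.invol hs.aS hs.bI hs.ab t)
    (Kt_invol hS.invol hI.invol hs.aS hs.bI hs.ab (t + 1)) e₀ y₀ θ (T.image c)
    (by
      intro s hsm
      obtain ⟨w, hw, rfl⟩ := mem_image.1 hsm
      exact (p w).injective)
    (by
      intro s hsm
      obtain ⟨w, hw, rfl⟩ := mem_image.1 hsm
      exact hp1 w hw)
    (by
      intro s hsm x hx
      obtain ⟨w, hw, rfl⟩ := mem_image.1 hsm
      have h3 := Xt_K (t := t) hE hS hI hs hsp (hT w hw) ht.le hx
      simp only [hc]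
      rw [← hp2 w hw, h3])
    (by
      intro s hsm x hx
      obtain ⟨w, hw, rfl⟩ := mem_image.1 hsm
      exact Xt_K (t := t + 1) hE hS hI hs hsp (hT w hw) ht hx)
    (by
      intro s hsm x
      obtain ⟨w, hw, rfl⟩ := mem_image.1 hsm
      exact hp3 w hw x)
  rw [hN] at hcode
  exact hcode.trans (Nat.mul_le_mul_right _ (Nat.mul_le_mul_right _ hlev))

open Classical in
/-- the exponents -/
theorem far_exp {L : Type*} [Fintype L] {E S I : L → L} {Q d : ℕ}
    {a b : L → ℕ} {loc : Set ℕ} {P : L → Prop} {A B : Finset L} {f : L → Bool} {e : ℕ → ℕ}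
    (hE : IsEl E)
    (hS : IsArr E S) (hI : IsArr E I) (hs : Sched E S I Q a b loc P)
    (hsp : Split S a b loc P Q d A B f e) {t : ℕ} (ht : t < Q) (htl : t ∉ loc) {r : ℕ}
    {w : L → L} (hw : Adm A B a b f w)
    (h1 : chg (Xt E S I a b A t w) (Yt S I a b A t w) ≤ r)
    (h2 : chg (Xt E S I a b A (t + 1) w) (Yt S I a b A (t + 1) w) ≤ r) :
    chg (Xt E S I a b A t w) (Xt E S I a b A (t + 1) w) +
        2 * ncomp (gr3 E (Kt S I a b t) (Kt S I a b (t + 1))) ≤
      2 * (A.filter fun x => (a x ≤ t ∧ t < b x) ∨ (a x ≤ t + 1 ∧ t + 1 < b x)).card +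
        (Q + 2) ^ 2 + 2 * r + 2 := by
  have c1 := hs.two_ncomp_far hE.invol hS.invol hI.invol ht htl
  have c2 := hs.card_fix_le hS.top ht.le
  have c3 : (univ.filter fun x => E x = x).card = 1 := by
    obtain ⟨x, hx, hu⟩ := hE.floor
    rw [card_eq_one]
    refine ⟨x, ?_⟩
    ext z
    rw [mem_filter, mem_singleton]
    constructor
    · rintro ⟨_, h⟩
      exact hu z h
    · rintro rfl
      exact ⟨mem_univ _, hx⟩
  have c4 : chg (Xt E S I a b A t w) (Xt E S I a b A (t + 1) w) ≤ 2 * r + Nt a b t := by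
    have a1 := chg_tri (Xt E S I a b A t w) (Yt S I a b A t w) (Xt E S I a b A (t + 1) w)
    have a2 := chg_tri (Yt S I a b A t w) (Yt S I a b A (t + 1) w) (Xt E S I a b A (t + 1) w)
    have a3 := chg_Yt_succ (S := S) (I := I) hw t
    rw [chg_comm (Yt S I a b A (t + 1) w)] at a2
    omega
  have c5 : Nt a b t ≤ (univ.filter fun x => b x = t + 1).card +
      (univ.filter fun x => a x = t + 1 ∧ t + 1 < b x).card := by
    unfold Nt
    refine le_trans (card_le_card ?_) (card_union_le _ _)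
    intro x hx
    rw [mem_filter] at hx
    rw [mem_union, mem_filter, mem_filter]
    by_cases c : b x = t + 1
    · exact Or.inl ⟨mem_univ _, c⟩
    · right
      refine ⟨mem_univ _, ?_⟩
      rcases hx.2 with h | h
      · have := hs.ab x
        exact ⟨h, by omega⟩
      · exact absurd h c
  have c6 := card_loose_le hsp (fun i j => (i ≤ t ∧ t < j) ∨ (i ≤ t + 1 ∧ t + 1 < j))
  have c7 : (univ.filter fun x => a x ≤ t ∧ t < b x).card +
      (univ.filter fun x => a x = t + 1 ∧ t + 1 < b x).card ≤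
      (univ.filter fun x => a x < b x ∧
        ((a x ≤ t ∧ t < b x) ∨ (a x ≤ t + 1 ∧ t + 1 < b x))).card := by
    rw [← card_union_of_disjoint]
    · refine card_le_card ?_
      intro x hx
      rw [mem_union, mem_filter, mem_filter] at hx
      rw [mem_filter]
      refine ⟨mem_univ _, ?_⟩
      rcases hx with h | h
      · exact ⟨by omega, Or.inl h.2⟩
      · exact ⟨by omega, Or.inr ⟨by omega, by omega⟩⟩
    · rw [disjoint_left]
      intro x hx hx'
      rw [mem_filter] at hx hx'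
      omega
  omega

open Classical in
/-- **few admissible maps have an expensive far transition** -/
theorem card_FB (hpos : PosHyp) {L : Type} [Fintype L] {E S I : L → L} {n Q d : ℕ}
    {a b : L → ℕ} {loc : Set ℕ} {P : L → Prop} {A B : Finset L} {f : L → Bool} {e : ℕ → ℕ}
    (hn : Fintype.card L = 2 * n + 1) (hE : IsEl E)
    (hS : IsArr E S) (hI : IsArr E I) (hs : Sched E S I Q a b loc P)
    (hsp : Split S a b loc P Q d A B f e) {t : ℕ} (ht : t < Q) (htl : t ∉ loc)
    {m C K Λ h r : ℕ}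
    (hbad : Nat.card (BadTh n m C h) * Λ ^ h ≤ C * K ^ n * (2 * n + 1) ^ (h / 2)) :
    ((Ws A B a b f).filter fun w =>
        chg (Xt E S I a b A t w) (Yt S I a b A t w) ≤ r ∧
        chg (Xt E S I a b A (t + 1) w) (Yt S I a b A (t + 1) w) ≤ r ∧
        chg (Xt E S I a b A t w) (Xt E S I a b A (t + 1) w) = h ∧
        ¬ ∃ k, Reach E k (Xt E S I a b A t w) (Xt E S I a b A (t + 1) w) ∧
          2 * m * k ≤ (m + 1) * h + C).card * Λ ^ h ≤
      C * K ^ n * 2 ^ A.card * (2 * n + 1) ^ (A.card + 3 * r + (Q + 2) ^ 2 + 2) := by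
  set T := (Ws A B a b f).filter fun w =>
        chg (Xt E S I a b A t w) (Yt S I a b A t w) ≤ r ∧
        chg (Xt E S I a b A (t + 1) w) (Yt S I a b A (t + 1) w) ≤ r ∧
        chg (Xt E S I a b A t w) (Xt E S I a b A (t + 1) w) = h ∧
        ¬ ∃ k, Reach E k (Xt E S I a b A t w) (Xt E S I a b A (t + 1) w) ∧
          2 * m * k ≤ (m + 1) * h + C with hTdef
  rcases T.eq_empty_or_nonempty with he | ⟨w₀, hw₀⟩
  · rw [he, card_empty, Nat.zero_mul]
    exact Nat.zero_le _
  have hTm : ∀ w ∈ T, Adm A B a b f w ∧ chg (Xt E S I a b A t w) (Yt S I a b A t w) ≤ r ∧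
        chg (Xt E S I a b A (t + 1) w) (Yt S I a b A (t + 1) w) ≤ r ∧
        chg (Xt E S I a b A t w) (Xt E S I a b A (t + 1) w) = h ∧
        ¬ ∃ k, Reach E k (Xt E S I a b A t w) (Xt E S I a b A (t + 1) w) ∧
          2 * m * k ≤ (m + 1) * h + C := by
    intro w hw
    rw [hTdef, mem_filter, mem_Ws] at hw
    exact hw
  -- the slots
  have hex : ∀ w : L → L, ∃ p : L ≃ Fin (2 * n + 1), w ∈ T →
      (∀ x, p (E x) = e0 n (p x)) ∧ ∀ x, p (Xt E S I a b A t w x) = y0 n (p x) := by
    intro w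
    by_cases hw : w ∈ T
    · obtain ⟨p, hp1, hp2⟩ := hpos L E (Xt E S I a b A t w) n hn hE
        (Xt_isArr hE hS hI hs hsp (hTm w hw).1 ht.le)
      exact ⟨p, fun _ => ⟨hp1, hp2⟩⟩
    · exact ⟨Fintype.equivFinOfCardEq hn, fun h => absurd h hw⟩
  choose p hp using hex
  set th : (L → L) → Fin (2 * n + 1) → Fin (2 * n + 1) :=
    fun w i => p w (Xt E S I a b A (t + 1) w ((p w).symm i)) with hth
  have hth' : ∀ w x, p w (Xt E S I a b A (t + 1) w x) = th w (p w x) := by
    intro w x
    simp only [hth, Equiv.symm_apply_apply]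
  have hbadT : ∀ w ∈ T, th w ∈ BadTh n m C h := by
    intro w hw
    obtain ⟨g1, g2, g3, g4, g5⟩ := hTm w hw
    obtain ⟨hp1, hp2⟩ := hp w hw
    refine ⟨?_, ?_, ?_⟩
    · exact (conj_isArr (p w) hp1 (hth' w)).1 (Xt_isArr hE hS hI hs hsp g1 ht)
    · rw [← conj_chg (p w) hp2 (hth' w)]
      exact g4
    · rintro ⟨k, hk1, hk2⟩
      exact g5 ⟨k, conj_reach (p w) hp1 hp2 hk1 (hth' w), hk2⟩
  set Bd : Finset (Fin (2 * n + 1) → Fin (2 * n + 1)) := univ.filter fun θ => θ ∈ BadTh n m C h
    with hBd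
  have hBdc : Bd.card = Nat.card (BadTh n m C h) := by
    rw [hBd, Nat.card_eq_fintype_card, Fintype.card_subtype]
  set nc := ncomp (gr3 E (Kt S I a b t) (Kt S I a b (t + 1))) with hnc
  set al := (A.filter fun x => (a x ≤ t ∧ t < b x) ∨ (a x ≤ t + 1 ∧ t + 1 < b x)).card with hal
  have hfib : ∀ θ ∈ Bd, (T.filter fun w => th w = θ).card ≤
      (2 * n + 1) ^ nc * 2 ^ A.card * (2 * n + 1) ^ (A.card - (al - 2 * r)) := by
    intro θ _
    refine card_far_fiber hE hS hI hs hsp ht hn (e0 n) (y0 n) θ (T.filter fun w => th w = θ) p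
      ?_ ?_ ?_ ?_ ?_ ?_
    · exact fun w hw => (hTm w (mem_filter.1 hw).1).1
    · exact fun w hw => (hTm w (mem_filter.1 hw).1).2.1
    · exact fun w hw => (hTm w (mem_filter.1 hw).1).2.2.1
    · exact fun w hw => (hp w (mem_filter.1 hw).1).1
    · exact fun w hw => (hp w (mem_filter.1 hw).1).2
    · intro w hw x
      rw [hth', (mem_filter.1 hw).2]
  have hsum : T.card ≤ Bd.card *
      ((2 * n + 1) ^ nc * 2 ^ A.card * (2 * n + 1) ^ (A.card - (al - 2 * r))) := by
    rw [Finset.card_eq_sum_card_fiberwise (f := th) (t := Bd) (fun w hw => by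
      rw [mem_coe, hBd, mem_filter]
      exact ⟨mem_univ _, hbadT w hw⟩)]
    calc ∑ θ ∈ Bd, (T.filter fun w => th w = θ).card ≤ ∑ _θ ∈ Bd,
          ((2 * n + 1) ^ nc * 2 ^ A.card * (2 * n + 1) ^ (A.card - (al - 2 * r))) :=
          Finset.sum_le_sum hfib
      _ = _ := by rw [sum_const, smul_eq_mul]
  obtain ⟨g1, g2, g3, g4, -⟩ := hTm w₀ hw₀
  have hexp := far_exp hE hS hI hs hsp ht htl g1 g2 g3
  rw [g4] at hexp
  have halA : al ≤ A.card := card_filter_le _ _
  have hpow : h / 2 + nc + (A.card - (al - 2 * r)) ≤ A.card + 3 * r + (Q + 2) ^ 2 + 2 := by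
    have hexp' : h + 2 * nc ≤ 2 * al + (Q + 2) ^ 2 + 2 * r + 2 := hexp
    omega
  calc T.card * Λ ^ h ≤ (Bd.card *
      ((2 * n + 1) ^ nc * 2 ^ A.card * (2 * n + 1) ^ (A.card - (al - 2 * r)))) * Λ ^ h :=
        Nat.mul_le_mul_right _ hsum
    _ = (Nat.card (BadTh n m C h) * Λ ^ h) *
        ((2 * n + 1) ^ nc * 2 ^ A.card * (2 * n + 1) ^ (A.card - (al - 2 * r))) := by
        rw [hBdc]; ring
    _ ≤ (C * K ^ n * (2 * n + 1) ^ (h / 2)) *
        ((2 * n + 1) ^ nc * 2 ^ A.card * (2 * n + 1) ^ (A.card - (al - 2 * r))) :=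
        Nat.mul_le_mul_right _ hbad
    _ = C * K ^ n * 2 ^ A.card * (2 * n + 1) ^ (h / 2 + nc + (A.card - (al - 2 * r))) := by
        rw [pow_add, pow_add]; ring
    _ ≤ _ := Nat.mul_le_mul_left _ (Nat.pow_le_pow_right (by omega) hpow)

end BP2
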