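import Pool.Agent.BP2.M5.Defs

set_option autoImplicit false

/-!
# M5: the sum of the costs (counting part)

`Nt t` = number of the labels which change (opened or used) at the transition `t -> t + 1`.

* the sum of `Nt t` over the transitions is at most `card L` + number of the labels which are
  loose at some time;
* local transition: `Nt t = 4 * #Out`;
* `Yt` changes at most at `Nt t` labels.
-/

namespace BP2

open Finset Function

variable {L : Type*}

open Classical in
/-- number of the labels which change at the transition `t -> t + 1` -/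
noncomputable def Nt [Fintype L] (a b : L → ℕ) (t : ℕ) : ℕ :=
  (univ.filter fun x => a x = t + 1 ∨ b x = t + 1).card

/-- the sum of the changes -/
theorem sum_Nt_le [Fintype L] (a b : L → ℕ) (Q : ℕ) (ab : ∀ x, a x ≤ b x) :
    ∑ t ∈ range Q, Nt a b t ≤ Fintype.card L + (univ.filter fun x => a x < b x).card := by
  classical
  have h1 : ∀ t, Nt a b t = ∑ x : L, if a x = t + 1 ∨ b x = t + 1 then 1 else 0 := by
    intro t
    unfold Nt
    rw [Finset.card_filter]
  have h2 : (univ.filter fun x => a x < b x).card = ∑ x : L, if a x < b x then 1 else 0 := by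
    rw [Finset.card_filter]
  have h3 : Fintype.card L = ∑ _x : L, 1 := by simp
  rw [Finset.sum_congr rfl fun t _ => h1 t, Finset.sum_comm, h2, h3, ← Finset.sum_add_distrib]
  refine Finset.sum_le_sum fun x _ => ?_
  rw [← Finset.card_filter]
  split_ifs with hx
  · have : (range Q).filter (fun t => a x = t + 1 ∨ b x = t + 1) ⊆ {a x - 1, b x - 1} := by
      intro t ht
      rw [mem_filter] at ht
      rw [mem_insert, mem_singleton]
      rcases ht.2 with h | h <;> omega
    exact (card_le_card this).trans card_le_two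
  · have hab : a x = b x := le_antisymm (ab x) (not_lt.1 hx)
    have : (range Q).filter (fun t => a x = t + 1 ∨ b x = t + 1) ⊆ {a x - 1} := by
      intro t ht
      rw [mem_filter] at ht
      rw [mem_singleton]
      rcases ht.2 with h | h <;> omega
    exact (card_le_card this).trans (by simp)

section local_level

variable {E S I : L → L} {Q : ℕ} {a b : L → ℕ} {loc : Set ℕ} {P : L → Prop}

/-- a label of a new adjacency of a local transition is not the `S`-partner of another -/
lemma sum_disj (h : Sched E S I Q a b loc P) (hI : Involutive I) {t : ℕ}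
    (ht : t < Q) (hl : t ∈ loc) {x : L} (hx : b x = t + 1) : b (S x) ≠ t + 1 := by
  intro hSx
  have hax : a x = t + 1 := h.opened t ht hl x hx
  have hK : Kt S I a b t x = S x := by
    unfold Kt
    rw [if_pos (by omega)]
  have hconn : Conn E (Kt S I a b t) x (S x) := by
    intro C hC hxC
    have := (hC x hxC).2
    rwa [hK] at this
  have htr : ∀ {u v w : L}, Conn E (Kt S I a b t) u v → Conn E (Kt S I a b t) v w →
      Conn E (Kt S I a b t) u w := fun h1 h2 C hC hu => h2 C hC (h1 C hC hu)
  have hsym : ∀ {u : L}, b u = t + 1 → Conn E (Kt S I a b t) (I u) u := by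
    intro u hu
    have := h.body t ht hl (I u) (by rw [h.bI]; exact hu)
    rwa [hI u] at this
  -- the first labels of the two units
  obtain ⟨x', hx'P, hx'b, hx'c, hx'e⟩ : ∃ x', P x' ∧ b x' = t + 1 ∧
      Conn E (Kt S I a b t) x' x ∧ (x' = x ∨ x' = I x) := by
    by_cases hP : P x
    · exact ⟨x, hP, hx, fun C _ h => h, Or.inl rfl⟩
    · have : P (I x) := by
        by_contra hP'
        exact hP ((h.first t ht hl x hx).2 hP')
      exact ⟨I x, this, by rw [h.bI]; exact hx, hsym hx, Or.inr rfl⟩
  obtain ⟨y', hy'P, hy'b, hy'c, hy'e⟩ : ∃ y', P y' ∧ b y' = t + 1 ∧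
      Conn E (Kt S I a b t) (S x) y' ∧ (y' = S x ∨ y' = I (S x)) := by
    by_cases hP : P (S x)
    · exact ⟨S x, hP, hSx, fun C _ h => h, Or.inl rfl⟩
    · have : P (I (S x)) := by
        by_contra hP'
        exact hP ((h.first t ht hl (S x) hSx).2 hP')
      exact ⟨I (S x), this, by rw [h.bI]; exact hSx, h.body t ht hl (S x) hSx, Or.inr rfl⟩
  have heq := h.one t ht hl x' y' hx'b hy'b hx'P hy'P (htr hx'c (htr hconn hy'c))
  have hSne : S x ≠ x := by
    intro hc
    have := h.topS x hc
    omega
  have hSI : S x ≠ I x := by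
    intro hc
    have := h.triv' x hc
    omega
  rcases hx'e with h1 | h1 <;> rcases hy'e with h2 | h2 <;> rw [h1, h2] at heq
  · exact hSne heq.symm
  · apply hSI
    have := congrArg I heq
    rw [hI] at this
    exact this.symm
  · exact hSI heq.symm
  · have := congrArg I heq
    rw [hI, hI] at this
    exact hSne this.symm

/-- local transition: the number of the changes -/
theorem Nt_local [Fintype L] (h : Sched E S I Q a b loc P) (hS : Involutive S) (hI : Involutive I)
    {t : ℕ} (ht : t < Q) (hl : t ∈ loc) : Nt a b t = 4 * (OutS S b P t).ncard := by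
  classical
  have hset : (univ.filter fun x => a x = t + 1 ∨ b x = t + 1) =
      (univ.filter fun x => b x = t + 1) ∪ (univ.filter fun x => b (S x) = t + 1) := by
    ext x
    simp only [mem_filter, mem_univ, true_and, mem_union]
    constructor
    · rintro (h1 | h1)
      · exact h.noCut t ht hl x h1
      · exact Or.inl h1
    · rintro (h1 | h1)
      · exact Or.inr h1
      · left
        rw [← h.aS]
        exact h.opened t ht hl _ h1
  have hdis : Disjoint (univ.filter fun x : L => b x = t + 1)
      (univ.filter fun x : L => b (S x) = t + 1) := by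
    rw [Finset.disjoint_left]
    intro x hx hx'
    rw [mem_filter] at hx hx'
    exact sum_disj h hI ht hl hx.2 hx'.2
  have hcS : (univ.filter fun x : L => b (S x) = t + 1).card =
      (univ.filter fun x : L => b x = t + 1).card := by
    refine Finset.card_bij (fun x _ => S x) ?_ ?_ ?_
    · intro x hx
      rw [mem_filter] at hx ⊢
      exact ⟨mem_univ _, hx.2⟩
    · intro x _ y _ hxy
      exact hS.injective hxy
    · intro y hy
      rw [mem_filter] at hy
      exact ⟨S y, by rw [mem_filter]; exact ⟨mem_univ _, by rw [hS]; exact hy.2⟩, hS y⟩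
  have hP : (univ.filter fun x : L => b x = t + 1).card =
      (univ.filter fun x : L => b x = t + 1 ∧ P x).card +
        (univ.filter fun x : L => b x = t + 1 ∧ ¬ P x).card := by
    rw [← Finset.card_filter_add_card_filter_not (s := univ.filter fun x : L => b x = t + 1) P,
      Finset.filter_filter, Finset.filter_filter]
  have hPI : (univ.filter fun x : L => b x = t + 1 ∧ ¬ P x).card =
      (univ.filter fun x : L => b x = t + 1 ∧ P x).card := by
    refine Finset.card_bij (fun x _ => I x) ?_ ?_ ?_
    · intro x hx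
      rw [mem_filter] at hx ⊢
      refine ⟨mem_univ _, by rw [h.bI]; exact hx.2.1, ?_⟩
      by_contra hc
      exact hx.2.2 ((h.first t ht hl x hx.2.1).2 hc)
    · intro x _ y _ hxy
      exact hI.injective hxy
    · intro y hy
      rw [mem_filter] at hy
      refine ⟨I y, ?_, hI y⟩
      rw [mem_filter]
      exact ⟨mem_univ _, by rw [h.bI]; exact hy.2.1, (h.first t ht hl y hy.2.1).1 hy.2.2⟩
  have hO : (OutS S b P t).ncard = (univ.filter fun x : L => b x = t + 1 ∧ P x).card := by
    rw [Set.ncard_eq_toFinset_card' (OutS S b P t)]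
    refine Finset.card_bij (fun x _ => S x) ?_ ?_ ?_
    · intro x hx
      rw [Set.mem_toFinset] at hx
      rw [mem_filter]
      exact ⟨mem_univ _, hx⟩
    · intro x _ y _ hxy
      exact hS.injective hxy
    · intro y hy
      rw [mem_filter] at hy
      refine ⟨S y, ?_, hS y⟩
      rw [Set.mem_toFinset]
      change b (S (S y)) = t + 1 ∧ P (S (S y))
      rw [hS]
      exact hy.2
  unfold Nt
  rw [hset, card_union_of_disjoint hdis, hcS, hO]
  omega

end local_level

section chg

variable [Fintype L]

lemma chg_comm (X Y : L → L) : chg X Y = chg Y X := by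
  classical
  unfold chg
  congr 1
  ext x
  simp only [mem_filter, mem_univ, true_and]
  exact ne_comm

lemma chg_tri (X Y Z : L → L) : chg X Z ≤ chg X Y + chg Y Z := by
  classical
  unfold chg
  refine le_trans (card_le_card ?_) (card_union_le _ _)
  intro x hx
  rw [mem_filter] at hx
  rw [mem_union, mem_filter, mem_filter]
  by_contra hc
  push Not at hc
  exact hx.2 ((hc.1 (mem_univ _)).trans (hc.2 (mem_univ _)))

lemma chg_le (X Y : L → L) : chg X Y ≤ Fintype.card L := by
  classical
  unfold chg
  exact card_le_univ _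

/-- the value of `Yt` depends only on the times of the label -/
lemma Yt_eq {S I : L → L} {a b : L → ℕ} {A B : Finset L} {f : L → Bool} {w : L → L}
    (hw : Adm A B a b f w) {t t' : ℕ} {x : L} (h1 : a x ≤ t ↔ a x ≤ t')
    (h2 : t < b x ↔ t' < b x) : Yt S I a b A t w x = Yt S I a b A t' w x := by
  classical
  have hK : Kt S I a b t x = Kt S I a b t' x := by
    unfold Kt
    have h3 : t < a x ↔ t' < a x := by
      rw [← not_le, ← not_le, h1]
    by_cases c1 : t < a x
    · rw [if_pos c1, if_pos (h3.1 c1)]
    · rw [if_neg c1, if_neg (fun h => c1 (h3.2 h))]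
      by_cases c2 : t < b x
      · rw [if_pos c2, if_pos (h2.1 c2)]
      · rw [if_neg c2, if_neg (fun h => c2 (h2.2 h))]
  have hA : x ∈ At A a b t ↔ x ∈ At A a b t' := by
    unfold At
    rw [Set.mem_ofPred_eq, Set.mem_ofPred_eq, h1, h2]
  have hex : ∀ y, (y ∈ At A a b t ∧ w y = x) ↔ (y ∈ At A a b t' ∧ w y = x) := by
    intro y
    constructor
    · rintro ⟨⟨hy, h3, h4⟩, rfl⟩
      rw [hw.a y hy] at h1
      rw [hw.b y hy] at h2
      exact ⟨⟨hy, h1.1 h3, h2.1 h4⟩, rfl⟩
    · rintro ⟨⟨hy, h3, h4⟩, rfl⟩
      rw [hw.a y hy] at h1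
      rw [hw.b y hy] at h2
      exact ⟨⟨hy, h1.2 h3, h2.2 h4⟩, rfl⟩
  unfold Yt gw
  by_cases c1 : x ∈ At A a b t
  · rw [if_pos c1, if_pos (hA.1 c1)]
  rw [if_neg c1, if_neg (fun h => c1 (hA.2 h))]
  by_cases c2 : ∃ y ∈ At A a b t, w y = x
  · have c2' : ∃ y ∈ At A a b t', w y = x := by
      obtain ⟨y, hy⟩ := c2
      exact ⟨y, (hex y).1 hy⟩
    rw [dif_pos c2, dif_pos c2']
    congr 1
    funext y
    exact propext (hex y)
  · have c2' : ¬ ∃ y ∈ At A a b t', w y = x := by
      rintro ⟨y, hy⟩
      exact c2 ⟨y, (hex y).2 hy⟩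
    rw [dif_neg c2, dif_neg c2', hK]

/-- `Yt` changes only at the labels with `a x = t + 1` or `b x = t + 1` -/
theorem chg_Yt_succ {S I : L → L} {a b : L → ℕ} {A B : Finset L} {f : L → Bool} {w : L → L}
    (hw : Adm A B a b f w) (t : ℕ) :
    chg (Yt S I a b A t w) (Yt S I a b A (t + 1) w) ≤ Nt a b t := by
  classical
  unfold chg Nt
  refine card_le_card ?_
  intro x hx
  rw [mem_filter] at hx ⊢
  refine ⟨mem_univ _, ?_⟩
  by_contra hc
  push Not at hc
  apply hx.2
  apply Yt_eq hw
  · omega
  · omega

/-- `Yt 0` is nearly `S` -/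
theorem chg_Yt_zero {S I : L → L} {a b : L → ℕ} {A B : Finset L} {f : L → Bool} {w : L → L}
    (hw : Adm A B a b f w) (htriv : ∀ x, b x = 0 → S x = I x) :
    chg S (Yt S I a b A 0 w) ≤ (univ.filter fun x => a x = 0 ∧ 0 < b x).card := by
  classical
  unfold chg
  refine card_le_card ?_
  intro x hx
  rw [mem_filter] at hx ⊢
  refine ⟨mem_univ _, ?_⟩
  by_contra hc
  apply hx.2
  have h1 : x ∉ At A a b 0 := by
    rintro ⟨_, h2, h3⟩
    exact hc ⟨by omega, h3⟩
  have h2 : ∀ y ∈ At A a b 0, w y ≠ x := by
    rintro y ⟨hy, h3, h4⟩ rfl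
    rw [hw.a y hy, hw.b y hy] at hc
    exact hc ⟨by omega, h4⟩
  unfold Yt
  rw [gw_K h1 h2]
  unfold Kt
  by_cases c1 : 0 < a x
  · rw [if_pos c1]
  · rw [if_neg c1, if_neg (fun h3 => hc ⟨by omega, h3⟩)]
    exact htriv x (by omega)

/-- `Yt Q` is nearly `I` -/
theorem chg_Yt_last {S I : L → L} {a b : L → ℕ} {A B : Finset L} {f : L → Bool} {w : L → L}
    (hw : Adm A B a b f w) (ab : ∀ x, a x ≤ b x) (Q : ℕ) :
    chg (Yt S I a b A Q w) I ≤ (univ.filter fun x => Q < b x).card := by
  classical
  unfold chg
  refine card_le_card ?_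
  intro x hx
  rw [mem_filter] at hx ⊢
  refine ⟨mem_univ _, ?_⟩
  by_contra hc
  apply hx.2
  have h1 : x ∉ At A a b Q := by
    rintro ⟨_, h2, h3⟩
    exact hc h3
  have h2 : ∀ y ∈ At A a b Q, w y ≠ x := by
    rintro y ⟨hy, h3, h4⟩ rfl
    rw [hw.b y hy] at hc
    exact hc h4
  unfold Yt
  rw [gw_K h1 h2]
  unfold Kt
  have := ab x
  rw [if_neg (by omega), if_neg hc]

end chg

end BP2
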