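import Pool.Agent.BP2.M5.Levels
import Pool.Agent.BP2.M5.Sum
import Pool.Agent.BP2.M.Level

set_option autoImplicit false

/-!
# M5, far transitions: the changes plus the components, at most the labels of `A` of the level

Let `h` be the number of the changes of the completed arrangements at the far transition
`t -> t + 1` and `2 * c` twice the number of the components of `E, K_t, K_(t+1)`. Then `h + 2 * c`
is at most twice the number of the labels of `A` which are alive at time `t` or at time `t + 1`,
up to the exceptions.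
-/

namespace BP2

open Finset Function

variable {L : Type*} [Fintype L] {E S I : L → L} {Q d : ℕ} {a b : L → ℕ} {loc : Set ℕ}
    {P : L → Prop} {A B : Finset L} {f : L → Bool} {e : ℕ → ℕ} {w : L → L} {t : ℕ}

/-- the labels which change are newly opened or newly used -/
theorem Nt_le [DecidableEq L] (ab : ∀ x, a x ≤ b x) (t : ℕ) :
    Nt a b t ≤ (univ.filter fun x => a x = t + 1 ∧ t + 1 < b x).card +
      (univ.filter fun x => b x = t + 1).card := by
  classical
  unfold Nt
  refine le_trans (card_le_card ?_) (card_union_le _ _)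
  intro x hx
  rw [mem_filter] at hx
  rw [mem_union, mem_filter, mem_filter]
  have := ab x
  rcases hx.2 with h | h
  · by_cases h2 : b x = t + 1
    · exact Or.inr ⟨mem_univ _, h2⟩
    · exact Or.inl ⟨mem_univ _, h, by omega⟩
  · exact Or.inr ⟨mem_univ _, h⟩

/-- the changes plus the components, far transition -/
theorem far_level_le [DecidableEq L] (hE : IsEl E) (hS : IsArr E S) (hI : IsArr E I)
    (hs : Sched E S I Q a b loc P) (hsp : Split S a b loc P Q d A B f e)
    (hw : Adm A B a b f w) (ht : t < Q) (htl : t ∉ loc) {r h : ℕ}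
    (h1 : chg (Xt E S I a b A t w) (Yt S I a b A t w) ≤ r)
    (h2 : chg (Xt E S I a b A (t + 1) w) (Yt S I a b A (t + 1) w) ≤ r)
    (h3 : chg (Xt E S I a b A t w) (Xt E S I a b A (t + 1) w) = h) :
    h + 2 * ncomp (gr3 E (Kt S I a b t) (Kt S I a b (t + 1))) ≤
      2 * (A.filter fun x => (a x ≤ t ∧ t < b x) ∨ (a x ≤ t + 1 ∧ t + 1 < b x)).card +
        (Q + 2) ^ 2 + 2 * r + 2 := by
  classical
  -- the changes
  have hY := chg_Yt_succ (S := S) (I := I) hw t
  have hN := Nt_le (a := a) (b := b) hs.ab t
  have hX : h ≤ 2 * r + Nt a b t := by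
    have e1 := chg_tri (Xt E S I a b A t w) (Yt S I a b A t w) (Xt E S I a b A (t + 1) w)
    have e2 := chg_tri (Yt S I a b A t w) (Yt S I a b A (t + 1) w) (Xt E S I a b A (t + 1) w)
    have e3 := chg_comm (Yt S I a b A (t + 1) w) (Xt E S I a b A (t + 1) w)
    omega
  -- the components
  have hC := hs.two_ncomp_far hE.invol hS.invol hI.invol ht htl
  have hF := hs.card_fix_le hS.top ht.le
  have hEf : (univ.filter fun x => E x = x).card = 1 := by
    obtain ⟨x, hx, hx'⟩ := hE.floor
    rw [card_eq_one]
    refine ⟨x, ?_⟩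
    ext y
    rw [mem_filter, mem_singleton]
    constructor
    · rintro ⟨-, h⟩
      exact hx' y h
    · rintro rfl
      exact ⟨mem_univ _, hx⟩
  -- the loose labels
  have hL := card_loose_le hsp (fun i j => (i ≤ t ∧ t < j) ∨ (i ≤ t + 1 ∧ t + 1 < j))
  have hU : (univ.filter fun x => a x = t + 1 ∧ t + 1 < b x).card +
      (univ.filter fun x => a x ≤ t ∧ t < b x).card ≤
        (univ.filter fun x => a x < b x ∧
          ((a x ≤ t ∧ t < b x) ∨ (a x ≤ t + 1 ∧ t + 1 < b x))).card := by
    rw [← card_union_of_disjoint]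
    · refine card_le_card ?_
      intro x hx
      rw [mem_union, mem_filter, mem_filter] at hx
      rw [mem_filter]
      rcases hx with ⟨-, h4, h5⟩ | ⟨-, h4, h5⟩
      · exact ⟨mem_univ _, by omega, Or.inr ⟨by omega, h5⟩⟩
      · exact ⟨mem_univ _, by omega, Or.inl ⟨h4, h5⟩⟩
    · rw [disjoint_left]
      intro x hx hx'
      rw [mem_filter] at hx hx'
      omega
  omega

end BP2
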