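import Pool.Agent.BP2.M5.LocB
import Pool.Agent.BP2.M.List

set_option autoImplicit false

/-!
# M5, local level: the count of the bad `w` and the flips of the level
-/

namespace BP2

open Finset Function

variable {L : Type*}

/-- no `W` which agrees with `w` on the pairs `out, in` is cheap -/
def LBad [Fintype L] (E S I : L → L) (a b : L → ℕ) (P : L → Prop) (A : Finset L)
    (f : L → Bool) (n m C t : ℕ) (w : L → L) : Prop :=
  ∀ W ∈ BijOI I (Kt S I a b t) {x | b x = t + 1} P,
    (∀ x ∈ A, a x = t + 1 → f x = true → W x = w x) →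
      ¬ LocGood E I (Kt S I a b t) (Xt E S I a b A t w) {x | b x = t + 1} P n m C W

theorem Yt_congr_loc {S I : L → L} {a b : L → ℕ} {A : Finset L} {t : ℕ} {w w' : L → L}
    (h : ∀ x ∈ At A a b t, w x = w' x) : Yt S I a b A t w = Yt S I a b A t w' := by
  classical
  unfold Yt
  funext x
  unfold gw
  by_cases hx : x ∈ At A a b t
  · rw [if_pos hx, if_pos hx, h x hx]
  rw [if_neg hx, if_neg hx]
  have hp : (fun c => c ∈ At A a b t ∧ w c = x) = (fun c => c ∈ At A a b t ∧ w' c = x) := by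
    funext c
    apply propext
    constructor
    · rintro ⟨h1, h2⟩; exact ⟨h1, by rw [← h c h1]; exact h2⟩
    · rintro ⟨h1, h2⟩; exact ⟨h1, by rw [h c h1]; exact h2⟩
  by_cases h1 : ∃ c ∈ At A a b t, w c = x
  · have h2 : ∃ c ∈ At A a b t, w' c = x := by
      obtain ⟨c, hc, hcx⟩ := h1
      exact ⟨c, hc, by rw [← h c hc]; exact hcx⟩
    rw [dif_pos h1, dif_pos h2]
    congr 1
  · have h2 : ¬ ∃ c ∈ At A a b t, w' c = x := by
      rintro ⟨c, hc, hcx⟩
      exact h1 ⟨c, hc, by rw [h c hc]; exact hcx⟩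
    rw [dif_neg h1, dif_neg h2]

theorem Xt_congr_loc [Fintype L] {E S I : L → L} {a b : L → ℕ} {A : Finset L} {t : ℕ}
    {w w' : L → L} (h : ∀ x ∈ At A a b t, w x = w' x) :
    Xt E S I a b A t w = Xt E S I a b A t w' := by
  unfold Xt
  rw [Yt_congr_loc h]

lemma pow_le_three_pow_factorial (N e : ℕ) : N ^ e ≤ 3 ^ N * e.factorial := by
  have h1 : (N : ℝ) ^ e / e.factorial ≤ Real.exp N := Real.pow_div_factorial_le_exp _
    (Nat.cast_nonneg N) e
  have h2 : Real.exp N ≤ 3 ^ N := by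
    have h3 : Real.exp (N : ℝ) = Real.exp 1 ^ N := by
      rw [← Real.exp_nat_mul, mul_one]
    rw [h3]
    exact pow_le_pow_left₀ (Real.exp_pos 1).le (by linarith [Real.exp_one_lt_d9]) N
  have h4 : (0 : ℝ) < e.factorial := by exact_mod_cast e.factorial_pos
  have h5 : (N : ℝ) ^ e ≤ 3 ^ N * e.factorial := by
    rw [div_le_iff₀ h4] at h1
    exact h1.trans (mul_le_mul_of_nonneg_right h2 h4.le)
  exact_mod_cast h5

open Classical in
/-- the maps which are the identity outside `A`, restricted to the complement of `Ac` -/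
theorem card_restr_le [Fintype L] (A Ac : Finset L) (hsub : Ac ⊆ A) (T : Finset (L → L))
    (hT : ∀ w ∈ T, ∀ x, x ∉ A → w x = x) :
    (T.image fun w x => if x ∈ Ac then x else w x).card ≤
      Fintype.card L ^ (A.card - Ac.card) := by
  have h1 : (T.image fun w x => if x ∈ Ac then x else w x).card ≤
      (univ : Finset ({x // x ∈ A \ Ac} → L)).card := by
    refine card_le_card_of_injOn (fun r x => r x.1) (fun _ _ => mem_univ _) ?_
    intro r hr r' hr' heq
    obtain ⟨w, hw, rfl⟩ := mem_image.1 (Finset.mem_coe.1 hr)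
    obtain ⟨w', hw', rfl⟩ := mem_image.1 (Finset.mem_coe.1 hr')
    funext x
    by_cases hx : x ∈ Ac
    · simp only [hx, if_true]
    by_cases hxA : x ∈ A
    · exact congrFun heq ⟨x, mem_sdiff.2 ⟨hxA, hx⟩⟩
    · simp only [hx, if_false]
      rw [hT w hw x hxA, hT w' hw' x hxA]
  rw [card_univ, Fintype.card_fun, Fintype.card_coe, card_sdiff_of_subset hsub] at h1
  exact h1

open Classical in
theorem card_LB [Fintype L] {E S I : L → L} {n Q d : ℕ} {a b : L → ℕ}
    {loc : Set ℕ} {P : L → Prop} {A B : Finset L} {f : L → Bool} {e : ℕ → ℕ}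
    (hn : Fintype.card L = 2 * n + 1) (hE : IsEl E)
    (hS : IsArr E S) (hI : IsArr E I) (hs : Sched E S I Q a b loc P)
    (hsp : Split S a b loc P Q d A B f e) {t : ℕ} (ht : t < Q) (htl : t ∈ loc)
    {m C K₀ Λ : ℕ}
    (hbad : ∀ X : L → L, IsArr E X → (∀ x, Kt S I a b t x ≠ x → X x = Kt S I a b t x) →
      Nat.card {W : L → L // W ∈ BijOI I (Kt S I a b t) {x | b x = t + 1} P ∧
        ¬ LocGood E I (Kt S I a b t) X {x | b x = t + 1} P n m C W} *
      Λ ^ (OutS S b P t).ncard ≤ C * K₀ ^ n * (2 * n + 1) ^ (OutS S b P t).ncard) :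
    ((Ws A B a b f).filter fun w => LBad E S I a b P A f n m C t w).card *
        Λ ^ (OutS S b P t).ncard ≤
      C * K₀ ^ n * 3 ^ (2 * n + 1) * (2 * n + 1) ^ A.card := by
  set Ac := Acl A a f t with hAc
  set k := (OutS S b P t).ncard with hk
  have hkj : k = Ac.card + e t := by
    rw [hk, hsp.few t ht htl, hAc]
    unfold Acl
    congr
  have hsub : Ac ⊆ A := filter_subset _ _
  set T := (Ws A B a b f).filter fun w => LBad E S I a b P A f n m C t w with hT
  have hTa : ∀ w ∈ T, Adm A B a b f w := fun w hw => mem_Ws.1 (mem_filter.1 hw).1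
  -- one fibre
  have hfib : ∀ r ∈ T.image (fun w x => if x ∈ Ac then x else w x),
      (T.filter fun w => (fun x => if x ∈ Ac then x else w x) = r).card * Λ ^ k ≤
        C * K₀ ^ n * 3 ^ (2 * n + 1) * (2 * n + 1) ^ Ac.card := by
    intro r hr
    obtain ⟨w0, hw0, rfl⟩ := mem_image.1 hr
    set F := T.filter fun w => (fun x => if x ∈ Ac then x else w x) =
      (fun x => if x ∈ Ac then x else w0 x) with hF
    have hFw : ∀ w ∈ F, ∀ x, x ∉ Ac → w x = w0 x := by
      intro w hw x hx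
      have h1 := congrFun (mem_filter.1 hw).2 x
      simp only [hx, if_false] at h1
      exact h1
    have hadm0 := hTa w0 hw0
    have hcpl := cpl_Xt hE hS.invol hI.invol hs hsp hadm0 ht.le
    have hXeq : ∀ w ∈ F, Xt E S I a b A t w = Xt E S I a b A t w0 := by
      intro w hw
      refine Xt_congr_loc fun x hx => hFw w hw x ?_
      intro hxc
      have := (mem_filter.1 hxc).2.1
      have := hx.2.1
      omega
    have h1 := bad_le hS.invol hI.invol hs hsp ht htl w0 F
      (fun w hw => ⟨hTa w (mem_filter.1 hw).1, hFw w hw⟩)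
      (fun W => ¬ LocGood E I (Kt S I a b t) (Xt E S I a b A t w0) {x | b x = t + 1} P n m C W)
      (fun w hw W hW hWw => by
        have h2 := (mem_filter.1 (mem_filter.1 hw).1).2
        have h3 := h2 W hW (fun x hx hx1 hx2 => hWw x (mem_filter.2 ⟨hx, hx1, hx2⟩))
        rwa [hXeq w hw] at h3)
    have h2 := hbad _ hcpl.1 hcpl.2.1
    have h3 : F.card * (e t).factorial * Λ ^ k ≤ C * K₀ ^ n * (2 * n + 1) ^ k :=
      (Nat.mul_le_mul_right _ h1).trans h2
    have h4 := pow_le_three_pow_factorial (2 * n + 1) (e t)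
    have h5 : F.card * Λ ^ k * (e t).factorial ≤
        C * K₀ ^ n * 3 ^ (2 * n + 1) * (2 * n + 1) ^ Ac.card * (e t).factorial := by
      calc F.card * Λ ^ k * (e t).factorial = F.card * (e t).factorial * Λ ^ k := by ring
        _ ≤ C * K₀ ^ n * (2 * n + 1) ^ k := h3
        _ = C * K₀ ^ n * (2 * n + 1) ^ Ac.card * (2 * n + 1) ^ e t := by
            rw [hkj, pow_add]; ring
        _ ≤ C * K₀ ^ n * (2 * n + 1) ^ Ac.card * (3 ^ (2 * n + 1) * (e t).factorial) :=
            Nat.mul_le_mul_left _ h4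
        _ = _ := by ring
    exact Nat.le_of_mul_le_mul_right h5 (Nat.factorial_pos _)
  have hsum : T.card = ∑ r ∈ T.image (fun w x => if x ∈ Ac then x else w x),
      (T.filter fun w => (fun x => if x ∈ Ac then x else w x) = r).card :=
    card_eq_sum_card_fiberwise (fun w hw => mem_image_of_mem _ hw)
  have himg := card_restr_le A Ac hsub T (fun w hw => (hTa w hw).id)
  rw [hn] at himg
  calc T.card * Λ ^ k = ∑ r ∈ T.image (fun w x => if x ∈ Ac then x else w x),
      (T.filter fun w => (fun x => if x ∈ Ac then x else w x) = r).card * Λ ^ k := by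
        rw [← Finset.sum_mul, ← hsum]
    _ ≤ ∑ _r ∈ T.image (fun w x => if x ∈ Ac then x else w x),
        C * K₀ ^ n * 3 ^ (2 * n + 1) * (2 * n + 1) ^ Ac.card := Finset.sum_le_sum hfib
    _ = (T.image (fun w x => if x ∈ Ac then x else w x)).card *
        (C * K₀ ^ n * 3 ^ (2 * n + 1) * (2 * n + 1) ^ Ac.card) := by
        rw [Finset.sum_const, smul_eq_mul]
    _ ≤ (2 * n + 1) ^ (A.card - Ac.card) *
        (C * K₀ ^ n * 3 ^ (2 * n + 1) * (2 * n + 1) ^ Ac.card) :=
        Nat.mul_le_mul_right _ himg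
    _ = C * K₀ ^ n * 3 ^ (2 * n + 1) * (2 * n + 1) ^ A.card := by
        have h6 : (2 * n + 1) ^ A.card =
            (2 * n + 1) ^ (A.card - Ac.card) * (2 * n + 1) ^ Ac.card := by
          rw [← pow_add, Nat.sub_add_cancel (card_le_card hsub)]
        rw [h6]; ring

theorem loc_step (htriv : TrivHyp2) {L : Type} [Fintype L] {E S I : L → L} {n Q d : ℕ}
    {a b : L → ℕ} {loc : Set ℕ} {P : L → Prop} {A B : Finset L} {f : L → Bool} {e : ℕ → ℕ}
    (hE : IsEl E)
    (hS : IsArr E S) (hI : IsArr E I) (hs : Sched E S I Q a b loc P)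
    (hsp : Split S a b loc P Q d A B f e) {w : L → L} (hw : Adm A B a b f w) {t : ℕ}
    (ht : t < Q) (htl : t ∈ loc) {m C r : ℕ} (hg : ¬ LBad E S I a b P A f n m C t w)
    (h1 : chg (Xt E S I a b A t w) (Yt S I a b A t w) ≤ r)
    (h2 : chg (Xt E S I a b A (t + 1) w) (Yt S I a b A (t + 1) w) ≤ r) :
    ∃ k, Reach E k (Xt E S I a b A t w) (Xt E S I a b A (t + 1) w) ∧
      m * k ≤ 2 * (m + 1) * (OutS S b P t).ncard + 3 * (n + C) + 4 * m * e t + 4 * m * r := by
  unfold LBad at hg
  push Not at hg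
  obtain ⟨W, hW, hWw, Y, hY, hYc, k, hk, hkm⟩ := hg
  have hX := cpl_Xt hE hS.invol hI.invol hs hsp hw ht.le
  have hX' := cpl_Xt hE hS.invol hI.invol hs hsp hw (Nat.succ_le_of_lt ht)
  have h3 := chg_loc hS.invol hI.invol hs hsp hw ht htl hX.1.invol hX.2.1 hW hWw
  obtain ⟨k', hk'1, hk'2⟩ := htriv L E Y _ hE hY hX'.1
  refine ⟨k + k', hk.trans hk'2, ?_⟩
  have h4 := chg_tri Y (gw (X0 I (Xt E S I a b A t w) {x | b x = t + 1})
    (OutL (Kt S I a b t) {x | b x = t + 1} P) W) (Xt E S I a b A (t + 1) w)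
  have h5 := chg_tri (gw (X0 I (Xt E S I a b A t w) {x | b x = t + 1})
    (OutL (Kt S I a b t) {x | b x = t + 1} P) W) (Yt S I a b A (t + 1) w)
    (Xt E S I a b A (t + 1) w)
  have h6 := chg_comm (Yt S I a b A (t + 1) w) (Xt E S I a b A (t + 1) w)
  have hout := hs.outL ht htl
  have h7 : (OutL (Kt S I a b t) {x | b x = t + 1} P).ncard = (OutS S b P t).ncard := by
    rw [← hout]; rfl
  rw [h7] at hkm
  have h8 : chg (gw (X0 I (Xt E S I a b A t w) {x | b x = t + 1})
      (OutL (Kt S I a b t) {x | b x = t + 1} P) W) (Yt S I a b A (t + 1) w) ≤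
      2 * e t + r := h3.trans (Nat.add_le_add_left h1 _)
  set c1 := chg Y (gw (X0 I (Xt E S I a b A t w) {x | b x = t + 1})
    (OutL (Kt S I a b t) {x | b x = t + 1} P) W) with hc1
  have h9 : chg Y (Xt E S I a b A (t + 1) w) ≤ c1 + (2 * e t + r) + r := by omega
  have h10 : k' ≤ 2 * (c1 + (2 * e t + r) + r) := hk'1.trans (Nat.mul_le_mul_left _ h9)
  calc m * (k + k') = m * k + m * k' := by ring
    _ ≤ (2 * (m + 1) * (OutS S b P t).ncard + n + C) +
        m * (2 * (c1 + (2 * e t + r) + r)) := Nat.add_le_add hkm (Nat.mul_le_mul_left _ h10)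
    _ = 2 * (m + 1) * (OutS S b P t).ncard + n + C + 2 * (m * c1) + 4 * m * e t +
        4 * m * r := by ring
    _ ≤ 2 * (m + 1) * (OutS S b P t).ncard + 3 * (n + C) + 4 * m * e t + 4 * m * r := by
        omega

end BP2
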