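import Mathlib

set_option autoImplicit false

/-!
# M5: the numbers of the union bound

`numbers` : existence of the thresholds `k` (circles), `h₀` (small changes) and of the gain `Λ`
such that every bad set of one kind is smaller than a `1 / (4 (Q + 1) (2 n + 2))` fraction of the
admissible maps.
-/

namespace BP2

/-- a polynomial is smaller than `2 ^ n` for large `n` -/
theorem poly_lt_two_pow (C D : ℕ) : ∃ n₀ : ℕ, ∀ n ≥ n₀, C * (2 * n + 2) ^ D < 2 ^ n := by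
  have h := tendsto_pow_const_div_const_pow_of_one_lt D (r := (2 : ℝ)) (by norm_num)
  have hpos : (0 : ℝ) < 1 / (2 * C * 2 ^ D + 1) := by positivity
  have h2 := h.eventually (gt_mem_nhds hpos)
  rw [Filter.eventually_atTop] at h2
  obtain ⟨n₀, hn₀⟩ := h2
  refine ⟨n₀, fun n hn => ?_⟩
  have h3 := hn₀ (n + 1) (by omega)
  have hp : (0 : ℝ) < 2 ^ (n + 1) := by positivity
  have hq : (0 : ℝ) < 2 * C * 2 ^ D + 1 := by positivity
  rw [div_lt_div_iff₀ hp hq, one_mul] at h3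
  have h4 : ((C * (2 * n + 2) ^ D : ℕ) : ℝ) < ((2 ^ n : ℕ) : ℝ) := by
    push_cast at h3 ⊢
    have e1 : (2 * (n : ℝ) + 2) ^ D = 2 ^ D * ((n : ℝ) + 1) ^ D := by
      rw [← mul_pow]; ring
    rw [e1]
    have e2 : (0 : ℝ) ≤ ((n : ℝ) + 1) ^ D := by positivity
    have e3 : (2 : ℝ) ^ (n + 1) = 2 * 2 ^ n := by ring
    rw [e3] at h3
    nlinarith
  exact_mod_cast h4

/-- the basic comparison: `x A ≤ B W'` with `B` small gives `b x < W` -/
theorem lt_of_mul_le {x b A B W : ℕ} (hW : 0 < W) (h : b * x * A ≤ B * W) (hB : B < A) :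
    b * x < W := by
  have hA : 0 < A := by omega
  by_contra hc
  push Not at hc
  have h1 : W * A ≤ b * x * A := Nat.mul_le_mul_right A hc
  have h2 : B * W < A * W := Nat.mul_lt_mul_of_pos_right hB hW
  nlinarith

/-- exponent of a big number is small -/
theorem log_small (R M : ℕ) (hR : 1 ≤ R) : ∀ n ≥ R ^ M, ∀ V k : ℕ, V ≤ R ^ n →
    (2 * n + 1) ^ k ≤ V → M * k ≤ n := by
  intro n hn V k hV hk
  by_contra hc
  push Not at hc
  have h1 : (2 * n + 1) ^ k ≤ R ^ n := hk.trans hV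
  have h2 : (2 * n + 1) ^ (M * k) ≤ (R ^ M) ^ n := by
    calc (2 * n + 1) ^ (M * k) = ((2 * n + 1) ^ k) ^ M := by
          rw [← pow_mul, mul_comm k M]
      _ ≤ (R ^ n) ^ M := Nat.pow_le_pow_left h1 M
      _ = (R ^ M) ^ n := by rw [← pow_mul, ← pow_mul, mul_comm]
  have hRM : 1 ≤ R ^ M := Nat.one_le_pow _ _ hR
  have h3 : (R ^ M) ^ n < (2 * n + 1) ^ (M * k) := by
    calc (R ^ M) ^ n < (2 * n + 1) ^ n := Nat.pow_lt_pow_left (by omega) (by omega)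
      _ ≤ (2 * n + 1) ^ (M * k) := Nat.pow_le_pow_right (by omega) hc.le
  omega

/-- `W` = number of the admissible maps, `x` = number of the bad ones of one kind -/
theorem numbers (Q K K₀ M : ℕ) : ∃ Λ : ℕ, ∀ C₁ C₂ : ℕ, ∃ n₀ : ℕ, ∀ n ≥ n₀, ∃ k h₀ : ℕ,
    M * k ≤ n ∧ M * h₀ ≤ n ∧ ∀ J W : ℕ, J ≤ n → 0 < W →
      (2 * n + 1) ^ J ≤ 3 ^ (2 * n + 1) * (2 * (Q + 2) ^ 2) ^ J * W →
      (∀ x, x * (2 * n + 1) ^ (k + 1) ≤ 2 ^ J * (2 * n + 1) ^ J →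
        4 * (Q + 1) * (2 * n + 2) * x < W) ∧
      (∀ x h, h₀ ≤ h → x * Λ ^ h ≤ C₁ * K ^ n * 2 ^ J *
          (2 * n + 1) ^ (J + 3 * (3 * k + (Q + 2) ^ 2 + 1) + (Q + 2) ^ 2 + 2) →
        4 * (Q + 1) * (2 * n + 2) * x < W) ∧
      (∀ x s, h₀ ≤ s → x * Λ ^ s ≤ C₂ * K₀ ^ n * 3 ^ (2 * n + 1) * (2 * n + 1) ^ J →
        4 * (Q + 1) * (2 * n + 2) * x < W) := by
  -- `a`, `c` : constants, `V n` : the basic exponential quantity
  obtain ⟨a, ha⟩ : ∃ a, a = 2 * (Q + 2) ^ 2 := ⟨_, rfl⟩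
  obtain ⟨c, hc⟩ : ∃ c, c = (Q + 2) ^ 2 := ⟨_, rfl⟩
  rw [← ha, ← hc]
  have ha1 : 1 ≤ a := by rw [ha]; nlinarith [Nat.zero_le Q]
  -- the exponential rate
  obtain ⟨R, hR⟩ : ∃ R, R = 9 * (2 * a) := ⟨_, rfl⟩
  obtain ⟨T, hT⟩ : ∃ T, T = 2 * (R ^ 10 * (K + 1) * (K₀ + 1) * 81) := ⟨_, rfl⟩
  have hR1 : 1 ≤ R := by omega
  obtain ⟨n₁, hn₁⟩ := poly_lt_two_pow (12 * (Q + 1)) 1
  refine ⟨T ^ (2 * (M + 1)), fun C₁ C₂ => ?_⟩
  obtain ⟨n₂, hn₂⟩ := poly_lt_two_pow (C₁ * 3 ^ 10 * (4 * (Q + 1)) ^ 10) (10 + (4 * c + 5))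
  obtain ⟨n₃, hn₃⟩ := poly_lt_two_pow (C₂ * 9 * (4 * (Q + 1))) 1
  refine ⟨n₁ + n₂ + n₃ + (2 * R) ^ M + 2 * M + 1, fun n hn => ?_⟩
  have hn₁' := hn₁ n (by omega)
  have hn₂' := hn₂ n (by omega)
  have hn₃' := hn₃ n (by omega)
  obtain ⟨b, hb⟩ : ∃ b, b = 4 * (Q + 1) * (2 * n + 2) := ⟨_, rfl⟩
  obtain ⟨V, hV⟩ : ∃ V, V = b * 3 ^ (2 * n + 1) * (2 * a) ^ n := ⟨_, rfl⟩
  rw [← hb]
  have hb0 : 0 < b := by rw [hb]; positivity
  have ha0 : 0 < a := by omega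
  have hV0 : 0 < V := by rw [hV]; positivity
  have hVR : V = 3 * b * R ^ n := by
    rw [hV, hR, mul_pow 9, pow_succ, pow_mul]
    norm_num
    ring
  have hVle : V ≤ (2 * R) ^ n := by
    rw [hVR, mul_pow]
    apply Nat.mul_le_mul_right
    have : 3 * b = 12 * (Q + 1) * (2 * n + 2) ^ 1 := by rw [hb]; ring
    omega
  have hk1 : (2 * n + 1) ^ (Nat.log (2 * n + 1) V) ≤ V := Nat.pow_log_le_self _ hV0.ne'
  have hk2 : V < (2 * n + 1) ^ (Nat.log (2 * n + 1) V + 1) :=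
    Nat.lt_pow_succ_log_self (by omega) V
  obtain ⟨k, hk⟩ : ∃ k, k = Nat.log (2 * n + 1) V := ⟨_, rfl⟩
  rw [← hk] at hk1 hk2
  have hMk : M * k ≤ n := log_small (2 * R) M (by omega) n (by omega) V k hVle hk1
  have hh1 : (M + 1) * (n / (M + 1)) ≤ n := Nat.mul_div_le n (M + 1)
  have hh2 : n < (M + 1) * (n / (M + 1) + 1) := Nat.lt_mul_div_succ n (by omega)
  obtain ⟨h₀, hh₀⟩ : ∃ h₀, h₀ = n / (M + 1) := ⟨_, rfl⟩
  rw [← hh₀] at hh1 hh2
  have hMh : M * h₀ ≤ n := le_trans (Nat.mul_le_mul_right _ (by omega)) hh1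
  have hT1 : 1 ≤ T := by
    rw [hT]
    have h0 : 0 < R := hR1
    exact Nat.succ_le_of_lt (by positivity)
  have hgain : ∀ h, h₀ ≤ h → T ^ n ≤ (T ^ (2 * (M + 1))) ^ h := by
    intro h hh
    rw [← pow_mul]
    apply Nat.pow_le_pow_right hT1
    have h1 : 2 * (M + 1) * h₀ ≤ 2 * (M + 1) * h := Nat.mul_le_mul_left _ hh
    have h2 : n ≤ 2 * (M + 1) * h₀ := by
      have h3 : (M + 1) * (h₀ + 1) = (M + 1) * h₀ + (M + 1) := by ring
      have h4 : 2 * (M + 1) * h₀ = 2 * ((M + 1) * h₀) := by ring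
      omega
    omega
  refine ⟨k, h₀, hMk, hMh, fun J W hJ hW hcount => ?_⟩
  have haJ : b * 3 ^ (2 * n + 1) * (2 * a) ^ J ≤ V := by
    rw [hV]
    exact Nat.mul_le_mul_left _ (Nat.pow_le_pow_right (by omega) hJ)
  refine ⟨fun x hx => ?_, fun x h hh hx => ?_, fun x s hs hx => ?_⟩
  · refine lt_of_mul_le (A := (2 * n + 1) ^ (k + 1)) (B := V) hW ?_ hk2
    calc b * x * (2 * n + 1) ^ (k + 1) = b * (x * (2 * n + 1) ^ (k + 1)) := by ring
      _ ≤ b * (2 ^ J * (2 * n + 1) ^ J) := Nat.mul_le_mul_left _ hx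
      _ ≤ b * (2 ^ J * (3 ^ (2 * n + 1) * a ^ J * W)) :=
          Nat.mul_le_mul_left _ (Nat.mul_le_mul_left _ hcount)
      _ = b * 3 ^ (2 * n + 1) * (2 * a) ^ J * W := by rw [mul_pow]; ring
      _ ≤ V * W := Nat.mul_le_mul_right _ haJ
  · refine lt_of_mul_le (A := (T ^ (2 * (M + 1))) ^ h)
      (B := C₁ * K ^ n * V ^ 10 * (2 * n + 1) ^ (4 * c + 5)) hW ?_ ?_
    · have e1 : (2 * n + 1) ^ (J + 3 * (3 * k + c + 1) + c + 2) =
          (2 * n + 1) ^ J * (((2 * n + 1) ^ k) ^ 9 * (2 * n + 1) ^ (4 * c + 5)) := by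
        rw [← pow_mul, ← pow_add, ← pow_add]
        congr 1
        ring
      have e2 : ((2 * n + 1) ^ k) ^ 9 ≤ V ^ 9 := Nat.pow_le_pow_left hk1 9
      rw [e1] at hx
      calc b * x * (T ^ (2 * (M + 1))) ^ h = b * (x * (T ^ (2 * (M + 1))) ^ h) := by ring
        _ ≤ b * (C₁ * K ^ n * 2 ^ J *
              ((2 * n + 1) ^ J * (((2 * n + 1) ^ k) ^ 9 * (2 * n + 1) ^ (4 * c + 5)))) :=
            Nat.mul_le_mul_left _ hx
        _ ≤ b * (C₁ * K ^ n * 2 ^ J *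
              ((3 ^ (2 * n + 1) * a ^ J * W) * (V ^ 9 * (2 * n + 1) ^ (4 * c + 5)))) := by
            gcongr
        _ = C₁ * K ^ n * (b * 3 ^ (2 * n + 1) * (2 * a) ^ J) * V ^ 9 *
              (2 * n + 1) ^ (4 * c + 5) * W := by rw [mul_pow]; ring
        _ ≤ C₁ * K ^ n * V * V ^ 9 * (2 * n + 1) ^ (4 * c + 5) * W := by
            gcongr
        _ = C₁ * K ^ n * V ^ 10 * (2 * n + 1) ^ (4 * c + 5) * W := by ring
    · refine lt_of_lt_of_le ?_ (hgain h hh)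
      have e3 : V ^ 10 = 3 ^ 10 * b ^ 10 * (R ^ 10) ^ n := by
        rw [hVR, mul_pow, mul_pow, ← pow_mul, ← pow_mul, mul_comm n 10]
      have e4 : (2 * n + 1) ^ (4 * c + 5) ≤ (2 * n + 2) ^ (4 * c + 5) :=
        Nat.pow_le_pow_left (by omega) _
      calc C₁ * K ^ n * V ^ 10 * (2 * n + 1) ^ (4 * c + 5)
          ≤ C₁ * K ^ n * V ^ 10 * (2 * n + 2) ^ (4 * c + 5) := by gcongr
        _ = (C₁ * 3 ^ 10 * (4 * (Q + 1)) ^ 10 * (2 * n + 2) ^ (10 + (4 * c + 5))) *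
              (K * R ^ 10) ^ n := by
            rw [e3, hb, mul_pow K, pow_add, mul_pow (4 * (Q + 1)) (2 * n + 2)]; ring
        _ ≤ (C₁ * 3 ^ 10 * (4 * (Q + 1)) ^ 10 * (2 * n + 2) ^ (10 + (4 * c + 5))) *
              ((K + 1) * R ^ 10) ^ n := by
            gcongr
            omega
        _ < 2 ^ n * ((K + 1) * R ^ 10) ^ n :=
            Nat.mul_lt_mul_of_pos_right hn₂' (by have : 0 < R := hR1; positivity)
        _ = (2 * ((K + 1) * R ^ 10)) ^ n := (mul_pow 2 _ n).symm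
        _ ≤ T ^ n := by
            apply Nat.pow_le_pow_left
            rw [hT]
            have h5 : (K + 1) * R ^ 10 ≤ (K + 1) * R ^ 10 * ((K₀ + 1) * 81) :=
              Nat.le_mul_of_pos_right _ (by positivity)
            calc 2 * ((K + 1) * R ^ 10) ≤ 2 * ((K + 1) * R ^ 10 * ((K₀ + 1) * 81)) :=
                  Nat.mul_le_mul_left _ h5
              _ = 2 * (R ^ 10 * (K + 1) * (K₀ + 1) * 81) := by ring
  · refine lt_of_mul_le (A := (T ^ (2 * (M + 1))) ^ s)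
      (B := C₂ * K₀ ^ n * 3 ^ (2 * n + 1) * V) hW ?_ ?_
    · calc b * x * (T ^ (2 * (M + 1))) ^ s = b * (x * (T ^ (2 * (M + 1))) ^ s) := by ring
        _ ≤ b * (C₂ * K₀ ^ n * 3 ^ (2 * n + 1) * (2 * n + 1) ^ J) := Nat.mul_le_mul_left _ hx
        _ ≤ b * (C₂ * K₀ ^ n * 3 ^ (2 * n + 1) * (3 ^ (2 * n + 1) * a ^ J * W)) := by gcongr
        _ ≤ b * (C₂ * K₀ ^ n * 3 ^ (2 * n + 1) * (3 ^ (2 * n + 1) * (2 * a) ^ J * W)) := by
            gcongr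
            omega
        _ = C₂ * K₀ ^ n * 3 ^ (2 * n + 1) * (b * 3 ^ (2 * n + 1) * (2 * a) ^ J) * W := by ring
        _ ≤ C₂ * K₀ ^ n * 3 ^ (2 * n + 1) * V * W := by gcongr
    · refine lt_of_lt_of_le ?_ (hgain s hs)
      have e5 : 3 ^ (2 * n + 1) = 3 * 9 ^ n := by
        rw [pow_succ, pow_mul]; norm_num; ring
      calc C₂ * K₀ ^ n * 3 ^ (2 * n + 1) * V
          = (C₂ * 9 * (4 * (Q + 1)) * (2 * n + 2) ^ 1) * (K₀ * 9 * R) ^ n := by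
            rw [e5, hVR, hb, mul_pow (K₀ * 9), mul_pow K₀]; ring
        _ ≤ (C₂ * 9 * (4 * (Q + 1)) * (2 * n + 2) ^ 1) * ((K₀ + 1) * 9 * R) ^ n := by
            gcongr
            omega
        _ < 2 ^ n * ((K₀ + 1) * 9 * R) ^ n :=
            Nat.mul_lt_mul_of_pos_right hn₃' (by have : 0 < R := hR1; positivity)
        _ = (2 * ((K₀ + 1) * 9 * R)) ^ n := (mul_pow 2 _ n).symm
        _ ≤ T ^ n := by
            apply Nat.pow_le_pow_left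
            rw [hT]
            have h7 : R ≤ R ^ 10 := by
              calc R = R ^ 1 := (pow_one R).symm
                _ ≤ R ^ 10 := Nat.pow_le_pow_right hR1 (by norm_num)
            have h8 : (K₀ + 1) * 9 * R ^ 10 ≤ (K₀ + 1) * 9 * R ^ 10 * ((K + 1) * 9) :=
              Nat.le_mul_of_pos_right _ (by positivity)
            calc 2 * ((K₀ + 1) * 9 * R) ≤ 2 * ((K₀ + 1) * 9 * R ^ 10) :=
                  Nat.mul_le_mul_left _ (Nat.mul_le_mul_left _ h7)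
              _ ≤ 2 * ((K₀ + 1) * 9 * R ^ 10 * ((K + 1) * 9)) := Nat.mul_le_mul_left _ h8
              _ = 2 * (R ^ 10 * (K + 1) * (K₀ + 1) * 81) := by ring

end BP2
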