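import Mathlib

set_option autoImplicit false

/-!
# M5: splitting the loose labels, pure part
-/

namespace BP2

open Finset Function

/-- halves -/
lemma exists_halves {L : Type*} [DecidableEq L] (s : Finset L) : ∃ u v : Finset L,
    u ⊆ s ∧ v ⊆ s ∧ Disjoint u v ∧ u.card = v.card ∧ (s \ (u ∪ v)).card ≤ 1 := by
  obtain ⟨u, hu, huc⟩ := Finset.exists_subset_card_eq (show s.card / 2 ≤ s.card by omega)
  have h1 : (s \ u).card = s.card - s.card / 2 := by
    rw [card_sdiff_of_subset hu, huc]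
  obtain ⟨v, hv, hvc⟩ := Finset.exists_subset_card_eq (show s.card / 2 ≤ (s \ u).card by omega)
  have hvs : v ⊆ s := hv.trans sdiff_subset
  have hd : Disjoint u v := by
    rw [disjoint_left]
    intro x hx hx'
    exact (mem_sdiff.1 (hv hx')).2 hx
  refine ⟨u, v, hu, hvs, hd, by omega, ?_⟩
  rw [card_sdiff_of_subset (union_subset hu hvs), card_union_of_disjoint hd]
  omega

/-- one class: `O`, `N` the out- and in-labels -/
lemma class_split {L : Type*} [DecidableEq L] (s O N : Finset L) :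
    ∃ O' N' u v : Finset L, O' ⊆ O ∧ N' ⊆ N ∧ u ⊆ s ∧ v ⊆ s ∧
      O'.card = N'.card ∧ u.card = v.card ∧ (∀ x ∈ u, x ∉ v) ∧ (∀ x ∈ u, x ∉ O') ∧
      (∀ x ∈ u, x ∉ N') ∧ (∀ x ∈ v, x ∉ O') ∧ (∀ x ∈ v, x ∉ N') ∧
      (s.filter fun x => ¬ (x ∈ O' ∨ x ∈ u) ∧ ¬ (x ∈ N' ∨ x ∈ v)).card ≤ 1 ∧
      O'.card = min O.card N.card := by
  obtain ⟨O', hO', hO'c⟩ := Finset.exists_subset_card_eq (show min O.card N.card ≤ O.card by omega)
  obtain ⟨N', hN', hN'c⟩ := Finset.exists_subset_card_eq (show min O.card N.card ≤ N.card by omega)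
  obtain ⟨u, v, hu, hv, huv, hc, hl⟩ := exists_halves (s \ (O' ∪ N'))
  have key : ∀ w ⊆ s \ (O' ∪ N'), (∀ x ∈ w, x ∉ O') ∧ ∀ x ∈ w, x ∉ N' := by
    intro w hw
    constructor
    · intro x hx hx'
      exact (mem_sdiff.1 (hw hx)).2 (mem_union_left _ hx')
    · intro x hx hx'
      exact (mem_sdiff.1 (hw hx)).2 (mem_union_right _ hx')
  refine ⟨O', N', u, v, hO', hN', hu.trans sdiff_subset, hv.trans sdiff_subset, by omega, hc,
    fun x hx hx' => (disjoint_left.1 huv) hx hx', (key u hu).1, (key u hu).2, (key v hv).1,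
    (key v hv).2, ?_, hO'c⟩
  refine (card_le_card ?_).trans hl
  intro x hx
  obtain ⟨h1, h2, h3⟩ := mem_filter.1 hx
  rw [mem_sdiff, mem_sdiff, mem_union, mem_union]
  tauto

/-- the sets `A`, `B` and the flags -/
theorem split_class {L κ : Type*} [Fintype L] [DecidableEq L] [DecidableEq κ] (W O N : Finset L)
    (cl : L → κ) (T : Finset κ) (hT : ∀ x ∈ W, cl x ∈ T) (hO : O ⊆ W) (hN : N ⊆ W)
    (hd : ∀ x ∈ O, x ∉ N) : ∃ (A B : Finset L) (f : L → Bool), A ⊆ W ∧ B ⊆ W ∧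
      (∀ x ∈ A, x ∉ B) ∧ (∀ i c, (A.filter fun x => cl x = i ∧ f x = c).card =
        (B.filter fun x => cl x = i ∧ f x = c).card) ∧
      (W.filter fun x => x ∉ A ∧ x ∉ B).card ≤ T.card ∧ (∀ x ∈ A, f x = true → x ∈ O) ∧
      (∀ x ∈ B, f x = true → x ∈ N) ∧ ∀ i, (A.filter fun x => cl x = i ∧ f x = true).card =
        min (O.filter fun x => cl x = i).card (N.filter fun x => cl x = i).card := by
  classical
  choose O' N' u v h using fun i : κ => class_split (W.filter fun x => cl x = i)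
    (O.filter fun x => cl x = i) (N.filter fun x => cl x = i)
  have hO'1 : ∀ {i x}, x ∈ O' i → x ∈ O ∧ cl x = i := fun {i x} hx =>
    mem_filter.1 ((h i).1 hx)
  have hN'1 : ∀ {i x}, x ∈ N' i → x ∈ N ∧ cl x = i := fun {i x} hx =>
    mem_filter.1 ((h i).2.1 hx)
  have hu1 : ∀ {i x}, x ∈ u i → x ∈ W ∧ cl x = i := fun {i x} hx =>
    mem_filter.1 ((h i).2.2.1 hx)
  have hv1 : ∀ {i x}, x ∈ v i → x ∈ W ∧ cl x = i := fun {i x} hx =>
    mem_filter.1 ((h i).2.2.2.1 hx)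
  have hc1 : ∀ i, (O' i).card = (N' i).card := fun i => (h i).2.2.2.2.1
  have hc2 : ∀ i, (u i).card = (v i).card := fun i => (h i).2.2.2.2.2.1
  have huv : ∀ {i x}, x ∈ u i → x ∉ v i := fun {i x} => (h i).2.2.2.2.2.2.1 x
  have huO : ∀ {i x}, x ∈ u i → x ∉ O' i := fun {i x} => (h i).2.2.2.2.2.2.2.1 x
  have huN : ∀ {i x}, x ∈ u i → x ∉ N' i := fun {i x} => (h i).2.2.2.2.2.2.2.2.1 x
  have hvO : ∀ {i x}, x ∈ v i → x ∉ O' i := fun {i x} => (h i).2.2.2.2.2.2.2.2.2.1 x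
  have hvN : ∀ {i x}, x ∈ v i → x ∉ N' i := fun {i x} => (h i).2.2.2.2.2.2.2.2.2.2.1 x
  have hl := fun i => (h i).2.2.2.2.2.2.2.2.2.2.2.1
  have hm := fun i => (h i).2.2.2.2.2.2.2.2.2.2.2.2
  have hON : ∀ {i x}, x ∈ O' i → x ∉ N' i := fun {i x} hx hx' =>
    hd x (hO'1 hx).1 (hN'1 hx').1
  let f : L → Bool := fun x => decide (x ∈ O' (cl x) ∨ x ∈ N' (cl x))
  let A : Finset L := W.filter fun x => x ∈ O' (cl x) ∨ x ∈ u (cl x)
  let B : Finset L := W.filter fun x => x ∈ N' (cl x) ∨ x ∈ v (cl x)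
  have hf : ∀ x, f x = true ↔ (x ∈ O' (cl x) ∨ x ∈ N' (cl x)) := fun x => by simp [f]
  have hf' : ∀ x, f x = false ↔ ¬ (x ∈ O' (cl x) ∨ x ∈ N' (cl x)) := fun x => by simp [f]
  have hAt : ∀ i, (A.filter fun x => cl x = i ∧ f x = true) = O' i := by
    intro i
    ext x
    rw [mem_filter, mem_filter, hf]
    constructor
    · rintro ⟨⟨-, h1⟩, rfl, h2⟩
      rcases h1 with h1 | h1
      · exact h1
      · rcases h2 with h2 | h2
        · exact h2
        · exact absurd h2 (huN h1)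
    · intro hx
      obtain ⟨h1, rfl⟩ := hO'1 hx
      exact ⟨⟨hO h1, Or.inl hx⟩, rfl, Or.inl hx⟩
  have hBt : ∀ i, (B.filter fun x => cl x = i ∧ f x = true) = N' i := by
    intro i
    ext x
    rw [mem_filter, mem_filter, hf]
    constructor
    · rintro ⟨⟨-, h1⟩, rfl, h2⟩
      rcases h1 with h1 | h1
      · exact h1
      · rcases h2 with h2 | h2
        · exact absurd h2 (hvO h1)
        · exact h2
    · intro hx
      obtain ⟨h1, rfl⟩ := hN'1 hx
      exact ⟨⟨hN h1, Or.inl hx⟩, rfl, Or.inr hx⟩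
  have hAf : ∀ i, (A.filter fun x => cl x = i ∧ f x = false) = u i := by
    intro i
    ext x
    rw [mem_filter, mem_filter, hf']
    constructor
    · rintro ⟨⟨-, h1⟩, rfl, h2⟩
      rcases h1 with h1 | h1
      · exact absurd (Or.inl h1) h2
      · exact h1
    · intro hx
      obtain ⟨h1, rfl⟩ := hu1 hx
      refine ⟨⟨h1, Or.inr hx⟩, rfl, ?_⟩
      rintro (h2 | h2)
      · exact huO hx h2
      · exact huN hx h2
  have hBf : ∀ i, (B.filter fun x => cl x = i ∧ f x = false) = v i := by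
    intro i
    ext x
    rw [mem_filter, mem_filter, hf']
    constructor
    · rintro ⟨⟨-, h1⟩, rfl, h2⟩
      rcases h1 with h1 | h1
      · exact absurd (Or.inr h1) h2
      · exact h1
    · intro hx
      obtain ⟨h1, rfl⟩ := hv1 hx
      refine ⟨⟨h1, Or.inr hx⟩, rfl, ?_⟩
      rintro (h2 | h2)
      · exact hvO hx h2
      · exact hvN hx h2
  refine ⟨A, B, f, filter_subset _ _, filter_subset _ _, ?_, ?_, ?_, ?_, ?_, ?_⟩
  · intro x hx hx'
    obtain ⟨-, h1⟩ := mem_filter.1 hx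
    obtain ⟨-, h2⟩ := mem_filter.1 hx'
    rcases h1 with h1 | h1 <;> rcases h2 with h2 | h2
    · exact hON h1 h2
    · exact hvO h2 h1
    · exact huN h1 h2
    · exact huv h1 h2
  · intro i c
    cases c
    · rw [hAf, hBf, hc2]
    · rw [hAt, hBt, hc1]
  · have h1 : (W.filter fun x => x ∉ A ∧ x ∉ B) ⊆ T.biUnion fun i =>
        (W.filter fun x => cl x = i).filter fun x => ¬ (x ∈ O' i ∨ x ∈ u i) ∧
          ¬ (x ∈ N' i ∨ x ∈ v i) := by
      intro x hx
      obtain ⟨h1, h2, h3⟩ := mem_filter.1 hx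
      rw [mem_biUnion]
      refine ⟨cl x, hT x h1, ?_⟩
      rw [mem_filter, mem_filter]
      refine ⟨⟨h1, rfl⟩, fun h4 => h2 ?_, fun h4 => h3 ?_⟩
      · exact mem_filter.2 ⟨h1, h4⟩
      · exact mem_filter.2 ⟨h1, h4⟩
    refine (card_le_card h1).trans (card_biUnion_le.trans ?_)
    calc _ ≤ ∑ _i ∈ T, 1 := sum_le_sum fun i _ => hl i
      _ = T.card := by simp
  · intro x hx hfx
    obtain ⟨-, h1⟩ := mem_filter.1 hx
    rcases h1 with h1 | h1
    · exact (hO'1 h1).1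
    · rcases (hf x).1 hfx with h2 | h2
      · exact (hO'1 h2).1
      · exact absurd h2 (huN h1)
  · intro x hx hfx
    obtain ⟨-, h1⟩ := mem_filter.1 hx
    rcases h1 with h1 | h1
    · exact (hN'1 h1).1
    · rcases (hf x).1 hfx with h2 | h2
      · exact absurd h2 (hvO h1)
      · exact (hN'1 h2).1
  · intro i
    rw [hAt, hm]

end BP2
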