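import Pool.Agent.BP2.M5.Defs
import Pool.Agent.BP2.M5.SplitClass

set_option autoImplicit false

/-!
# M5: the two sides of the random matching exist
-/

namespace BP2

open Finset Function

variable {L : Type*}

section facts

variable {E S I : L → L} {Q : ℕ} {a b : L → ℕ} {loc : Set ℕ} {P : L → Prop}

private lemma spl_S_ne (hs : Sched E S I Q a b loc P) {x : L} (hx : a x ≠ 0) : S x ≠ x :=
  fun h => hx (hs.topS x h)

private lemma spl_SI_ne (hs : Sched E S I Q a b loc P) {x : L} (hx : a x ≠ 0) : S x ≠ I x :=
  fun h => hx (hs.triv' x h)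

/-- `x` and `S x` are not both used at the same local transition -/
private lemma spl_not_both (hI : Involutive I)
    (hs : Sched E S I Q a b loc P) {t : ℕ} (ht : t < Q) (hl : t ∈ loc) {x : L}
    (hx : b x = t + 1) (hSx : b (S x) = t + 1) : False := by
  have hax : a x = t + 1 := hs.opened t ht hl x hx
  have ha0 : a x ≠ 0 := by omega
  have h1 : S x ≠ x := spl_S_ne hs ha0
  have h2 : S x ≠ I x := spl_SI_ne hs ha0
  set K := Kt S I a b t with hK
  have hKx : K x = S x := by
    rw [hK, Kt, if_pos (by omega)]
  -- the first label of the unit of `y`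
  have hfirst : ∀ y, b y = t + 1 → ∃ z, (z = y ∨ z = I y) ∧ P z ∧ b z = t + 1 ∧
      Conn E K z y ∧ Conn E K y z := by
    intro y hy
    have hIy : b (I y) = t + 1 := by rw [hs.bI, hy]
    by_cases hP : P y
    · exact ⟨y, Or.inl rfl, hP, hy, fun C _ h => h, fun C _ h => h⟩
    · have hP' : P (I y) := by
        have := hs.first t ht hl y hy
        by_contra hc
        exact hP (this.2 hc)
      refine ⟨I y, Or.inr rfl, hP', hIy, ?_, hs.body t ht hl y hy⟩
      have := hs.body t ht hl (I y) hIy
      rwa [hI] at this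
  obtain ⟨z, hz, hPz, hbz, hzx, -⟩ := hfirst x hx
  obtain ⟨z', hz', hPz', hbz', -, hz'x⟩ := hfirst (S x) hSx
  have hc : Conn E K z z' := by
    intro C hC hzC
    refine hz'x C hC ?_
    rw [← hKx]
    exact (hC x (hzx C hC hzC)).2
  have hzz := hs.one t ht hl z z' hbz hbz' hPz hPz' hc
  rcases hz with rfl | rfl
  · rcases hz' with rfl | rfl
    · exact h1 hzz.symm
    · have h3 := congrArg I hzz
      rw [hI] at h3
      exact h2 h3.symm
  · rcases hz' with rfl | rfl
    · exact h2 hzz.symm
    · exact h1 (hI.injective hzz).symm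

/-- the labels created at a local transition -/
private lemma spl_out_a (hs : Sched E S I Q a b loc P) {t : ℕ} (ht : t < Q) (hl : t ∈ loc) {z : L}
    (hz : b (S z) = t + 1) : a z = t + 1 := by
  rw [← hs.aS]
  exact hs.opened t ht hl _ hz

private lemma spl_out_loose (hI : Involutive I)
    (hs : Sched E S I Q a b loc P) {t : ℕ} (ht : t < Q) (hl : t ∈ loc) {z : L}
    (hz : b (S z) = t + 1) : a z < b z := by
  have h1 := spl_out_a hs ht hl hz
  have h2 := hs.ab z
  rcases Nat.lt_or_ge (a z) (b z) with h | h
  · exact h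
  · exact (spl_not_both hI hs ht hl (by omega) hz).elim

end facts

section count

variable [Fintype L] {E S I : L → L} {Q d n : ℕ} {a b : L → ℕ} {loc : Set ℕ} {P : L → Prop}

open Classical in
private lemma spl_nOut (hS : Involutive S) (t j : ℕ) :
    nOut S b P t j = (univ.filter fun z => b (S z) = t + 1 ∧ P (S z) ∧ b z = j).card := by
  unfold nOut
  refine card_bij' (fun x _ => S x) (fun x _ => S x) ?_ ?_ ?_ ?_
  · intro x hx
    simp only [mem_filter, mem_univ, true_and] at hx ⊢
    rwa [hS]
  · intro x hx
    simp only [mem_filter, mem_univ, true_and] at hx ⊢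
    rwa [hS]
  · intro x _
    exact hS x
  · intro x _
    exact hS x

open Classical in
private lemma spl_nIn (hS : Involutive S) (hI : Involutive I)
    (hs : Sched E S I Q a b loc P) {t : ℕ} (ht : t < Q) (hl : t ∈ loc) (j : ℕ) :
    nIn S I b P t j = (univ.filter fun z => b (S z) = t + 1 ∧ ¬ P (S z) ∧ b z = j).card := by
  unfold nIn
  refine card_bij' (fun x _ => S (I x)) (fun x _ => I (S x)) ?_ ?_ ?_ ?_
  · intro x hx
    simp only [mem_filter, mem_univ, true_and] at hx ⊢
    rw [hS, hs.bI]
    exact ⟨hx.1, (hs.first t ht hl x hx.1).1 hx.2.1, hx.2.2⟩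
  · intro x hx
    simp only [mem_filter, mem_univ, true_and] at hx ⊢
    rw [hI, hS, hs.bI]
    refine ⟨hx.1, ?_, hx.2.2⟩
    by_contra hc
    exact hx.2.1 ((hs.first t ht hl (S x) hx.1).2 hc)
  · intro x _
    rw [hS, hI]
  · intro x _
    rw [hI, hS]

private lemma spl_sum (hg : Good S I n Q a b loc P d) (t : ℕ) :
    ∑ j ∈ range (Q + 2), nOut S b P t j = ∑ j ∈ range (Q + 2), nIn S I b P t j := by
  classical
  have h : ∀ g : L → L, ∑ j ∈ range (Q + 2),
      (univ.filter fun x => b x = t + 1 ∧ P x ∧ b (g x) = j).card =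
      (univ.filter fun x => b x = t + 1 ∧ P x).card := by
    intro g
    rw [card_eq_sum_card_fiberwise (f := fun x => b (g x)) (t := range (Q + 2))]
    · refine sum_congr rfl fun j _ => ?_
      rw [filter_filter]
      congr 1
      ext x
      simp only [mem_filter, mem_univ, true_and, and_assoc]
    · intro x _
      have := hg.le (g x)
      simp only [coe_range, Set.mem_Iio]
      omega
  have h1 := h S
  have h2 := h (fun x => S (I x))
  unfold nOut nIn
  rw [h1, h2]

end count

/-- M5b -/
theorem exists_split [Fintype L] {E S I : L → L} {Q d n : ℕ} {a b : L → ℕ} {loc : Set ℕ}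
    {P : L → Prop} (hS : IsArr E S) (hI : IsArr E I) (hs : Sched E S I Q a b loc P)
    (hg : Good S I n Q a b loc P d) :
    ∃ (A B : Finset L) (f : L → Bool) (e : ℕ → ℕ), Split S a b loc P Q d A B f e := by
  classical
  replace hS := hS.invol
  replace hI := hI.invol
  set W : Finset L := univ.filter fun x => a x < b x with hW
  set O : Finset L := W.filter fun x => ∃ t < Q, t ∈ loc ∧ b (S x) = t + 1 ∧ P (S x) with hO
  set N : Finset L := W.filter fun x => ∃ t < Q, t ∈ loc ∧ b (S x) = t + 1 ∧ ¬ P (S x) with hN
  obtain ⟨A, B, f, hA, hB, hAB, hcl, hleft, hout, hinn, hmin⟩ :=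
    split_class W O N (fun x => (a x, b x)) (range (Q + 2) ×ˢ range (Q + 2)) (fun x hx => by
      rw [hW, mem_filter] at hx
      have := hg.le x
      rw [mem_product, mem_range, mem_range]
      constructor <;> simp only <;> omega) (filter_subset _ _) (filter_subset _ _) (fun x hx hx' => by
      rw [hO, mem_filter] at hx
      rw [hN, mem_filter] at hx'
      obtain ⟨-, t, -, -, -, h1⟩ := hx
      obtain ⟨-, t', -, -, -, h2⟩ := hx'
      exact h2 h1)
  -- the classes of the labels created at a local transition
  have hOc : ∀ t < Q, t ∈ loc → ∀ j, (O.filter fun x => (a x, b x) = (t + 1, j)).card =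
      nOut S b P t j := by
    intro t ht hl j
    rw [spl_nOut hS]
    congr 1
    ext z
    simp only [hO, hW, mem_filter, mem_univ, true_and, Prod.mk.injEq]
    constructor
    · rintro ⟨⟨-, t', ht', hl', h1, h2⟩, h3, h4⟩
      have := spl_out_a hs ht' hl' h1
      have h5 : t' = t := by omega
      subst h5
      exact ⟨h1, h2, h4⟩
    · rintro ⟨h1, h2, h3⟩
      exact ⟨⟨spl_out_loose hI hs ht hl h1, t, ht, hl, h1, h2⟩, spl_out_a hs ht hl h1, h3⟩
  have hNc : ∀ t < Q, t ∈ loc → ∀ j, (N.filter fun x => (a x, b x) = (t + 1, j)).card =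
      nIn S I b P t j := by
    intro t ht hl j
    rw [spl_nIn hS hI hs ht hl]
    congr 1
    ext z
    simp only [hN, hW, mem_filter, mem_univ, true_and, Prod.mk.injEq]
    constructor
    · rintro ⟨⟨-, t', ht', hl', h1, h2⟩, h3, h4⟩
      have := spl_out_a hs ht' hl' h1
      have h5 : t' = t := by omega
      subst h5
      exact ⟨h1, h2, h4⟩
    · rintro ⟨h1, h2, h3⟩
      exact ⟨⟨spl_out_loose hI hs ht hl h1, t, ht, hl, h1, h2⟩, spl_out_a hs ht hl h1, h3⟩
  refine ⟨A, B, f, fun t => ∑ j ∈ range (Q + 2), (nOut S b P t j - nIn S I b P t j),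
    hAB, ?_, ?_, ?_, ?_, ?_, ?_, ?_, ?_⟩
  · intro x hx
    exact (mem_filter.1 (hA hx)).2
  · intro x hx
    exact (mem_filter.1 (hB hx)).2
  · intro i j c
    have h := hcl (i, j) c
    simp only [Prod.mk.injEq, and_assoc] at h
    exact h
  · rw [card_product, card_range] at hleft
    rw [hW, filter_filter] at hleft
    calc _ = _ := by congr 1
      _ ≤ _ := hleft
      _ = _ := by ring
  · intro t ht hl x hx hax hf
    obtain ⟨-, t', ht', hl', h1, h2⟩ := mem_filter.1 (hout x hx hf)
    have := spl_out_a hs ht' hl' h1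
    have h5 : t' = t := by omega
    subst h5
    exact ⟨h1, h2⟩
  · intro t ht hl x hx hax hf
    obtain ⟨-, t', ht', hl', h1, h2⟩ := mem_filter.1 (hinn x hx hf)
    have := spl_out_a hs ht' hl' h1
    have h5 : t' = t := by omega
    subst h5
    exact ⟨h1, h2⟩
  · intro t ht hl
    have h1 : (OutS S b P t).ncard = ∑ j ∈ range (Q + 2), nOut S b P t j := by
      have h2 : OutS S b P t = ((univ.filter fun z => b (S z) = t + 1 ∧ P (S z) : Finset L) :
          Set L) := by
        ext z
        simp [OutS]
      rw [h2, Set.ncard_coe_finset,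
        card_eq_sum_card_fiberwise (f := fun x => b x) (t := range (Q + 2))]
      · refine sum_congr rfl fun j _ => ?_
        rw [spl_nOut hS, filter_filter]
        congr 1
        ext x
        simp only [mem_filter, mem_univ, true_and, and_assoc]
      · intro x _
        have := hg.le x
        simp only [coe_range, Set.mem_Iio]
        omega
    have h3 : (A.filter fun x => a x = t + 1 ∧ f x = true).card =
        ∑ j ∈ range (Q + 2), min (nOut S b P t j) (nIn S I b P t j) := by
      rw [card_eq_sum_card_fiberwise (f := fun x => b x) (t := range (Q + 2))]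
      · refine sum_congr rfl fun j _ => ?_
        rw [← hOc t ht hl j, ← hNc t ht hl j, ← hmin, filter_filter]
        congr 1
        ext x
        simp only [mem_filter, Prod.mk.injEq]
        tauto
      · intro x _
        have := hg.le x
        simp only [coe_range, Set.mem_Iio]
        omega
    rw [h1, h3, ← sum_add_distrib]
    refine sum_congr rfl fun j _ => ?_
    omega
  · refine le_trans (sum_le_sum fun t ht => ?_) hg.bal
    have h1 := spl_sum hg t
    have h2 : ∀ j, (Int.natAbs ((nOut S b P t j : ℤ) - nIn S I b P t j)) =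
        (nOut S b P t j - nIn S I b P t j) + (nIn S I b P t j - nOut S b P t j) := by
      intro j
      omega
    have h3 : ∀ j, nOut S b P t j + (nIn S I b P t j - nOut S b P t j) =
        nIn S I b P t j + (nOut S b P t j - nIn S I b P t j) := by
      intro j
      omega
    have h4 : ∑ j ∈ range (Q + 2), (nIn S I b P t j - nOut S b P t j) =
        ∑ j ∈ range (Q + 2), (nOut S b P t j - nIn S I b P t j) := by
      have h5 := sum_congr (rfl : range (Q + 2) = range (Q + 2)) fun j _ => h3 j
      rw [sum_add_distrib, sum_add_distrib] at h5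
      omega
    rw [sum_congr rfl fun j _ => h2 j, sum_add_distrib, h4]
    omega

end BP2
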