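import Pool.Agent.BP2.M5.Count
import Pool.Agent.BP2.M5.Comp

set_option autoImplicit false

/-!
# M5: the arrangements `Xt`, the size of `A`, few admissible maps with many circles (form with
`N = #L`)
-/

namespace BP2

open Finset Function

variable {L : Type*} [Fintype L] {E S I : L → L} {Q d : ℕ} {a b : L → ℕ} {loc : Set ℕ}
    {P : L → Prop} {A B : Finset L} {f : L → Bool} {e : ℕ → ℕ} {w w' : L → L} {t : ℕ}

omit [Fintype L] in
/-- `gw` depends only on `w` on `A` -/
theorem gw_congr {K : L → L} {A : Set L} {w w' : L → L} (h : ∀ x ∈ A, w x = w' x) :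
    gw K A w = gw K A w' := by
  classical
  funext x
  unfold gw
  by_cases hx : x ∈ A
  · rw [if_pos hx, if_pos hx, h x hx]
  · rw [if_neg hx, if_neg hx]
    have h1 : (fun a => a ∈ A ∧ w a = x) = fun a => a ∈ A ∧ w' a = x := by
      funext a
      apply propext
      constructor
      · rintro ⟨h2, h3⟩
        exact ⟨h2, by rw [← h a h2]; exact h3⟩
      · rintro ⟨h2, h3⟩
        exact ⟨h2, by rw [h a h2]; exact h3⟩
    simp only [h1]

omit [Fintype L] in
theorem Yt_congr (h : ∀ x ∈ At A a b t, w x = w' x) :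
    Yt S I a b A t w = Yt S I a b A t w' := gw_congr h

theorem Xt_congr (h : ∀ x ∈ At A a b t, w x = w' x) :
    Xt E S I a b A t w = Xt E S I a b A t w' := by
  unfold Xt
  rw [Yt_congr h]

theorem Xt_isArr (hE : IsEl E) (hS : IsArr E S) (hI : IsArr E I)
    (hs : Sched E S I Q a b loc P) (hsp : Split S a b loc P Q d A B f e)
    (hw : Adm A B a b f w) (ht : t ≤ Q) : IsArr E (Xt E S I a b A t w) :=
  (cpl_Xt hE hS.invol hI.invol hs hsp hw ht).1

theorem Xt_K (hE : IsEl E) (hS : IsArr E S) (hI : IsArr E I)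
    (hs : Sched E S I Q a b loc P) (hsp : Split S a b loc P Q d A B f e)
    (hw : Adm A B a b f w) (ht : t ≤ Q) {z : L} (hz : Kt S I a b t z ≠ z) :
    Xt E S I a b A t w z = Kt S I a b t z :=
  (cpl_Xt hE hS.invol hI.invol hs hsp hw ht).2.1 z hz

/-- few circles: the completion changes few adjacencies -/
theorem chg_Xt_Yt (hE : IsEl E) (hS : IsArr E S) (hI : IsArr E I)
    (hs : Sched E S I Q a b loc P) (hsp : Split S a b loc P Q d A B f e)
    (hw : Adm A B a b f w) (ht : t ≤ Q) {k : ℕ} (hk : ¬ Circles E S I a b A t (k + 1) w) :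
    chg (Xt E S I a b A t w) (Yt S I a b A t w) ≤ 3 * k + (Q + 2) ^ 2 + 1 :=
  chg_Xt_le hE hS.invol hI.invol hI.top hs hsp hw ht hk

/-- a property of the times: as often in `A` as in `B` -/
theorem card_A_eq_B (hsp : Split S a b loc P Q d A B f e) (p : ℕ → ℕ → Prop)
    [DecidablePred fun x => p (a x) (b x)] :
    (A.filter fun x => p (a x) (b x)).card = (B.filter fun x => p (a x) (b x)).card := by
  classical
  set F : Finset (ℕ × ℕ × Bool) := (A ∪ B).image fun x => (a x, b x, f x) with hF
  have key : ∀ D : Finset L, D ⊆ A ∪ B → (D.filter fun x => p (a x) (b x)).card =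
      ∑ c ∈ F, if p c.1 c.2.1 then
        (D.filter fun x => a x = c.1 ∧ b x = c.2.1 ∧ f x = c.2.2).card else 0 := by
    intro D hD
    rw [Finset.card_eq_sum_card_fiberwise (f := fun x => (a x, b x, f x)) (t := F)
      (fun x hx => by
        rw [mem_coe, hF]
        exact mem_image_of_mem _ (hD (mem_filter.1 hx).1))]
    refine Finset.sum_congr rfl fun c _ => ?_
    split_ifs with hc
    · congr 1
      ext x
      simp only [mem_filter, Prod.ext_iff]
      constructor
      · rintro ⟨⟨h1, -⟩, h2⟩
        exact ⟨h1, h2⟩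
      · rintro ⟨h1, h2⟩
        exact ⟨⟨h1, by rw [h2.1, h2.2.1]; exact hc⟩, h2⟩
    · rw [card_eq_zero, filter_eq_empty_iff]
      intro x hx
      rw [mem_filter] at hx
      intro h2
      simp only [Prod.ext_iff] at h2
      exact hc (by rw [← h2.1, ← h2.2.1]; exact hx.2)
  rw [key A subset_union_left, key B subset_union_right]
  refine Finset.sum_congr rfl fun c _ => ?_
  rw [hsp.cls c.1 c.2.1 c.2.2]

/-- half of the loose labels are in `A` -/
theorem card_loose_le (hsp : Split S a b loc P Q d A B f e) (p : ℕ → ℕ → Prop)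
    [DecidablePred fun x => p (a x) (b x)] :
    (univ.filter fun x => a x < b x ∧ p (a x) (b x)).card ≤
      2 * (A.filter fun x => p (a x) (b x)).card + (Q + 2) ^ 2 := by
  classical
  have h1 : (univ.filter fun x => a x < b x ∧ p (a x) (b x)) ⊆
      (A.filter fun x => p (a x) (b x)) ∪ (B.filter fun x => p (a x) (b x)) ∪
        (univ.filter fun x => a x < b x ∧ x ∉ A ∧ x ∉ B) := by
    intro x hx
    rw [mem_filter] at hx
    rw [mem_union, mem_union, mem_filter, mem_filter, mem_filter]
    by_cases hA : x ∈ A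
    · exact Or.inl (Or.inl ⟨hA, hx.2.2⟩)
    · by_cases hB : x ∈ B
      · exact Or.inl (Or.inr ⟨hB, hx.2.2⟩)
      · exact Or.inr ⟨mem_univ _, hx.2.1, hA, hB⟩
  have h2 := card_le_card h1
  have h3 := card_union_le ((A.filter fun x => p (a x) (b x)) ∪
    (B.filter fun x => p (a x) (b x))) (univ.filter fun x => a x < b x ∧ x ∉ A ∧ x ∉ B)
  have h4 := card_union_le (A.filter fun x => p (a x) (b x)) (B.filter fun x => p (a x) (b x))
  have h5 := card_A_eq_B hsp p
  have h6 := hsp.left
  have h7 : (univ.filter fun x => a x < b x ∧ x ∉ A ∧ x ∉ B).card ≤ (Q + 2) ^ 2 := by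
    convert h6
  omega

theorem two_card_A_le (hsp : Split S a b loc P Q d A B f e) : 2 * A.card ≤ Fintype.card L := by
  classical
  have h1 := card_A_eq_B hsp (fun _ _ => True)
  rw [filter_true_of_mem (fun _ _ => trivial), filter_true_of_mem (fun _ _ => trivial)] at h1
  have h2 : Disjoint A B := disjoint_left.2 fun x hx => hsp.disj x hx
  have h3 := card_le_univ (A ∪ B)
  rw [card_union_of_disjoint h2] at h3
  omega

open Classical in
/-- few admissible maps have `k` circles at time `t` -/
theorem card_CB (hE : IsEl E) (hS : IsArr E S) (hI : IsArr E I)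
    (hs : Sched E S I Q a b loc P) (hsp : Split S a b loc P Q d A B f e) (t k : ℕ) :
    ((Ws A B a b f).filter fun w => Circles E S I a b A t k w).card * Fintype.card L ^ k ≤
      2 ^ A.card * Fintype.card L ^ A.card := by
  set T := (Ws A B a b f).filter fun w => Circles E S I a b A t k w with hT
  rcases T.eq_empty_or_nonempty with he | ⟨w₀, hw₀⟩
  · rw [he, card_empty, Nat.zero_mul]
    exact Nat.zero_le _
  let Zf : (L → L) → Finset L := fun w => if h : Circles E S I a b A t k w then h.choose else ∅
  have hZf : ∀ w ∈ T, (Zf w).card = k ∧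
      (∀ z ∈ Zf w, z ∈ At A a b t ∧ Circ E (Yt S I a b A t w) z) ∧
      ∀ z ∈ Zf w, ∀ z' ∈ Zf w, EqC E (Yt S I a b A t w) z z' → z = z' := by
    intro w hw
    have h : Circles E S I a b A t k w := (mem_filter.1 hw).2
    simp only [Zf]
    rw [dif_pos h]
    exact h.choose_spec
  have hkA : k ≤ A.card := by
    rw [← (hZf w₀ hw₀).1]
    exact Finset.card_le_card fun z hz => ((hZf w₀ hw₀).2.1 z hz).1.1
  have hadm : ∀ w ∈ T, Adm A B a b f w := fun w hw => mem_Ws.1 (mem_filter.1 hw).1
  have hcode := card_le_of_codeL A T (fun w hw => (hadm w hw).id) ({()} : Finset Unit)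
    (fun _ => ()) (fun _ _ => mem_singleton_self _) Zf k
    (fun w hw z hz => ((hZf w hw).2.1 z hz).1.1) (fun w hw => (hZf w hw).1.ge)
    (by
      intro w hw w' hw' _ hD hag
      have hinj := circ_inj (E := E) (K := Kt S I a b t) (A := At A a b t)
        (Z := (Zf w : Set L)) hE.invol
        (Adm.mat hS.invol hI.invol hs hsp (hadm w hw) t)
        (Adm.mat hS.invol hI.invol hs hsp (hadm w' hw') t)
        (fun z hz => ((hZf _ hw).2.1 z (by exact_mod_cast hz)).1)
        (fun z hz => ((hZf _ hw).2.1 z (by exact_mod_cast hz)).2)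
        (fun z hz => by
          rw [hD] at hz
          exact ((hZf _ hw').2.1 z (by exact_mod_cast hz)).2)
        (fun z hz z' hz' h => (hZf _ hw).2.2 z (by exact_mod_cast hz) z' (by exact_mod_cast hz') h)
        (fun z hz z' hz' h => by
          rw [hD] at hz hz'
          exact (hZf _ hw').2.2 z (by exact_mod_cast hz) z' (by exact_mod_cast hz') h)
        (fun z hz hz' => hag z hz.1 (by exact_mod_cast hz'))
      intro x hx
      by_cases hxZ : x ∈ Zf w
      · exact hinj x ((hZf w hw).2.1 x hxZ).1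
      · exact hag x hx hxZ)
  rw [card_singleton, one_mul] at hcode
  calc T.card * Fintype.card L ^ k ≤
      (2 ^ A.card * Fintype.card L ^ (A.card - k)) * Fintype.card L ^ k :=
        Nat.mul_le_mul_right _ hcode
    _ = 2 ^ A.card * Fintype.card L ^ A.card := by
        rw [mul_assoc, ← pow_add, Nat.sub_add_cancel hkA]

end BP2
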