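import Pool.Agent.BP2.M5.FarB
import Pool.Agent.BP2.M5.Levels
import Pool.Agent.BP2.M5.Local

set_option autoImplicit false

/-!
# M5: the union bound
-/

namespace BP2

open Finset Function

/-- the union bound: `x₁, x₂, x₃` bound the sizes of the bad sets of the three kinds -/
lemma exists_not_bad {α : Type*} {W : Finset α} {T : Finset ℕ} {N : ℕ}
    (p₁ : ℕ → α → Prop) (p₂ : ℕ → ℕ → α → Prop) (p₃ : ℕ → α → Prop) (Q : ℕ)
    (hT : T ⊆ range Q) (hN : 1 ≤ N)
    (h₁ : ∀ t ∈ range (Q + 1), ∀ (D : Finset α), D ⊆ W → (∀ w ∈ D, p₁ t w) →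
      4 * (Q + 1) * N * D.card < W.card)
    (h₂ : ∀ t ∈ T, ∀ h ∈ range N, ∀ (D : Finset α), D ⊆ W → (∀ w ∈ D, p₂ t h w) →
      4 * (Q + 1) * N * D.card < W.card)
    (h₃ : ∀ t ∈ range Q, ∀ (D : Finset α), D ⊆ W → (∀ w ∈ D, p₃ t w) →
      4 * (Q + 1) * N * D.card < W.card) :
    ∃ w ∈ W, (∀ t ∈ range (Q + 1), ¬ p₁ t w) ∧ (∀ t ∈ T, ∀ h ∈ range N, ¬ p₂ t h w) ∧
      (∀ t ∈ range Q, ¬ p₃ t w) := by
  classical
  by_contra hcon
  push Not at hcon
  let D₁ : ℕ → Finset α := fun t => W.filter (p₁ t)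
  let D₂ : ℕ × ℕ → Finset α := fun t => W.filter (p₂ t.1 t.2)
  let D₃ : ℕ → Finset α := fun t => W.filter (p₃ t)
  have hsub : W ⊆ ((range (Q + 1)).biUnion D₁ ∪ (T ×ˢ range N).biUnion D₂) ∪
      (range Q).biUnion D₃ := by
    intro w hw
    rw [mem_union, mem_union, mem_biUnion, mem_biUnion, mem_biUnion]
    by_cases c1 : ∀ t ∈ range (Q + 1), ¬ p₁ t w
    · by_cases c2 : ∀ t ∈ T, ∀ h ∈ range N, ¬ p₂ t h w
      · obtain ⟨t, ht, hp⟩ := hcon w hw c1 c2
        right
        exact ⟨t, ht, mem_filter.2 ⟨hw, hp⟩⟩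
      · push Not at c2
        obtain ⟨t, ht, h, hh, hp⟩ := c2
        left; right
        exact ⟨(t, h), mem_product.2 ⟨ht, hh⟩, mem_filter.2 ⟨hw, hp⟩⟩
    · push Not at c1
      obtain ⟨t, ht, hp⟩ := c1
      left; left
      exact ⟨t, ht, mem_filter.2 ⟨hw, hp⟩⟩
  have hW : 0 < W.card := by
    have := h₁ 0 (by simp) ∅ (by simp) (by simp)
    omega
  have b1 : 4 * (Q + 1) * N * ((range (Q + 1)).biUnion D₁).card ≤ (Q + 1) * W.card := by
    calc 4 * (Q + 1) * N * ((range (Q + 1)).biUnion D₁).card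
        ≤ 4 * (Q + 1) * N * ∑ t ∈ range (Q + 1), (D₁ t).card :=
          Nat.mul_le_mul_left _ card_biUnion_le
      _ = ∑ t ∈ range (Q + 1), 4 * (Q + 1) * N * (D₁ t).card := by rw [Finset.mul_sum]
      _ ≤ ∑ _t ∈ range (Q + 1), W.card := Finset.sum_le_sum fun t ht =>
          (h₁ t ht (D₁ t) (filter_subset _ _) (fun w hw => (mem_filter.1 hw).2)).le
      _ = (Q + 1) * W.card := by rw [Finset.sum_const, card_range, smul_eq_mul]
  have b2 : 4 * (Q + 1) * N * ((T ×ˢ range N).biUnion D₂).card ≤ Q * N * W.card := by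
    calc 4 * (Q + 1) * N * ((T ×ˢ range N).biUnion D₂).card
        ≤ 4 * (Q + 1) * N * ∑ t ∈ T ×ˢ range N, (D₂ t).card :=
          Nat.mul_le_mul_left _ card_biUnion_le
      _ = ∑ t ∈ T ×ˢ range N, 4 * (Q + 1) * N * (D₂ t).card := by rw [Finset.mul_sum]
      _ ≤ ∑ _t ∈ T ×ˢ range N, W.card := Finset.sum_le_sum fun t ht =>
          (h₂ t.1 (mem_product.1 ht).1 t.2 (mem_product.1 ht).2 (D₂ t) (filter_subset _ _)
            (fun w hw => (mem_filter.1 hw).2)).le
      _ = T.card * N * W.card := by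
          rw [Finset.sum_const, card_product, card_range, smul_eq_mul]
      _ ≤ Q * N * W.card := by
          have : T.card ≤ Q := by
            have := Finset.card_le_card hT
            rwa [card_range] at this
          gcongr
  have b3 : 4 * (Q + 1) * N * ((range Q).biUnion D₃).card ≤ Q * W.card := by
    calc 4 * (Q + 1) * N * ((range Q).biUnion D₃).card
        ≤ 4 * (Q + 1) * N * ∑ t ∈ range Q, (D₃ t).card :=
          Nat.mul_le_mul_left _ card_biUnion_le
      _ = ∑ t ∈ range Q, 4 * (Q + 1) * N * (D₃ t).card := by rw [Finset.mul_sum]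
      _ ≤ ∑ _t ∈ range Q, W.card := Finset.sum_le_sum fun t ht =>
          (h₃ t ht (D₃ t) (filter_subset _ _) (fun w hw => (mem_filter.1 hw).2)).le
      _ = Q * W.card := by rw [Finset.sum_const, card_range, smul_eq_mul]
  have h4 : 4 * (Q + 1) * N * W.card ≤ 3 * (Q + 1) * N * W.card := by
    calc 4 * (Q + 1) * N * W.card
        ≤ 4 * (Q + 1) * N * ((((range (Q + 1)).biUnion D₁ ∪ (T ×ˢ range N).biUnion D₂) ∪
            (range Q).biUnion D₃).card) := Nat.mul_le_mul_left _ (card_le_card hsub)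
      _ ≤ 4 * (Q + 1) * N * (((range (Q + 1)).biUnion D₁).card +
            ((T ×ˢ range N).biUnion D₂).card + ((range Q).biUnion D₃).card) := by
          apply Nat.mul_le_mul_left
          exact (card_union_le _ _).trans (Nat.add_le_add_right (card_union_le _ _) _)
      _ = 4 * (Q + 1) * N * ((range (Q + 1)).biUnion D₁).card +
            4 * (Q + 1) * N * ((T ×ˢ range N).biUnion D₂).card +
            4 * (Q + 1) * N * ((range Q).biUnion D₃).card := by ring
      _ ≤ (Q + 1) * W.card + Q * N * W.card + Q * W.card := by omega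
      _ ≤ 3 * (Q + 1) * N * W.card := by
          have e1 : (Q + 1) * W.card ≤ (Q + 1) * N * W.card :=
            Nat.mul_le_mul_right _ (Nat.le_mul_of_pos_right _ hN)
          have e2 : Q * N * W.card ≤ (Q + 1) * N * W.card :=
            Nat.mul_le_mul_right _ (Nat.mul_le_mul_right _ (by omega))
          have e3 : Q * W.card ≤ (Q + 1) * W.card := Nat.mul_le_mul_right _ (by omega)
          have e4 : 3 * (Q + 1) * N * W.card = (Q + 1) * N * W.card + (Q + 1) * N * W.card +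
            (Q + 1) * N * W.card := by ring
          omega
  have h5 : 0 < (Q + 1) * N * W.card := by positivity
  have h6 : 4 * (Q + 1) * N * W.card = 4 * ((Q + 1) * N * W.card) := by ring
  have h7 : 3 * (Q + 1) * N * W.card = 3 * ((Q + 1) * N * W.card) := by ring
  omega

/-- there is a map `w` which is in none of the bad sets -/
theorem exists_w (hpos : PosHyp) {L : Type} [Fintype L] {E S I : L → L} {n Q d : ℕ}
    {a b : L → ℕ} {loc : Set ℕ} {P : L → Prop} {A B : Finset L} {f : L → Bool} {e : ℕ → ℕ}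
    (hn : Fintype.card L = 2 * n + 1) (hE : IsEl E)
    (hS : IsArr E S) (hI : IsArr E I) (hs : Sched E S I Q a b loc P)
    (hg : Good S I n Q a b loc P d)
    (hsp : Split S a b loc P Q d A B f e) {m C₁ C₂ K K₀ Λ k h₀ : ℕ}
    (hfar : ∀ h, Nat.card (BadTh n m C₁ h) * Λ ^ h ≤ C₁ * K ^ n * (2 * n + 1) ^ (h / 2))
    (hloc : ∀ t < Q, t ∈ loc →
      ∀ X : L → L, IsArr E X → (∀ x, Kt S I a b t x ≠ x → X x = Kt S I a b t x) →
      Nat.card {W : L → L // W ∈ BijOI I (Kt S I a b t) {x | b x = t + 1} P ∧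
        ¬ LocGood E I (Kt S I a b t) X {x | b x = t + 1} P n m C₂ W} *
      Λ ^ (OutS S b P t).ncard ≤ C₂ * K₀ ^ n * (2 * n + 1) ^ (OutS S b P t).ncard)
    (hnum : ∀ J W : ℕ, J ≤ n → 0 < W →
      (2 * n + 1) ^ J ≤ 3 ^ (2 * n + 1) * (2 * (Q + 2) ^ 2) ^ J * W →
      (∀ x, x * (2 * n + 1) ^ (k + 1) ≤ 2 ^ J * (2 * n + 1) ^ J →
        4 * (Q + 1) * (2 * n + 2) * x < W) ∧
      (∀ x h, h₀ ≤ h → x * Λ ^ h ≤ C₁ * K ^ n * 2 ^ J *
          (2 * n + 1) ^ (J + 3 * (3 * k + (Q + 2) ^ 2 + 1) + (Q + 2) ^ 2 + 2) →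
        4 * (Q + 1) * (2 * n + 2) * x < W) ∧
      (∀ x s, h₀ ≤ s → x * Λ ^ s ≤ C₂ * K₀ ^ n * 3 ^ (2 * n + 1) * (2 * n + 1) ^ J →
        4 * (Q + 1) * (2 * n + 2) * x < W)) :
    ∃ w, Adm A B a b f w ∧ (∀ t ≤ Q, ¬ Circles E S I a b A t (k + 1) w) ∧
      (∀ t < Q, t ∉ loc → h₀ ≤ chg (Xt E S I a b A t w) (Xt E S I a b A (t + 1) w) →
        ∃ k', Reach E k' (Xt E S I a b A t w) (Xt E S I a b A (t + 1) w) ∧
          2 * m * k' ≤ (m + 1) * chg (Xt E S I a b A t w) (Xt E S I a b A (t + 1) w) + C₁) ∧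
      (∀ t < Q, t ∈ loc → h₀ ≤ (OutS S b P t).ncard → ¬ LBad E S I a b P A f n m C₂ t w) := by
  classical
  have hJ : A.card ≤ n := by
    have := two_card_A_le hsp
    omega
  have hWs := card_Ws hsp hg.le
  rw [hn] at hWs
  have hWpos : 0 < (Ws A B a b f).card := by
    rcases Nat.eq_zero_or_pos (Ws A B a b f).card with h | h
    · rw [h, Nat.mul_zero] at hWs
      have : 0 < (2 * n + 1) ^ A.card := by positivity
      omega
    · exact h
  obtain ⟨n1, n2, n3⟩ := hnum A.card (Ws A B a b f).card hJ hWpos hWs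
  set r := 3 * k + (Q + 2) ^ 2 + 1 with hr
  obtain ⟨w, hw, q1, q2, q3⟩ := exists_not_bad (W := Ws A B a b f)
    (T := (range Q).filter fun t => t ∉ loc) (N := 2 * n + 2)
    (fun t w => Circles E S I a b A t (k + 1) w)
    (fun t h w => chg (Xt E S I a b A t w) (Yt S I a b A t w) ≤ r ∧
      chg (Xt E S I a b A (t + 1) w) (Yt S I a b A (t + 1) w) ≤ r ∧
      chg (Xt E S I a b A t w) (Xt E S I a b A (t + 1) w) = h ∧ h₀ ≤ h ∧
      ¬ ∃ k, Reach E k (Xt E S I a b A t w) (Xt E S I a b A (t + 1) w) ∧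
          2 * m * k ≤ (m + 1) * h + C₁)
    (fun t w => t ∈ loc ∧ h₀ ≤ (OutS S b P t).ncard ∧ LBad E S I a b P A f n m C₂ t w) Q
    (filter_subset _ _) (by omega)
    (by
      intro t _ D hD hp
      apply n1
      have h1 := card_CB hE hS hI hs hsp t (k + 1)
      rw [hn] at h1
      refine le_trans (Nat.mul_le_mul_right _ (card_le_card ?_)) h1
      intro w hw
      rw [mem_filter]
      exact ⟨hD hw, hp w hw⟩)
    (by
      intro t ht h _ D hD hp
      rw [mem_filter, mem_range] at ht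
      rcases D.eq_empty_or_nonempty with he | ⟨w₀, hw₀⟩
      · rw [he, card_empty, Nat.mul_zero]
        exact hWpos
      refine n2 _ h (hp w₀ hw₀).2.2.2.1 ?_
      have h1 := card_FB hpos hn hE hS hI hs hsp ht.1 ht.2 (r := r) (hfar h)
      refine le_trans (Nat.mul_le_mul_right _ (card_le_card ?_)) h1
      intro w hw
      rw [mem_filter]
      obtain ⟨p1, p2, p3, -, p5⟩ := hp w hw
      exact ⟨hD hw, p1, p2, p3, p5⟩)
    (by
      intro t ht D hD hp
      rw [mem_range] at ht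
      rcases D.eq_empty_or_nonempty with he | ⟨w₀, hw₀⟩
      · rw [he, card_empty, Nat.mul_zero]
        exact hWpos
      obtain ⟨c1, c2, -⟩ := hp w₀ hw₀
      refine n3 _ _ c2 ?_
      have h1 := card_LB hn hE hS hI hs hsp ht c1 (hloc t ht c1)
      refine le_trans (Nat.mul_le_mul_right _ (card_le_card ?_)) h1
      intro w hw
      rw [mem_filter]
      exact ⟨hD hw, (hp w hw).2.2⟩)
  have hadm := mem_Ws.1 hw
  have hcirc : ∀ t ≤ Q, ¬ Circles E S I a b A t (k + 1) w := fun t ht =>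
    q1 t (by rw [mem_range]; omega)
  refine ⟨w, hadm, hcirc, ?_, ?_⟩
  · intro t ht htl hh
    by_contra hcon
    have hle : chg (Xt E S I a b A t w) (Xt E S I a b A (t + 1) w) ≤ 2 * n + 1 := by
      rw [← hn]
      unfold chg
      exact Finset.card_le_univ _
    refine q2 t (by rw [mem_filter, mem_range]; exact ⟨ht, htl⟩)
      (chg (Xt E S I a b A t w) (Xt E S I a b A (t + 1) w)) (by rw [mem_range]; omega)
      ⟨?_, ?_, rfl, hh, hcon⟩
    · exact chg_Xt_Yt hE hS hI hs hsp hadm ht.le (hcirc t ht.le)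
    · exact chg_Xt_Yt hE hS hI hs hsp hadm ht (hcirc (t + 1) ht)
  · intro t ht htl hh hLB
    exact q3 t (by rw [mem_range]; exact ht) ⟨htl, hh, hLB⟩

end BP2
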