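import Pool.Agent.BP2.M5.SumB
import Pool.Agent.BP2.M5.Split
import Pool.Agent.BP2.M5.Num
import Pool.Agent.BP2.M5.Union
import Pool.Agent.BP2.M5.Local

set_option autoImplicit false

/-!
# M5: the machine theorem

`union_hyp` : for large `n` there is a good map `w` (few circles, all transitions cheap): from the
union bound `exists_w`, the transitions with few changes are cheap by `TrivHyp2`.
-/

namespace BP2

open Finset Function

/-- the map of the union bound is good -/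
theorem union_hyp (htriv : TrivHyp2) (hpos : PosHyp) (hfar : FarHyp) (hloc : LocHyp) :
    UnionHyp := by
  intro m Q hm
  obtain ⟨K, hK⟩ := hfar
  obtain ⟨K₀, hK₀⟩ := hloc
  obtain ⟨Λ, hΛ⟩ := numbers Q K K₀ m
  obtain ⟨C₁, hC₁⟩ := hK m Λ hm
  obtain ⟨C₂, hC₂⟩ := hK₀ m Λ hm
  obtain ⟨n₀, hn₀⟩ := hΛ C₁ C₂
  refine ⟨m + C₁ + 3 * C₂ + 4 * m * ((Q + 2) ^ 2 + 1), n₀, ?_⟩
  intro L _ E S I n hn hnn hE hS hI a b loc P d hs hg A B f e hsp
  obtain ⟨k, h₀, hk, hh, hnum⟩ := hn₀ n hnn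
  obtain ⟨w, hw, hw1, hw2, hw3⟩ := exists_w hpos hn hE hS hI hs hg hsp (m := m) (C₁ := C₁)
    (C₂ := C₂) (K := K) (K₀ := K₀) (Λ := Λ) (k := k) (h₀ := h₀) (fun h => hC₁ n h)
    (fun t ht htl X hX hXK => by
      have h1 := hC₂ L E I (Kt S I a b t) X {x | b x = t + 1} P n hn hE hX
        (Sched.locData hS.invol hI.invol hs ht htl) hXK
      have h2 : OutL (Kt S I a b t) {x | b x = t + 1} P = OutS S b P t := hs.outL ht htl
      rwa [h2] at h1) hnum
  have hXY : ∀ t ≤ Q, chg (Xt E S I a b A t w) (Yt S I a b A t w) ≤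
      3 * k + (Q + 2) ^ 2 + 1 := fun t ht =>
    chg_Xt_le hE hS.invol hI.invol hI.top hs hsp hw ht (hw1 t ht)
  have harr : ∀ t ≤ Q, IsArr E (Xt E S I a b A t w) := fun t ht =>
    (cpl_Xt hE hS.invol hI.invol hs hsp hw ht).1
  refine ⟨w, hw, ⟨k + 1, ?_, hw1⟩, ?_, ?_⟩
  · rw [Nat.mul_succ]
    omega
  · intro t ht htl
    by_cases hc : h₀ ≤ chg (Xt E S I a b A t w) (Xt E S I a b A (t + 1) w)
    · obtain ⟨k', h1, h2⟩ := hw2 t ht htl hc
      exact ⟨k', h1, by omega⟩
    · obtain ⟨k', h1, h2⟩ := htriv L E _ _ hE (harr t (by omega)) (harr (t + 1) (by omega))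
      refine ⟨k', h2, ?_⟩
      have h3 : k' ≤ 2 * h₀ := by omega
      have h4 := Nat.mul_le_mul_left (2 * m) h3
      have h5 : 2 * m * (2 * h₀) = 4 * (m * h₀) := by ring
      omega
  · intro t ht htl
    by_cases hc : h₀ ≤ (OutS S b P t).ncard
    · obtain ⟨k', h1, h2⟩ := loc_step htriv hE hS hI hs hsp hw ht htl (hw3 t ht htl hc)
        (hXY t (by omega)) (hXY (t + 1) (by omega))
      refine ⟨k', h1, ?_⟩
      have e1 : 4 * m * (3 * k + (Q + 2) ^ 2 + 1) = 12 * (m * k) + 4 * m * ((Q + 2) ^ 2 + 1) := by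
        ring
      have e2 : 4 * m * e t ≤ 16 * m * e t := by
        apply Nat.mul_le_mul_right
        omega
      omega
    · obtain ⟨k', h1, h2⟩ := htriv L E _ _ hE (harr t (by omega)) (harr (t + 1) (by omega))
      refine ⟨k', h2, ?_⟩
      have a1 := chg_tri (Xt E S I a b A t w) (Yt S I a b A t w) (Xt E S I a b A (t + 1) w)
      have a2 := chg_tri (Yt S I a b A t w) (Yt S I a b A (t + 1) w)
        (Xt E S I a b A (t + 1) w)
      rw [chg_comm (Yt S I a b A (t + 1) w)] at a2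
      have a3 := chg_Yt_succ (S := S) (I := I) hw t
      rw [Nt_local hs hS.invol hI.invol ht htl] at a3
      have a4 := hXY t (by omega)
      have a5 := hXY (t + 1) (by omega)
      have h3 : k' ≤ 2 * (4 * h₀ + 2 * (3 * k + (Q + 2) ^ 2 + 1)) := by omega
      have h4 := Nat.mul_le_mul_left m h3
      have h5 : m * (2 * (4 * h₀ + 2 * (3 * k + (Q + 2) ^ 2 + 1))) =
          8 * (m * h₀) + 12 * (m * k) + 4 * m * ((Q + 2) ^ 2 + 1) := by ring
      have h6 := Nat.zero_le (2 * (m + 1) * (OutS S b P t).ncard)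
      have h7 := Nat.zero_le (16 * m * e t)
      omega

/-- **(M)** -/
theorem machine_theorem (htriv : TrivHyp2) (hpos : PosHyp) (hfar : FarHyp) (hloc : LocHyp) :
    MachineTheorem := by
  refine machine_of_union htriv ?_ (union_hyp htriv hpos hfar hloc)
  intro L _ E S I n Q _ _ hS hI a b loc P d hs hg
  exact exists_split hS hI hs hg

end BP2
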