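import Pool.Agent.BP2.M5.Comp
import Pool.Agent.BP2.M5.Sum

set_option autoImplicit false

/-!
# M5, local level: the data of a local transition and the change of the matching
-/

namespace BP2

open Finset Function

variable {L : Type*}

/-- `Y` and `Z` differ only in `D` and where `X` and `Y'` differ -/
theorem chg_le_of_sub [Fintype L] {X Y X' Y' : L → L} (D : Finset L)
    (h : ∀ x, X x ≠ Y x → x ∈ D ∨ X' x ≠ Y' x) : chg X Y ≤ D.card + chg X' Y' := by
  classical
  unfold chg
  refine (card_le_card ?_).trans (card_union_le _ _)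
  intro x hx
  rw [mem_union, mem_filter]
  rcases h x (mem_filter.1 hx).2 with h1 | h1
  · exact Or.inl h1
  · exact Or.inr ⟨mem_univ _, h1⟩

section loc
variable {E S I : L → L} {Q : ℕ} {a b : L → ℕ} {loc : Set ℕ} {P : L → Prop}

/-- the labels of the new adjacencies -/
def Ut (b : L → ℕ) (t : ℕ) : Set L := {x | b x = t + 1}

theorem Kt_lt {t : ℕ} {x : L} (h : t < a x) : Kt S I a b t x = S x := by
  unfold Kt; rw [if_pos h]

theorem Sched.a_of_b (h : Sched E S I Q a b loc P) {t : ℕ} (ht : t < Q) (htl : t ∈ loc) {x : L}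
    (hx : b x = t + 1) : a x = t + 1 := h.opened t ht htl x hx

/-- `K z` is in `U` iff `S z` is in `U`, and then `K z = S z` -/
theorem Sched.KU (h : Sched E S I Q a b loc P) {t : ℕ} (ht : t < Q) (htl : t ∈ loc) (z : L) :
    Kt S I a b t z ∈ Ut b t ↔ b (S z) = t + 1 := by
  constructor
  · intro hz
    have hz' : b (Kt S I a b t z) = t + 1 := hz
    by_cases h1 : t < a z
    · rwa [Kt_lt h1] at hz'
    · exfalso
      unfold Kt at hz'
      rw [if_neg h1] at hz'
      by_cases h2 : t < b z
      · rw [if_pos h2] at hz'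
        have := h.a_of_b ht htl hz'
        omega
      · rw [if_neg h2, h.bI] at hz'
        omega
  · intro hz
    have h1 := h.a_of_b ht htl hz
    rw [h.aS] at h1
    have h2 : Kt S I a b t z = S z := Kt_lt (by omega)
    show b (Kt S I a b t z) = t + 1
    rw [h2, hz]

theorem Sched.KS (h : Sched E S I Q a b loc P) {t : ℕ} (ht : t < Q) (htl : t ∈ loc) {z : L}
    (hz : b (S z) = t + 1) : Kt S I a b t z = S z := by
  have h1 := h.a_of_b ht htl hz
  rw [h.aS] at h1
  exact Kt_lt (by omega)

theorem Sched.locData (hS : Involutive S) (hI : Involutive I) (h : Sched E S I Q a b loc P)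
    {t : ℕ} (ht : t < Q) (htl : t ∈ loc) : LocData E I (Kt S I a b t) (Ut b t) P := by
  have hU : ∀ x, x ∈ Ut b t ↔ b x = t + 1 := fun x => Iff.rfl
  refine ⟨Kt_invol hS hI h.aS h.bI h.ab t, h.acyc t ht.le, ?_, ?_, ?_, ?_, ?_, ?_⟩
  · intro x hx
    refine ⟨?_, hI x, ?_⟩
    · rw [hU, h.bI]; exact hx
    · intro h1
      have := h.topI x h1
      rw [hU] at hx
      omega
  · intro x hx
    rw [hU] at hx
    have h1 := h.a_of_b ht htl hx
    have h2 : Kt S I a b t x = S x := Kt_lt (by omega)
    have h3 : S x ≠ x := by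
      intro h3
      have := h.topS x h3
      omega
    refine ⟨by rw [h2]; exact h3, ?_⟩
    rw [h2, hU]
    intro h4
    -- both units in one body
    have key : ∀ y, b y = t + 1 → ∃ p, (p = y ∨ p = I y) ∧ P p ∧ b p = t + 1 ∧
        Conn E (Kt S I a b t) p y := by
      intro y hy
      by_cases hP : P y
      · exact ⟨y, Or.inl rfl, hP, hy, fun C _ hC => hC⟩
      · have h5 := h.first t ht htl y hy
        have h6 : P (I y) := by
          by_contra h7
          exact hP (h5.2 h7)
        refine ⟨I y, Or.inr rfl, h6, by rw [h.bI]; exact hy, ?_⟩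
        have h8 := h.body t ht htl (I y) (by rw [h.bI]; exact hy)
        rwa [hI] at h8
    obtain ⟨p, hp1, hp2, hp3, hp4⟩ := key x hx
    obtain ⟨q, hq1, hq2, hq3, hq4⟩ := key (S x) h4
    have hinvK := Kt_invol hS hI h.aS h.bI h.ab t
    have h9 : Conn E (Kt S I a b t) p q := by
      intro C hC hp
      have h10 : x ∈ C := hp4 C hC hp
      have h11 : S x ∈ C := by
        have := (hC x h10).2
        rwa [h2] at this
      -- go back from S x to q
      have h12 : Conn E (Kt S I a b t) (S x) q := by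
        rcases hq1 with rfl | rfl
        · exact fun C _ hC => hC
        · exact h.body t ht htl (S x) h4
      exact h12 C hC h11
    have h13 := h.one t ht htl p q hp3 hq3 hp2 hq2 h9
    have h14 : S x = I x := by
      rcases hp1 with rfl | rfl
      · rcases hq1 with h15 | h15
        · exact absurd (h15.symm.trans h13.symm) h3
        · rw [h15] at h13
          have := congrArg I h13
          rw [hI] at this
          exact this.symm
      · rcases hq1 with h15 | h15
        · rw [← h15, ← h13]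
        · rw [h15] at h13
          have := congrArg I h13
          rw [hI, hI] at this
          exact absurd this.symm h3
    have := h.triv' x h14
    omega
  · intro x hx
    exact h.first t ht htl x hx
  · intro x hx
    exact h.body t ht htl x hx
  · intro x hx hP
    exact h.side t ht htl x hx hP
  · intro x hx y hy hPx hPy hc
    exact h.one t ht htl x y hx hy hPx hPy hc

theorem Sched.outL (h : Sched E S I Q a b loc P) {t : ℕ} (ht : t < Q) (htl : t ∈ loc) :
    OutL (Kt S I a b t) (Ut b t) P = OutS S b P t := by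
  ext z
  unfold OutL OutS
  rw [Set.mem_ofPred_eq, Set.mem_ofPred_eq, h.KU ht htl]
  constructor
  · rintro ⟨h1, h2⟩
    rw [h.KS ht htl h1] at h2
    exact ⟨h1, h2⟩
  · rintro ⟨h1, h2⟩
    rw [h.KS ht htl h1]
    exact ⟨h1, h2⟩

theorem Sched.inL (h : Sched E S I Q a b loc P) {t : ℕ} (ht : t < Q) (htl : t ∈ loc) :
    InL I (Kt S I a b t) (Ut b t) P = InS S b P t := by
  ext z
  unfold InL InS
  rw [Set.mem_ofPred_eq, Set.mem_ofPred_eq, h.KU ht htl]
  constructor
  · rintro ⟨h1, h2⟩
    rw [h.KS ht htl h1] at h2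
    exact ⟨h1, fun h3 => (h.first t ht htl _ h1).1 h3 h2⟩
  · rintro ⟨h1, h2⟩
    rw [h.KS ht htl h1]
    refine ⟨h1, ?_⟩
    by_contra h3
    exact h2 ((h.first t ht htl _ h1).2 h3)

/-- out-labels and in-labels: opened now, not used now -/
theorem Sched.out_in (hS : Involutive S) (hI : Involutive I) (h : Sched E S I Q a b loc P)
    {t : ℕ} (ht : t < Q) (htl : t ∈ loc) {z : L} (hz : b (S z) = t + 1) :
    a z = t + 1 ∧ t + 1 < b z := by
  have h1 := h.a_of_b ht htl hz
  rw [h.aS] at h1
  refine ⟨h1, ?_⟩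
  have h2 := h.ab z
  have h3 : b z ≠ t + 1 := by
    intro h3
    have h4 := (h.locData hS hI ht htl).opened z h3
    rw [h.KU ht htl] at h4
    exact h4.2 hz
  omega

/-- as many in-labels as out-labels -/
theorem Sched.ncard_in [Finite L] (hS : Involutive S) (hI : Involutive I)
    (h : Sched E S I Q a b loc P) {t : ℕ} (ht : t < Q) (htl : t ∈ loc) :
    (InS S b P t).ncard = (OutS S b P t).ncard := by
  refine Set.ncard_congr (fun z _ => S (I (S z))) ?_ ?_ ?_
  · rintro z ⟨h1, h2⟩
    refine ⟨?_, ?_⟩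
    · rw [hS, h.bI]; exact h1
    · rw [hS]
      by_contra h3
      exact h2 ((h.first t ht htl _ h1).2 h3)
  · intro z z' _ _ heq
    have h1 := congrArg S heq
    rw [hS, hS] at h1
    have h2 := congrArg I h1
    rw [hI, hI] at h2
    have h3 := congrArg S h2
    rwa [hS, hS] at h3
  · rintro z ⟨h1, h2⟩
    refine ⟨S (I (S z)), ⟨?_, ?_⟩, ?_⟩
    · rw [hS, h.bI]; exact h1
    · rw [hS]
      intro h3
      exact (h.first t ht htl _ h1).1 h2 h3
    · rw [hS, hI, hS]

/-- the labels of the new adjacencies: twice the out-labels -/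
theorem Sched.ncard_U [Finite L] (hS : Involutive S) (hI : Involutive I)
    (h : Sched E S I Q a b loc P) {t : ℕ} (ht : t < Q) (htl : t ∈ loc) :
    (Ut b t).ncard ≤ 2 * (OutS S b P t).ncard := by
  have h1 : (Ut b t).ncard ≤ (OutS S b P t ∪ InS S b P t).ncard := by
    have h2 : (Ut b t).ncard = (S '' (Ut b t)).ncard := by
      rw [Set.ncard_image_of_injective _ hS.injective]
    rw [h2]
    refine Set.ncard_le_ncard ?_ (Set.toFinite _)
    rintro _ ⟨x, hx, rfl⟩
    have hx' : b x = t + 1 := hx
    by_cases hP : P x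
    · left
      exact ⟨by rw [hS]; exact hx', by rw [hS]; exact hP⟩
    · right
      exact ⟨by rw [hS]; exact hx', by rw [hS]; exact hP⟩
  have h3 := Set.ncard_union_le (OutS S b P t) (InS S b P t)
  have h4 := h.ncard_in hS hI ht htl
  omega

end loc

section change
variable [Fintype L] {E S I : L → L} {Q d : ℕ} {a b : L → ℕ} {loc : Set ℕ} {P : L → Prop}
  {A B : Finset L} {f : L → Bool} {e : ℕ → ℕ}

/-- away from the local units the matching does not change -/
theorem Yt_same (hS : Involutive S) (hI : Involutive I) (h : Sched E S I Q a b loc P)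
    (hsp : Split S a b loc P Q d A B f e) {w : L → L} (hw : Adm A B a b f w) {t : ℕ}
    (ht : t < Q) (htl : t ∈ loc) {z : L} (hzU : z ∉ Ut b t) (hzO : b (S z) ≠ t + 1) :
    Yt S I a b A (t + 1) w z = Yt S I a b A t w z := by
  have hb : b z ≠ t + 1 := hzU
  have ha : a z ≠ t + 1 := by
    intro ha
    rcases h.noCut t ht htl z ha with h1 | h1
    · exact hb h1
    · exact hzO h1
  have hK : Kt S I a b (t + 1) z = Kt S I a b t z := by
    unfold Kt
    by_cases h1 : t < a z
    · rw [if_pos h1, if_pos (by omega)]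
    · rw [if_neg h1, if_neg (by omega)]
      by_cases h2 : t < b z
      · rw [if_pos h2, if_pos (by omega)]
      · rw [if_neg h2, if_neg (by omega)]
  have hm := Adm.mat hS hI h hsp hw t
  have hm' := Adm.mat hS hI h hsp hw (t + 1)
  unfold Yt
  by_cases hzA : z ∈ At A a b t
  · have hzA' : z ∈ At A a b (t + 1) := by
      obtain ⟨h1, h2, h3⟩ := hzA
      exact ⟨h1, by omega, by omega⟩
    rw [gw_A hzA, gw_A hzA']
  have hzA' : z ∉ At A a b (t + 1) := by
    rintro ⟨h1, h2, h3⟩
    exact hzA ⟨h1, by omega, by omega⟩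
  by_cases hzB : ∃ c ∈ At A a b t, w c = z
  · obtain ⟨c, hc, rfl⟩ := hzB
    have hc' : c ∈ At A a b (t + 1) := by
      obtain ⟨h1, h2, h3⟩ := hc
      have h4 := hw.a c h1
      have h5 := hw.b c h1
      exact ⟨h1, by omega, by omega⟩
    rw [gw_B hm hc, gw_B hm' hc']
  · have hzB' : ∀ c ∈ At A a b t, w c ≠ z := fun c hc hcz => hzB ⟨c, hc, hcz⟩
    have hzB2 : ∀ c ∈ At A a b (t + 1), w c ≠ z := by
      rintro c ⟨h1, h2, h3⟩ hcz
      have h4 := hw.a c h1
      have h5 := hw.b c h1
      rw [hcz] at h4 h5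
      exact hzB' c ⟨h1, by omega, by omega⟩ hcz
    rw [gw_K hzA hzB', gw_K hzA' hzB2, hK]

open Classical in
/-- the change of the matching at a local level -/
theorem chg_Yt_loc (hS : Involutive S) (hI : Involutive I) (h : Sched E S I Q a b loc P)
    (hsp : Split S a b loc P Q d A B f e) {w : L → L} (hw : Adm A B a b f w) {t : ℕ}
    (ht : t < Q) (htl : t ∈ loc) :
    chg (Yt S I a b A t w) (Yt S I a b A (t + 1) w) ≤ 4 * (OutS S b P t).ncard := by
  have h1 : chg (Yt S I a b A t w) (Yt S I a b A (t + 1) w) ≤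
      (Ut b t ∪ (OutS S b P t ∪ InS S b P t)).ncard := by
    rw [Set.ncard_eq_toFinset_card']
    unfold chg
    refine card_le_card ?_
    intro z hz
    have hz' := (mem_filter.1 hz).2
    rw [Set.mem_toFinset]
    by_contra hcon
    rw [Set.mem_union, Set.mem_union, not_or, not_or] at hcon
    obtain ⟨h2, h3, h4⟩ := hcon
    refine hz' (Yt_same hS hI h hsp hw ht htl h2 ?_).symm
    intro h5
    by_cases hP : P (S z)
    · exact h3 ⟨h5, hP⟩
    · exact h4 ⟨h5, hP⟩
  have h2 := Set.ncard_union_le (Ut b t) (OutS S b P t ∪ InS S b P t)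
  have h3 := Set.ncard_union_le (OutS S b P t) (InS S b P t)
  have h4 := h.ncard_in hS hI ht htl
  have h5 := h.ncard_U hS hI ht htl
  omega

open Classical in
/-- the matching after the local level, compared with the local transition of the arrangement -/
theorem chg_loc (hS : Involutive S) (hI : Involutive I) (h : Sched E S I Q a b loc P)
    (hsp : Split S a b loc P Q d A B f e) {w : L → L} (hw : Adm A B a b f w) {t : ℕ}
    (ht : t < Q) (htl : t ∈ loc) {X : L → L} (hXi : Involutive X)
    (hX : ∀ z, Kt S I a b t z ≠ z → X z = Kt S I a b t z) {W : L → L}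
    (hW : W ∈ BijOI I (Kt S I a b t) (Ut b t) P)
    (hWw : ∀ x ∈ A, a x = t + 1 → f x = true → W x = w x) :
    chg (gw (X0 I X (Ut b t)) (OutL (Kt S I a b t) (Ut b t) P) W) (Yt S I a b A (t + 1) w) ≤
      2 * e t + chg X (Yt S I a b A t w) := by
  have hd := h.locData hS hI ht htl
  have hm' := Adm.mat hS hI h hsp hw (t + 1)
  obtain ⟨hW1, hW2⟩ := hW
  rw [h.outL ht htl] at hW1 hW2 ⊢
  rw [h.inL ht htl] at hW1
  set Ac : Finset L := A.filter fun x => a x = t + 1 ∧ f x = true with hAc
  set Bc : Finset L := B.filter fun x => a x = t + 1 ∧ f x = true with hBc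
  -- the exceptional labels
  set D : Finset L := ((OutS S b P t).toFinset \ Ac) ∪ ((InS S b P t).toFinset \ Bc) with hD
  have hAcO : Ac ⊆ (OutS S b P t).toFinset := by
    intro x hx
    obtain ⟨h1, h2, h3⟩ := mem_filter.1 hx
    rw [Set.mem_toFinset]
    exact hsp.out t ht htl x h1 h2 h3
  have hBcI : Bc ⊆ (InS S b P t).toFinset := by
    intro x hx
    obtain ⟨h1, h2, h3⟩ := mem_filter.1 hx
    rw [Set.mem_toFinset]
    exact hsp.inn t ht htl x h1 h2 h3
  have hwc : ∀ x ∈ Ac, w x ∈ Bc := by
    intro x hx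
    obtain ⟨h1, h2, h3⟩ := mem_filter.1 hx
    refine mem_filter.2 ⟨by exact_mod_cast hw.bij.mapsTo (by exact_mod_cast h1), ?_, ?_⟩
    · rw [hw.a x h1]; exact h2
    · rw [hw.f x h1]; exact h3
  have hwc' : ∀ y ∈ Bc, ∃ x ∈ Ac, w x = y := by
    intro y hy
    obtain ⟨h1, h2, h3⟩ := mem_filter.1 hy
    obtain ⟨x, hx, hxy⟩ := hw.bij.surjOn (by exact_mod_cast h1 : y ∈ (B : Set L))
    have hx' : x ∈ A := by exact_mod_cast hx
    refine ⟨x, mem_filter.2 ⟨hx', ?_, ?_⟩, hxy⟩
    · rw [← hw.a x hx', hxy]; exact h2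
    · rw [← hw.f x hx', hxy]; exact h3
  have hcardAB : Bc.card = Ac.card := by
    symm
    refine Finset.card_bij (fun x _ => w x) hwc ?_ ?_
    · intro x hx y hy hxy
      exact hw.bij.injOn (by exact_mod_cast (mem_filter.1 hx).1)
        (by exact_mod_cast (mem_filter.1 hy).1) hxy
    · intro y hy
      obtain ⟨x, hx, hxy⟩ := hwc' y hy
      exact ⟨x, hx, hxy⟩
  have hfew := hsp.few t ht htl
  have hAcc : (A.filter fun x => a x = t + 1 ∧ f x = true).card = Ac.card := rfl
  have hO : (OutS S b P t).toFinset.card = Ac.card + e t := by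
    rw [← Set.ncard_eq_toFinset_card', hfew]
  have hIn : (InS S b P t).toFinset.card = Bc.card + e t := by
    rw [← Set.ncard_eq_toFinset_card', h.ncard_in hS hI ht htl, Set.ncard_eq_toFinset_card',
      hO, hcardAB]
  have hDc : D.card ≤ 2 * e t := by
    have h1 : D.card ≤ ((OutS S b P t).toFinset \ Ac).card +
        ((InS S b P t).toFinset \ Bc).card := by
      rw [hD]; exact card_union_le _ _
    rw [card_sdiff_of_subset hAcO, card_sdiff_of_subset hBcI] at h1
    omega
  refine (chg_le_of_sub (X' := X) (Y' := Yt S I a b A t w) D ?_).trans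
    (Nat.add_le_add_right hDc _)
  intro z hz
  by_contra hcon
  push Not at hcon
  obtain ⟨hzD, hzX⟩ := hcon
  apply hz
  -- the matching of the transition
  have hWm : ∀ c ∈ OutS S b P t, ∀ c' ∈ OutS S b P t, W c = W c' → c = c' :=
    fun c hc c' hc' heq => hW1.injOn hc hc' heq
  have hOI : ∀ c ∈ OutS S b P t, c ∉ InS S b P t := fun c hc hc' => hc'.2 hc.2
  have hgB : ∀ c ∈ OutS S b P t, gw (X0 I X (Ut b t)) (OutS S b P t) W (W c) = c := by
    intro c hc
    unfold gw
    have h1 : ∃ c' ∈ OutS S b P t, W c' = W c := ⟨c, hc, rfl⟩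
    have h2 : W c ∉ OutS S b P t := fun h3 => hOI _ h3 (hW1.mapsTo hc)
    rw [if_neg h2, dif_pos h1]
    exact hWm _ h1.choose_spec.1 _ hc h1.choose_spec.2
  by_cases hzO : z ∈ OutS S b P t
  · -- out
    have hzA : z ∈ Ac := by
      by_contra h1
      apply hzD
      rw [hD, mem_union, mem_sdiff]
      left
      exact ⟨by rw [Set.mem_toFinset]; exact hzO, h1⟩
    obtain ⟨h1, h2, h3⟩ := mem_filter.1 hzA
    have h4 := h.out_in hS hI ht htl hzO.1
    have h5 : z ∈ At A a b (t + 1) := ⟨h1, by omega, h4.2⟩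
    unfold Yt
    rw [gw_A hzO, gw_A h5, hWw z h1 h2 h3]
  by_cases hzI : z ∈ InS S b P t
  · have hzB : z ∈ Bc := by
      by_contra h1
      apply hzD
      rw [hD, mem_union]
      right
      rw [mem_sdiff]
      exact ⟨by rw [Set.mem_toFinset]; exact hzI, h1⟩
    obtain ⟨x, hx, hxz⟩ := hwc' z hzB
    obtain ⟨h1, h2, h3⟩ := mem_filter.1 hx
    have hxO : x ∈ OutS S b P t := by
      have := hAcO hx
      rwa [Set.mem_toFinset] at this
    have h4 := h.out_in hS hI ht htl hxO.1
    have h5 : x ∈ At A a b (t + 1) := ⟨h1, by omega, h4.2⟩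
    have h6 : W x = z := by rw [hWw x h1 h2 h3, hxz]
    have h7 := hgB x hxO
    rw [h6] at h7
    rw [h7]
    unfold Yt
    rw [← hxz, gw_B hm' h5]
  have hSz : b (S z) ≠ t + 1 := by
    intro h5
    by_cases hP : P (S z)
    · exact hzO ⟨h5, hP⟩
    · exact hzI ⟨h5, hP⟩
  have hgK : gw (X0 I X (Ut b t)) (OutS S b P t) W z = X0 I X (Ut b t) z := by
    refine gw_K hzO ?_
    intro c hc hcz
    exact hzI (hcz ▸ hW1.mapsTo hc)
  rw [hgK]
  by_cases hzU : z ∈ Ut b t
  · have hbz : b z = t + 1 := hzU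
    have h1 : X0 I X (Ut b t) z = I z := by
      unfold X0; rw [if_pos hzU]
    rw [h1]
    unfold Yt
    rw [gw_K]
    · unfold Kt
      have := h.a_of_b ht htl hbz
      rw [if_neg (by omega), if_neg (by omega)]
    · rintro ⟨_, _, h3⟩
      omega
    · rintro c ⟨h1, h2, h3⟩ hcz
      have h4 := hw.b c h1
      rw [hcz] at h4
      omega
  · have hXz : X z ∉ Ut b t := by
      intro h1
      have h2 := (hd.opened _ h1).1
      have h3 := hX _ h2
      rw [hXi z] at h3
      -- z = K (X z)
      have h4 : Kt S I a b t z = X z := by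
        have h5 := congrArg (Kt S I a b t) h3
        rwa [hd.invK (X z)] at h5
      apply hSz
      rw [← h.KU ht htl, h4]
      exact h1
    have h1 : X0 I X (Ut b t) z = X z := by
      unfold X0; rw [if_neg hzU, if_neg hXz]
    rw [h1, hzX, Yt_same hS hI h hsp hw ht htl hzU hSz]

end change

end BP2
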