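import Pool.Agent.BP2.M5.LocA

set_option autoImplicit false

/-!
# M5, local level: counting

`w` is fixed outside the class `Ac` of the out-labels of the level.
-/

namespace BP2

open Finset Function

variable {L : Type*}

lemma pow_self_le_two (j e : ℕ) : (j + e) ^ (j + e) ≤ 6 ^ (j + e) * (j ^ j * e.factorial) := by
  have h1 := pow_self_le (j + e)
  have h2 : (j + e).choose j * j.factorial * e.factorial = (j + e).factorial := by
    have h := Nat.choose_mul_factorial_mul_factorial (Nat.le_add_right j e)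
    rwa [Nat.add_sub_cancel_left] at h
  have h3 : (j + e).choose j ≤ 2 ^ (j + e) := Nat.choose_le_two_pow _ _
  have h4 : j.factorial ≤ j ^ j := Nat.factorial_le_pow j
  calc (j + e) ^ (j + e) ≤ 3 ^ (j + e) * (j + e).factorial := h1
    _ = 3 ^ (j + e) * ((j + e).choose j * j.factorial * e.factorial) := by rw [h2]
    _ ≤ 3 ^ (j + e) * (2 ^ (j + e) * j ^ j * e.factorial) := by gcongr
    _ = 6 ^ (j + e) * (j ^ j * e.factorial) := by
        rw [show (6 : ℕ) = 3 * 2 by norm_num, mul_pow]; ring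

/-- the class of the out-labels -/
def Acl (A : Finset L) (a : L → ℕ) (f : L → Bool) (t : ℕ) : Finset L :=
  A.filter fun x => a x = t + 1 ∧ f x = true

lemma Adm.maps {A B : Finset L} {a b : L → ℕ} {f : L → Bool} {w : L → L}
    (hw : Adm A B a b f w) {t : ℕ} {x : L} (hx : x ∈ Acl A a f t) : w x ∈ Acl B a f t := by
  obtain ⟨h1, h2, h3⟩ := mem_filter.1 hx
  refine mem_filter.2 ⟨by exact_mod_cast hw.bij.mapsTo (by exact_mod_cast h1), ?_, ?_⟩
  · rw [hw.a x h1]; exact h2
  · rw [hw.f x h1]; exact h3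

lemma Adm.surj {A B : Finset L} {a b : L → ℕ} {f : L → Bool} {w : L → L}
    (hw : Adm A B a b f w) {t : ℕ} {y : L} (hy : y ∈ Acl B a f t) :
    ∃ x ∈ Acl A a f t, w x = y := by
  obtain ⟨h1, h2, h3⟩ := mem_filter.1 hy
  obtain ⟨x, hx, hxy⟩ := hw.bij.surjOn (by exact_mod_cast h1 : y ∈ (B : Set L))
  have hx' : x ∈ A := by exact_mod_cast hx
  refine ⟨x, mem_filter.2 ⟨hx', ?_, ?_⟩, hxy⟩
  · rw [← hw.a x hx', hxy]; exact h2
  · rw [← hw.f x hx', hxy]; exact h3

lemma Adm.inj {A B : Finset L} {a b : L → ℕ} {f : L → Bool} {w : L → L}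
    (hw : Adm A B a b f w) {x y : L} (hx : x ∈ A) (hy : y ∈ A) (h : w x = w y) : x = y :=
  hw.bij.injOn (by exact_mod_cast hx) (by exact_mod_cast hy) h

open Classical in
/-- the fibre of the restriction to the complement of the class -/
theorem fiber_ge [Fintype L] {Q : ℕ} {A B : Finset L} {a b : L → ℕ} {f : L → Bool}
    (hb : ∀ x, b x ≤ Q + 1) {w0 : L → L} (hw0 : Adm A B a b f w0) (t : ℕ) :
    (Acl A a f t).card ^ (Acl A a f t).card ≤ (3 * (Q + 2)) ^ (Acl A a f t).card *
      ((Ws A B a b f).filter fun w => ∀ x, x ∉ Acl A a f t → w x = w0 x).card := by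
  set Ac := Acl A a f t with hAc
  set Bc := Acl B a f t with hBc
  let cA : {x // x ∈ Ac} → Fin (Q + 2) := fun x => ⟨b x.1, by have := hb x.1; omega⟩
  let cB : {x // x ∈ Bc} → Fin (Q + 2) := fun x => ⟨b x.1, by have := hb x.1; omega⟩
  have hAcA : ∀ x ∈ Ac, x ∈ A := fun x hx => (mem_filter.1 hx).1
  -- the bijection given by w0
  let g0 : {x // x ∈ Ac} → {x // x ∈ Bc} := fun x => ⟨w0 x.1, hw0.maps x.2⟩
  have hg0 : Bijective g0 := by
    constructor
    · intro x y hxy
      apply Subtype.ext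
      exact hw0.inj (hAcA _ x.2) (hAcA _ y.2) (congrArg Subtype.val hxy)
    · intro y
      obtain ⟨x, hx, hxy⟩ := hw0.surj y.2
      exact ⟨⟨x, hx⟩, Subtype.ext hxy⟩
  have hcls : ∀ c, Nat.card {x // cA x = c} = Nat.card {y // cB y = c} := by
    intro c
    refine Nat.card_congr ((Equiv.ofBijective g0 hg0).subtypeEquiv fun x => ?_)
    have h1 : cB (g0 x) = cA x := by
      apply Fin.ext
      exact hw0.b x.1 (hAcA _ x.2)
    show cA x = c ↔ cB (g0 x) = c
    rw [h1]
  have hOm := pow_self_le_card_Om cA cB hcls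
  rw [Fintype.card_coe, Fintype.card_fin] at hOm
  refine hOm.trans (Nat.mul_le_mul_left _ ?_)
  -- Om injects into the fibre
  refine card_le_card_of_injOn (fun g z => if h : z ∈ Ac then (g ⟨z, h⟩).1 else w0 z) ?_ ?_
  · intro g hg
    obtain ⟨hg1, hg2⟩ := mem_Om.1 (Finset.mem_coe.1 hg)
    have hex : ∃ W : L → L, W = (fun z => if h : z ∈ Ac then (g ⟨z, h⟩).1 else w0 z) := ⟨_, rfl⟩
    obtain ⟨W, hW⟩ := hex
    have hW1 : ∀ z (h : z ∈ Ac), W z = (g ⟨z, h⟩).1 := fun z h => by rw [hW]; exact dif_pos h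
    have hW2 : ∀ z, z ∉ Ac → W z = w0 z := fun z h => by rw [hW]; exact dif_neg h
    show (fun z => if h : z ∈ Ac then (g ⟨z, h⟩).1 else w0 z) ∈ _
    rw [← hW]
    have hBcB : ∀ y ∈ Bc, y ∈ B ∧ a y = t + 1 ∧ f y = true := fun y hy => mem_filter.1 hy
    have hAcA' : ∀ y ∈ Ac, y ∈ A ∧ a y = t + 1 ∧ f y = true := fun y hy => mem_filter.1 hy
    have hoff : ∀ x ∈ A, x ∉ Ac → w0 x ∉ Bc := by
      intro x hx hxc h1
      obtain ⟨_, h2, h3⟩ := hBcB _ h1
      apply hxc
      refine mem_filter.2 ⟨hx, ?_, ?_⟩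
      · rw [← hw0.a x hx]; exact h2
      · rw [← hw0.f x hx]; exact h3
    rw [coe_filter, Set.mem_ofPred_eq]
    refine ⟨mem_Ws.2 ⟨?_, ?_, ?_, ?_, ?_⟩, fun x hx => hW2 x hx⟩
    · intro x hx
      rw [hW2 x (fun h1 => hx (hAcA x h1))]
      exact hw0.id x hx
    · refine ⟨?_, ?_, ?_⟩
      · intro x hx
        have hx' : x ∈ A := by exact_mod_cast hx
        by_cases h1 : x ∈ Ac
        · rw [hW1 x h1]
          exact_mod_cast (hBcB _ (g ⟨x, h1⟩).2).1
        · rw [hW2 x h1]
          exact hw0.bij.mapsTo hx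
      · intro x hx y hy hxy
        have hx' : x ∈ A := by exact_mod_cast hx
        have hy' : y ∈ A := by exact_mod_cast hy
        by_cases h1 : x ∈ Ac <;> by_cases h2 : y ∈ Ac
        · rw [hW1 x h1, hW1 y h2] at hxy
          have h3 := hg1.1 (Subtype.ext hxy)
          exact congrArg Subtype.val h3
        · rw [hW1 x h1, hW2 y h2] at hxy
          exact absurd (hxy ▸ (g ⟨x, h1⟩).2) (hoff y hy' h2)
        · rw [hW2 x h1, hW1 y h2] at hxy
          exact absurd (hxy ▸ (g ⟨y, h2⟩).2) (hoff x hx' h1)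
        · rw [hW2 x h1, hW2 y h2] at hxy
          exact hw0.bij.injOn hx hy hxy
      · intro y hy
        have hy' : y ∈ B := by exact_mod_cast hy
        by_cases h1 : y ∈ Bc
        · obtain ⟨x, hx⟩ := hg1.2 ⟨y, h1⟩
          refine ⟨x.1, by exact_mod_cast hAcA _ x.2, ?_⟩
          rw [hW1 x.1 x.2]
          show (g x).1 = y
          rw [hx]
        · obtain ⟨x, hx, hxy⟩ := hw0.bij.surjOn hy
          refine ⟨x, hx, ?_⟩
          rw [hW2 x, hxy]
          intro h2
          exact h1 (hxy ▸ hw0.maps h2)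
    · intro x hx
      by_cases h1 : x ∈ Ac
      · rw [hW1 x h1, (hBcB _ (g ⟨x, h1⟩).2).2.1, (hAcA' x h1).2.1]
      · rw [hW2 x h1]; exact hw0.a x hx
    · intro x hx
      by_cases h1 : x ∈ Ac
      · rw [hW1 x h1]
        have := congrArg Fin.val (hg2 ⟨x, h1⟩)
        exact this
      · rw [hW2 x h1]; exact hw0.b x hx
    · intro x hx
      by_cases h1 : x ∈ Ac
      · rw [hW1 x h1, (hBcB _ (g ⟨x, h1⟩).2).2.2, (hAcA' x h1).2.2]
      · rw [hW2 x h1]; exact hw0.f x hx
  · intro g hg g' hg' heq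
    funext x
    have h1 := congrFun heq x.1
    simp only [x.2, dif_pos] at h1
    exact Subtype.ext h1

open Classical in
/-- the bad `w` of the fibre, each with all the choices of the remaining partners -/
theorem bad_le [Fintype L] {E S I : L → L} {Q d : ℕ} {a b : L → ℕ} {loc : Set ℕ} {P : L → Prop}
    {A B : Finset L} {f : L → Bool} {e : ℕ → ℕ} (hS : Involutive S) (hI : Involutive I)
    (h : Sched E S I Q a b loc P) (hsp : Split S a b loc P Q d A B f e) {t : ℕ} (ht : t < Q)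
    (htl : t ∈ loc) (w0 : L → L) (Bd : Finset (L → L))
    (h1 : ∀ w ∈ Bd, Adm A B a b f w ∧ ∀ x, x ∉ Acl A a f t → w x = w0 x) (T : (L → L) → Prop)
    (h2 : ∀ w ∈ Bd, ∀ W ∈ BijOI I (Kt S I a b t) (Ut b t) P,
      (∀ x ∈ Acl A a f t, W x = w x) → T W) :
    Bd.card * (e t).factorial ≤
      Nat.card {W : L → L // W ∈ BijOI I (Kt S I a b t) (Ut b t) P ∧ T W} := by
  rcases Bd.eq_empty_or_nonempty with hBd | ⟨w1, hw1⟩
  · rw [hBd, card_empty, zero_mul]; exact Nat.zero_le _
  have hadm := (h1 w1 hw1).1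
  set Ac := Acl A a f t with hAc
  set Bc := Acl B a f t with hBc
  set Of : Finset L := (OutS S b P t).toFinset with hOf
  set If : Finset L := (InS S b P t).toFinset with hIf
  have hAcO : Ac ⊆ Of := by
    intro x hx
    obtain ⟨h3, h4, h5⟩ := mem_filter.1 hx
    rw [hOf, Set.mem_toFinset]
    exact hsp.out t ht htl x h3 h4 h5
  have hBcI : Bc ⊆ If := by
    intro x hx
    obtain ⟨h3, h4, h5⟩ := mem_filter.1 hx
    rw [hIf, Set.mem_toFinset]
    exact hsp.inn t ht htl x h3 h4 h5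
  have hcardAB : Bc.card = Ac.card := by
    symm
    refine Finset.card_bij (fun x _ => w1 x) (fun x hx => hadm.maps hx) ?_ ?_
    · intro x hx y hy hxy
      exact hadm.inj (mem_filter.1 hx).1 (mem_filter.1 hy).1 hxy
    · intro y hy
      obtain ⟨x, hx, hxy⟩ := hadm.surj hy
      exact ⟨x, hx, hxy⟩
  have hfew := hsp.few t ht htl
  have hO : Of.card = Ac.card + e t := by
    rw [hOf, ← Set.ncard_eq_toFinset_card', hfew]
    congr
  have hIn : If.card = Bc.card + e t := by
    rw [hIf, ← Set.ncard_eq_toFinset_card', h.ncard_in hS hI ht htl,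
      Set.ncard_eq_toFinset_card', ← hOf, hO, hcardAB]
  have hOr : (Of \ Ac).card = e t := by
    rw [card_sdiff_of_subset hAcO]; omega
  have hIr : (If \ Bc).card = e t := by
    rw [card_sdiff_of_subset hBcI]; omega
  have heq : Fintype.card ({x // x ∈ Of \ Ac} ≃ {x // x ∈ If \ Bc}) = (e t).factorial := by
    have hc : Fintype.card {x // x ∈ Of \ Ac} = Fintype.card {x // x ∈ If \ Bc} := by
      rw [Fintype.card_coe, Fintype.card_coe, hOr, hIr]
    rw [Fintype.card_equiv (Fintype.equivOfCardEq hc), Fintype.card_coe, hOr]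
  have hR : Nat.card {W : L → L // W ∈ BijOI I (Kt S I a b t) (Ut b t) P ∧ T W} =
      (univ.filter fun W : L → L => W ∈ BijOI I (Kt S I a b t) (Ut b t) P ∧ T W).card := by
    rw [Nat.card_eq_fintype_card, Fintype.card_subtype]
  rw [hR, ← heq, ← Finset.card_univ, ← Finset.card_product]
  refine card_le_card_of_injOn (fun p z => if z ∈ Ac then p.1 z else
    if h : z ∈ Of \ Ac then (p.2 ⟨z, h⟩).1 else z) ?_ ?_
  · rintro ⟨w, g⟩ hp
    have hw : w ∈ Bd := (mem_product.1 (Finset.mem_coe.1 hp)).1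
    obtain ⟨hwa, hwo⟩ := h1 w hw
    have hex : ∃ W : L → L, W = (fun z => if z ∈ Ac then w z else
      if h : z ∈ Of \ Ac then (g ⟨z, h⟩).1 else z) := ⟨_, rfl⟩
    obtain ⟨W, hW⟩ := hex
    have hW1 : ∀ z ∈ Ac, W z = w z := fun z hz => by
      rw [hW]; exact if_pos hz
    have hW2 : ∀ z (hz : z ∈ Of \ Ac), W z = (g ⟨z, hz⟩).1 := fun z hz => by
      have hz' : z ∉ Ac := (mem_sdiff.1 hz).2
      rw [hW]
      exact (if_neg hz').trans (dif_pos hz)
    have hW3 : ∀ z, z ∉ Of → W z = z := fun z hz => by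
      have hz' : z ∉ Ac := fun h3 => hz (hAcO h3)
      have hz2 : z ∉ Of \ Ac := fun h3 => hz (mem_sdiff.1 h3).1
      rw [hW]
      exact (if_neg hz').trans (dif_neg hz2)
    show (fun z => if z ∈ Ac then w z else
      if h : z ∈ Of \ Ac then (g ⟨z, h⟩).1 else z) ∈ _
    rw [← hW]
    have hOmem : ∀ z, z ∈ OutS S b P t ↔ z ∈ Of := fun z => by rw [hOf, Set.mem_toFinset]
    have hImem : ∀ z, z ∈ InS S b P t ↔ z ∈ If := fun z => by rw [hIf, Set.mem_toFinset]
    have hWB : W ∈ BijOI I (Kt S I a b t) (Ut b t) P := by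
      refine ⟨?_, ?_⟩
      · rw [h.outL ht htl, h.inL ht htl]
        refine ⟨?_, ?_, ?_⟩
        · intro z hz
          rw [hOmem] at hz
          rw [hImem]
          by_cases h3 : z ∈ Ac
          · rw [hW1 z h3]
            exact hBcI (hwa.maps h3)
          · rw [hW2 z (mem_sdiff.2 ⟨hz, h3⟩)]
            exact (mem_sdiff.1 (g ⟨z, mem_sdiff.2 ⟨hz, h3⟩⟩).2).1
        · intro z hz z' hz' hzz
          rw [hOmem] at hz hz'
          by_cases h3 : z ∈ Ac <;> by_cases h4 : z' ∈ Ac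
          · rw [hW1 z h3, hW1 z' h4] at hzz
            exact hwa.inj (mem_filter.1 h3).1 (mem_filter.1 h4).1 hzz
          · rw [hW1 z h3, hW2 z' (mem_sdiff.2 ⟨hz', h4⟩)] at hzz
            exfalso
            have h5 := (mem_sdiff.1 (g ⟨z', mem_sdiff.2 ⟨hz', h4⟩⟩).2).2
            rw [← hzz] at h5
            exact h5 (hwa.maps h3)
          · rw [hW2 z (mem_sdiff.2 ⟨hz, h3⟩), hW1 z' h4] at hzz
            exfalso
            have h5 := (mem_sdiff.1 (g ⟨z, mem_sdiff.2 ⟨hz, h3⟩⟩).2).2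
            rw [hzz] at h5
            exact h5 (hwa.maps h4)
          · rw [hW2 z (mem_sdiff.2 ⟨hz, h3⟩), hW2 z' (mem_sdiff.2 ⟨hz', h4⟩)] at hzz
            have h5 := g.injective (Subtype.ext hzz)
            exact congrArg Subtype.val h5
        · intro y hy
          rw [hImem] at hy
          by_cases h3 : y ∈ Bc
          · obtain ⟨x, hx, hxy⟩ := hwa.surj h3
            refine ⟨x, ?_, ?_⟩
            · rw [hOmem]; exact hAcO hx
            · rw [hW1 x hx, hxy]
          · set x := g.symm ⟨y, mem_sdiff.2 ⟨hy, h3⟩⟩ with hx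
            refine ⟨x.1, ?_, ?_⟩
            · rw [hOmem]; exact (mem_sdiff.1 x.2).1
            · rw [hW2 x.1 x.2]
              show (g x).1 = y
              rw [hx, Equiv.apply_symm_apply]
      · intro z hz
        rw [h.outL ht htl, hOmem] at hz
        exact hW3 z hz
    rw [coe_filter, Set.mem_ofPred_eq]
    exact ⟨mem_univ _, hWB, h2 w hw W hWB hW1⟩
  · rintro ⟨w, g⟩ hp ⟨w', g'⟩ hp' heq2
    have hw : w ∈ Bd := (mem_product.1 (Finset.mem_coe.1 hp)).1
    have hw' : w' ∈ Bd := (mem_product.1 (Finset.mem_coe.1 hp')).1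
    have hval : ∀ z, (if z ∈ Ac then w z else if h : z ∈ Of \ Ac then (g ⟨z, h⟩).1 else z) =
        (if z ∈ Ac then w' z else if h : z ∈ Of \ Ac then (g' ⟨z, h⟩).1 else z) :=
      fun z => congrFun heq2 z
    have hww : w = w' := by
      funext z
      by_cases h3 : z ∈ Ac
      · have h4 := hval z
        rwa [if_pos h3, if_pos h3] at h4
      · rw [(h1 w hw).2 z h3, (h1 w' hw').2 z h3]
    have hgg : g = g' := by
      apply Equiv.ext
      intro x
      have h4 := hval x.1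
      have h5 : x.1 ∉ Ac := (mem_sdiff.1 x.2).2
      rw [if_neg h5, if_neg h5, dif_pos x.2, dif_pos x.2] at h4
      exact Subtype.ext h4
    rw [hww, hgg]

end BP2
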