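import Pool.Agent.BP2.M5.Final
import Pool.Agent.BP2.M.FarHyp
import Pool.Agent.BP2.M.LocHyp
import Pool.Agent.BP2.M.Triv
import Pool.Agent.BP2.M.PosHyp
import Pool.Agent.BP2.D.Final

set_option autoImplicit false

/-! # MP_475aca_co, part (M): the machine theorem -/

namespace BP2

/-- **the machine theorem** -/
theorem machineTheorem : MachineTheorem :=
  machine_theorem trivHyp2 posHyp (farHyp typical trivHyp2) (locHyp typical)

end BP2
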